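import Mathlib

set_option autoImplicit false

namespace Pool.Agent.H508R3.SC

open Matrix

/-- real 2 x 2 matrices -/
abbrev M2 : Type := Matrix (Fin 2) (Fin 2) ℝ

/-- sum of the squares of the entries -/
def ns (A : M2) : ℝ := A 0 0 ^ 2 + A 0 1 ^ 2 + A 1 0 ^ 2 + A 1 1 ^ 2

/-- rotation -/
noncomputable def rot (t : ℝ) : M2 := !![Real.cos t, -Real.sin t; Real.sin t, Real.cos t]

/-- one step transfer matrix at energy `2 cos θ` with potential `b`, in coordinates in which the
free one is a rotation -/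
noncomputable def st (θ b : ℝ) : M2 := !![1, -(b / Real.sin θ); 0, 1] * rot θ

/-- transfer matrix of a word (first letter acts first) in these coordinates -/
noncomputable def Th (θ : ℝ) : List ℝ → M2
  | [] => 1
  | b :: w => Th θ w * st θ b

/-- the usual one step transfer matrix -/
def Am (x : ℝ) : M2 := !![x, -1; 1, 0]

/-- the usual transfer matrix of a word at energy `E` -/
def Tw (E : ℝ) : List ℝ → M2
  | [] => 1
  | b :: w => Tw E w * Am (E - b)

/-- Wigner-von Neumann profile -/
noncomputable def wv (φ : ℝ) (m : ℕ) : ℝ := Real.sin (2 * φ * m) / m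

/-- the symmetric Wigner-von Neumann word on the sites `-L, ..., L` -/
noncomputable def qf (φ η : ℝ) (L : ℕ) : List ℝ :=
  (List.range (2 * L + 1)).map (fun i => η * wv φ ((i : ℤ) - L).natAbs)

lemma Th_append (θ : ℝ) (u v : List ℝ) : Th θ (u ++ v) = Th θ v * Th θ u := by
  induction u with
  | nil => simp [Th]
  | cons b u ih => simp only [List.cons_append, Th, ih, Matrix.mul_assoc]

lemma Tw_append (E : ℝ) (u v : List ℝ) : Tw E (u ++ v) = Tw E v * Tw E u := by
  induction u with
  | nil => simp [Tw]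
  | cons b u ih => simp only [List.cons_append, Tw, ih, Matrix.mul_assoc]

lemma rot_det (t : ℝ) : (rot t).det = 1 := by
  simp [rot, Matrix.det_fin_two_of]
  nlinarith [Real.sin_sq_add_cos_sq t]

lemma st_det (θ b : ℝ) : (st θ b).det = 1 := by
  rw [st, Matrix.det_mul, rot_det, Matrix.det_fin_two_of]
  norm_num

lemma Th_det (θ : ℝ) (w : List ℝ) : (Th θ w).det = 1 := by
  induction w with
  | nil => simp [Th]
  | cons b w ih => rw [Th, Matrix.det_mul, ih, st_det, one_mul]

lemma Am_det (x : ℝ) : (Am x).det = 1 := by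
  simp [Am, Matrix.det_fin_two_of]

lemma Tw_det (E : ℝ) (w : List ℝ) : (Tw E w).det = 1 := by
  induction w with
  | nil => simp [Tw]
  | cons b w ih => rw [Tw, Matrix.det_mul, ih, Am_det, one_mul]

/-- the change of coordinates -/
noncomputable def Sm (θ : ℝ) : M2 := !![1, -Real.cos θ; 0, Real.sin θ]

lemma Sm_step (θ b : ℝ) (hθ : Real.sin θ ≠ 0) :
    Sm θ * Am (2 * Real.cos θ - b) = st θ b * Sm θ := by
  ext i j
  fin_cases i <;> fin_cases j <;>
    simp [Sm, Am, st, rot, Matrix.mul_apply, Fin.sum_univ_two] <;> field_simp <;>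
    nlinarith [Real.sin_sq_add_cos_sq θ]

lemma Sm_Tw (θ : ℝ) (hθ : Real.sin θ ≠ 0) (w : List ℝ) :
    Sm θ * Tw (2 * Real.cos θ) w = Th θ w * Sm θ := by
  induction w with
  | nil => simp [Th, Tw]
  | cons b w ih =>
    rw [Tw, Th, ← Matrix.mul_assoc, ih, Matrix.mul_assoc, Sm_step θ b hθ, ← Matrix.mul_assoc]

end Pool.Agent.H508R3.SC
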