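import Mathlib

set_option autoImplicit false

namespace Pool.Agent.H508R3

/-- a normalised Bloch solution with multiplier `z` and squared sup bound `B` -/
structure Bloch (U : ℤ → ℝ) (E : ℝ) (N : ℕ) (z : ℂ) (w : ℤ → ℂ) (B : ℝ) : Prop where
  eq : ∀ n, w (n + 1) + w (n - 1) + ((U n - E : ℝ) : ℂ) * w n = 0
  per : ∀ n, w (n + N) = z * w n
  unit : ‖z‖ = 1
  wron : ∀ n, (starRingEnd ℂ (w n) * w (n + 1)).im = 1
  bd : ∀ n, ‖w n‖ ^ 2 ≤ B

/-- the polynomials in the energy giving `(u n, u (n-1))` for the solution of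
`u (n+1) + u (n-1) + (U n - E) * u n = 0` with `(u 0, u (-1)) = (x, y)` -/
noncomputable def pol (U : ℤ → ℝ) (x y : ℝ) : ℕ → Polynomial ℝ × Polynomial ℝ
  | 0 => (Polynomial.C x, Polynomial.C y)
  | (n + 1) => ((Polynomial.X - Polynomial.C (U n)) * (pol U x y n).1 - (pol U x y n).2,
      (pol U x y n).1)

/-- the trace of the monodromy over `[0, N)` as a polynomial in the energy -/
noncomputable def trp (U : ℤ → ℝ) (N : ℕ) : Polynomial ℝ := (pol U 1 0 N).1 + (pol U 0 1 N).2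

end Pool.Agent.H508R3
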