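import Pool.Agent.H508R3.Ring

set_option autoImplicit false

namespace Pool.Agent.H508R3

lemma sum_periods (g : ℤ → ℝ) (N : ℕ) (hg : ∀ n : ℤ, g (n + N) = g n) (a : ℤ) (K : ℕ) :
    ∑ n ∈ Finset.Ico a (a + K * N), g n = K * ∑ n ∈ Finset.Ico 0 (N : ℤ), g n := by
  induction K with
  | zero => simp
  | succ K ih =>
    have h1 : Finset.Ico a (a + ((K + 1 : ℕ) : ℤ) * N) =
        Finset.Ico a (a + K * N) ∪ Finset.Ico (a + K * N) (a + K * N + N) := by
      ext n
      simp only [Finset.mem_union, Finset.mem_Ico]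
      push_cast
      have hK : (0 : ℤ) ≤ K * N := by positivity
      have hN : (0 : ℤ) ≤ N := by positivity
      have e : ((K : ℤ) + 1) * N = K * N + N := by ring
      rw [e]
      constructor
      · intro h; omega
      · intro h; omega
    rw [h1, Finset.sum_union, ih, sum_period g N hg]
    · push_cast; ring
    · rw [Finset.disjoint_left]
      intro n hn hn'
      simp only [Finset.mem_Ico] at hn hn'
      omega

/-- cutting off a periodic eigenfunction -/
theorem cutoff (V : ℤ → ℝ) (N : ℕ) (hN : 0 < N) (e : ℝ) (φ : ℤ → ℝ)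
    (hφ : ∀ n : ℤ, φ (n + N) = φ n) (h0 : ∃ n, φ n ≠ 0) (he : ∀ n, HE V e φ n = 0) (a : ℤ) (K : ℕ)
    (hK : 2 ≤ K) :
    ∃ ψ : ℤ → ℝ, (∀ n, n < a ∨ a + K * N - 1 < n → ψ n = 0) ∧
      0 < ∑ n ∈ Finset.Icc a (a + K * N - 1), ψ n ^ 2 ∧
      ∑ n ∈ Finset.Icc (a - 1) (a + K * N - 1 + 1), (HE V e ψ n) ^ 2 ≤
        (4 / K) * ∑ n ∈ Finset.Icc a (a + K * N - 1), ψ n ^ 2 := by
  have hNz : (0 : ℤ) < N := by exact_mod_cast hN
  have hKN : (2 : ℤ) ≤ K * N := by
    have h1 : (2 : ℤ) ≤ K := by exact_mod_cast hK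
    nlinarith
  set b : ℤ := a + K * N - 1 with hb
  set S : ℝ := ∑ n ∈ Finset.Ico 0 (N : ℤ), φ n ^ 2 with hS
  have hper2 : ∀ n : ℤ, (fun n => φ n ^ 2) (n + N) = (fun n => φ n ^ 2) n := fun n => by
    simp only [hφ]
  have hle : ∀ c : ℤ, φ c ^ 2 ≤ S := by
    intro c
    rw [hS, ← sum_period (fun n => φ n ^ 2) N hper2 c]
    exact Finset.single_le_sum (f := fun n => φ n ^ 2) (fun _ _ => sq_nonneg _)
      (by simp only [Finset.mem_Ico]; omega)
  have hSpos : 0 < S := by
    obtain ⟨n, hn⟩ := h0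
    exact lt_of_lt_of_le (by positivity) (hle n)
  set ψ : ℤ → ℝ := fun n => if a ≤ n ∧ n ≤ b then φ n else 0 with hψ
  have hin : ∀ n, a ≤ n → n ≤ b → ψ n = φ n := fun n h1 h2 => if_pos ⟨h1, h2⟩
  have hout : ∀ n, n < a ∨ b < n → ψ n = 0 := fun n h => if_neg (by omega)
  have hsum : ∑ n ∈ Finset.Icc a b, ψ n ^ 2 = K * S := by
    rw [hS, ← sum_periods (fun n => φ n ^ 2) N hper2 a K]
    have : Finset.Icc a b = Finset.Ico a (a + K * N) := by
      ext n; simp only [Finset.mem_Icc, Finset.mem_Ico]; omega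
    rw [this]
    apply Finset.sum_congr rfl
    intro n hn
    simp only [Finset.mem_Ico] at hn
    rw [hin n (by omega) (by omega)]
  have hKr : (0 : ℝ) < K := by
    have : 0 < K := by omega
    exact_mod_cast this
  refine ⟨ψ, hout, ?_, ?_⟩
  · rw [hsum]; positivity
  · rw [hsum]
    have hsub : ({a - 1, a, b, b + 1} : Finset ℤ) ⊆ Finset.Icc (a - 1) (b + 1) := by
      intro n hn
      simp only [Finset.mem_insert, Finset.mem_singleton] at hn
      simp only [Finset.mem_Icc]
      omega
    rw [← Finset.sum_subset hsub]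
    · have hb1 : φ (b + 1) = φ a := by
        have := periodic_mul φ N hφ a K
        rw [← this]; congr 1; rw [hb]; ring
      have hb0 : φ b = φ (a - 1) := by
        have := periodic_mul φ N hφ (a - 1) K
        rw [← this]; congr 1; rw [hb]; ring
      have e1 : HE V e ψ (a - 1) = φ a := by
        simp only [HE]
        rw [sub_add_cancel, hin a (by omega) (by omega), hout (a - 1 - 1) (by omega),
          hout (a - 1) (by omega)]
        ring
      have e2 : HE V e ψ a = -φ (a - 1) := by
        have h := he a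
        simp only [HE] at h ⊢
        rw [hin a (by omega) (by omega), hin (a + 1) (by omega) (by omega),
          hout (a - 1) (by omega)]
        linarith
      have e3 : HE V e ψ b = -φ a := by
        have h := he b
        simp only [HE] at h ⊢
        rw [hin b (by omega) (by omega), hin (b - 1) (by omega) (by omega),
          hout (b + 1) (by omega)]
        rw [hb1] at h
        linarith
      have e4 : HE V e ψ (b + 1) = φ (a - 1) := by
        simp only [HE]
        rw [add_sub_cancel_right, hin b (by omega) (by omega), hout (b + 1 + 1) (by omega),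
          hout (b + 1) (by omega), hb0]
        ring
      rw [Finset.sum_insert, Finset.sum_insert, Finset.sum_insert, Finset.sum_singleton, e1, e2,
        e3, e4]
      · have h1 := hle a
        have h2 := hle (a - 1)
        have h3 : 4 / (K : ℝ) * (K * S) = 4 * S := by field_simp
        rw [h3]
        nlinarith
      · simp only [Finset.mem_singleton]; omega
      · simp only [Finset.mem_insert, Finset.mem_singleton]; omega
      · simp only [Finset.mem_insert, Finset.mem_singleton]; omega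
    · intro n hn hn'
      simp only [Finset.mem_Icc] at hn
      simp only [Finset.mem_insert, Finset.mem_singleton, not_or] at hn'
      have h := he n
      simp only [HE] at h ⊢
      rw [hin n (by omega) (by omega), hin (n + 1) (by omega) (by omega),
        hin (n - 1) (by omega) (by omega), h]
      ring

/-- every energy in `[c, d]` is `η`-close to the energy of an `N`-periodic eigenfunction -/
def Dense (V : ℤ → ℝ) (N : ℕ) (c d η : ℝ) : Prop :=
  ∀ E, c ≤ E → E ≤ d → ∃ (e : ℝ) (φ : ℤ → ℝ), |e - E| ≤ η ∧ (∀ n : ℤ, φ (n + N) = φ n) ∧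
    (∃ n, φ n ≠ 0) ∧ ∀ n, HE V e φ n = 0

/-- the stage lemma -/
theorem stage (V : ℤ → ℝ) (N : ℕ) (hN : 0 < N) (hV : ∀ n : ℤ, V (n + N) = V n) (c d η η' : ℝ)
    (hη : 0 < η) (hη' : 0 < η') (hD : Dense V N c d η) (F : ℕ) (hF : 0 < F) :
    ∃ (V' : ℤ → ℝ) (N' : ℕ), 0 < N' ∧ N ∣ N' ∧ F ∣ N' ∧ (∀ n : ℤ, V' (n + N') = V' n) ∧
      (∀ n, |V' n - V n| ≤ η) ∧ Dense V' N' c d η' ∧ ∃ (n k : ℤ), η ≤ |V' (n + k * N) - V' n| := by
  -- number of shifts
  obtain ⟨J, hJ⟩ := exists_nat_gt (4 * η / η')
  obtain ⟨K0, hK0⟩ := exists_nat_gt (16 / η' ^ 2)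
  have hJpos : 0 < J := by
    rcases Nat.eq_zero_or_pos J with h | h
    · rw [h] at hJ
      have : 0 < 4 * η / η' := by positivity
      norm_num at hJ
      linarith
    · exact h
  have hJr : (0 : ℝ) < J := by exact_mod_cast hJpos
  set K : ℕ := (K0 + 2) * F with hK
  have hK2 : 2 ≤ K := by
    rw [hK]; nlinarith
  have hKr : (0 : ℝ) < K := by
    have : 0 < K := by omega
    exact_mod_cast this
  have hKbig : 4 / (K : ℝ) ≤ (η' / 2) ^ 2 := by
    have h1 : (K0 : ℝ) ≤ K := by
      have : K0 ≤ K := by rw [hK]; nlinarith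
      exact_mod_cast this
    rw [div_le_iff₀ hKr]
    have h2 : 16 / η' ^ 2 < K := lt_of_lt_of_le hK0 h1
    rw [div_lt_iff₀ (by positivity)] at h2
    nlinarith
  have hNz : (0 : ℤ) < N := by exact_mod_cast hN
  have hKN : (2 : ℤ) ≤ K * N := by
    have h1 : (2 : ℤ) ≤ K := by exact_mod_cast hK2
    nlinarith
  set L : ℤ := K * N with hL
  set s : ℤ → ℝ := fun i => -η + 2 * η * i / J with hs
  set N' : ℕ := (J + 1) * (K * N) with hN'
  have hN'z : (N' : ℤ) = (J + 1) * L := by rw [hN', hL]; push_cast; ring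
  have hLpos : 0 < L := by omega
  have hN'pos : (0 : ℤ) < N' := by rw [hN'z]; positivity
  set V' : ℤ → ℝ := fun n => V n + s ((n % N') / L) with hV'
  have hperV' : ∀ n : ℤ, V' (n + N') = V' n := by
    intro n
    simp only [hV']
    rw [Int.add_emod_right]
    congr 1
    have h1 := periodic_mul V N hV n ((J + 1) * K)
    rw [← h1]
    congr 1
    rw [hN'z, hL]
    ring
  have hidx : ∀ i : ℤ, 0 ≤ i → i ≤ J → ∀ n, i * L ≤ n → n ≤ i * L + L - 1 → (n % N') / L = i := by
    intro i h0 h1 n h2 h3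
    have h4 : n % N' = n := by
      apply Int.emod_eq_of_lt
      · nlinarith
      · rw [hN'z]; nlinarith
    rw [h4]
    apply le_antisymm
    · apply Int.lt_add_one_iff.mp
      rw [Int.ediv_lt_iff_lt_mul hLpos]
      nlinarith
    · rw [Int.le_ediv_iff_mul_le hLpos]
      exact h2
  have hsb : ∀ i : ℤ, 0 ≤ i → i ≤ J → |s i| ≤ η := by
    intro i h0 h1
    have h0r : (0 : ℝ) ≤ i := by exact_mod_cast h0
    have h1r : (i : ℝ) ≤ J := by exact_mod_cast h1
    have h2 : 0 ≤ 2 * η * i / J := by positivity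
    have h3 : 2 * η * i / J ≤ 2 * η := by
      rw [div_le_iff₀ hJr]; nlinarith
    simp only [hs]
    rw [abs_le]
    constructor <;> linarith
  have hN'nat : 0 < N' := by exact_mod_cast hN'pos
  refine ⟨V', N', hN'nat, ?_, ?_, hperV', ?_, ?_, ?_⟩
  · exact ⟨(J + 1) * K, by rw [hN']; ring⟩
  · exact ⟨(J + 1) * ((K0 + 2) * N), by rw [hN', hK]; ring⟩
  · intro n
    simp only [hV']
    rw [add_sub_cancel_left]
    apply hsb
    · apply Int.ediv_nonneg (Int.emod_nonneg _ hN'pos.ne') hLpos.le
    · apply Int.lt_add_one_iff.mp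
      rw [Int.ediv_lt_iff_lt_mul hLpos]
      have := Int.emod_lt_of_pos n hN'pos
      rw [hN'z] at this ⊢
      exact this
  · intro E hcE hEd
    obtain ⟨e, φ, he, hφ, hφ0, hφe⟩ := hD E hcE hEd
    rw [abs_le] at he
    set x : ℝ := (E - e + η) * J / (2 * η) with hx
    set i : ℤ := ⌊x⌋ with hi
    have hx0 : 0 ≤ x := by
      rw [hx]; apply div_nonneg _ (by positivity)
      apply mul_nonneg _ hJr.le; linarith
    have hxJ : x ≤ J := by
      rw [hx, div_le_iff₀ (by positivity)]
      nlinarith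
    have hi0 : 0 ≤ i := Int.floor_nonneg.mpr hx0
    have hiJ : i ≤ J := by
      have h1 : (i : ℝ) ≤ x := Int.floor_le x
      have h2 : (i : ℝ) ≤ J := h1.trans hxJ
      exact_mod_cast h2
    have hclose : |e + s i - E| ≤ η' / 2 := by
      have h1 : (i : ℝ) ≤ x := Int.floor_le x
      have h2 : x < i + 1 := Int.lt_floor_add_one x
      have h3 : x * (2 * η) = (E - e + η) * J := by
        rw [hx]; field_simp
      have h4 : 2 * η / J ≤ η' / 2 := by
        rw [div_le_iff₀ hJr]
        rw [div_lt_iff₀ hη'] at hJ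
        nlinarith
      have h5 : 2 * η * i / J ≤ E - e + η := by
        rw [div_le_iff₀ hJr]; nlinarith
      have h6 : E - e + η ≤ 2 * η * i / J + 2 * η / J := by
        rw [← add_div, le_div_iff₀ hJr]; nlinarith
      simp only [hs]
      rw [abs_le]
      constructor <;> linarith
    obtain ⟨ψ, hψs, hψp, hψr⟩ := cutoff V N hN e φ hφ hφ0 hφe (i * L) K hK2
    have hHE : ∀ n ∈ Finset.Icc (i * L - 1) (i * L + K * N - 1 + 1),
        (HE V' (e + s i) ψ n) ^ 2 = (HE V e ψ n) ^ 2 := by
      intro n hn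
      simp only [Finset.mem_Icc] at hn
      by_cases h1 : n < i * L ∨ i * L + K * N - 1 < n
      · simp only [HE]
        rw [hψs n h1]
        ring
      · push Not at h1
        have h2 : V' n = V n + s i := by
          simp only [hV']
          rw [hidx i hi0 hiJ n h1.1 (by rw [hL]; linarith [h1.2])]
        simp only [HE]
        rw [h2]
        ring
    obtain ⟨e', φ', he', h1, h2, h3⟩ := ring_eigen V' N' hN'nat hperV' (e + s i) (η' / 2)
      (by positivity) ψ (i * L) (i * L + K * N - 1) hψs (by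
        rw [hN'z, ← hL]
        have hJz : (1 : ℤ) ≤ J := by exact_mod_cast hJpos
        nlinarith) hψp (by
        rw [Finset.sum_congr rfl hHE]
        refine hψr.trans ?_
        apply mul_le_mul_of_nonneg_right hKbig hψp.le)
    refine ⟨e', φ', ?_, h1, h2, h3⟩
    rw [abs_le] at he' hclose ⊢
    constructor <;> linarith
  · refine ⟨0, J * K, ?_⟩
    have h1 : V' 0 = V 0 + s 0 := by
      simp only [hV']
      rw [hidx 0 le_rfl (by positivity) 0 (by simp) (by simp; omega)]
    have h2 : V' (0 + (J * K : ℤ) * N) = V 0 + s J := by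
      simp only [hV']
      rw [periodic_mul V N hV 0 (J * K), hidx J (by positivity) le_rfl _ (by rw [hL]; linarith)
        (by rw [hL]; nlinarith)]
    rw [h1, h2]
    simp only [hs]
    have h3 : 2 * η * ((J : ℤ) : ℝ) / J = 2 * η := by
      push_cast; field_simp
    rw [h3]
    push_cast
    rw [show V 0 + (-η + 2 * η) - (V 0 + (-η + 2 * η * 0 / (J : ℝ))) = 2 * η by ring]
    rw [abs_of_pos (by linarith)]
    linarith

end Pool.Agent.H508R3
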