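import Pool.Agent.H508R3.Hier

set_option autoImplicit false

namespace Pool.Agent.H508R3

open Filter Topology

/-- growth conditions on the parameters -/
structure Hyp (m : ℕ → ℕ) (τ : ℕ → ℝ) (J : ℕ → ℕ) : Prop where
  tau0 : τ 0 = 10
  tau1 : τ 1 ≤ 1
  pos : ∀ k, 0 < τ k
  half : ∀ k, τ (k + 1) ≤ τ k / 2
  m1 : ∀ k, 1 ≤ m k
  hJ : ∀ k, 2 * J k + 1 ≤ m k * NN m k
  hd : ∀ k, (2 : ℝ) ^ (k + 6) ≤ τ (k + 1) * (1 + τ k) ^ (J k)

/-- a choice of ground states -/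
structure Ground (m : ℕ → ℕ) (τ : ℕ → ℝ) (E : ℕ → ℝ) (φ : ℕ → ℤ → ℝ) : Prop where
  per : ∀ k, ∀ n : ℤ, φ k (n + NN m k) = φ k n
  pos : ∀ k n, 0 < φ k n
  eq : ∀ k n, HE (Vk m τ k) (E k) (φ k) n = 0
  nrm : ∀ k, ∑ n ∈ Finset.Ico 0 (NN m k : ℤ), φ k n ^ 2 = 1

lemma exists_Ground (m : ℕ → ℕ) (τ : ℕ → ℝ) : ∃ E φ, Ground m τ E φ := by
  choose E φ h1 h2 h3 h4 using exists_ground m τ
  exact ⟨E, φ, h1, h2, h3, h4⟩

section

variable {m : ℕ → ℕ} {τ : ℕ → ℝ} {J : ℕ → ℕ} {E : ℕ → ℝ} {φ : ℕ → ℤ → ℝ}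

lemma Ground.top (g : Ground m τ E φ) (k : ℕ) : TopB (Vk m τ k) (E k) :=
  top_of_pos _ _ (φ k) (g.pos k) (g.eq k)

lemma Ground.mass_eq (g : Ground m τ E φ) (k : ℕ) (c : ℤ) :
    ∑ n ∈ Finset.Ico c (c + NN m k), φ k n ^ 2 = 1 := by
  rw [sum_period (fun n => φ k n ^ 2) (NN m k) (fun n => by simp only [g.per]) c]
  exact g.nrm k

lemma Ground.mass_le (g : Ground m τ E φ) (k : ℕ) (a b : ℤ) (h : b - a ≤ NN m k) :
    ∑ n ∈ Finset.Ico a b, φ k n ^ 2 ≤ 1 := by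
  rw [← g.mass_eq k a]
  apply Finset.sum_le_sum_of_subset_of_nonneg
  · intro n hn
    simp only [Finset.mem_Ico] at hn ⊢
    omega
  · intro n _ _; exact sq_nonneg _

lemma Ground.le_one (g : Ground m τ E φ) (k : ℕ) (n : ℤ) : φ k n ≤ 1 := by
  have h := g.mass_le k n (n + 1) (by have := NN_pos m k; omega)
  have h1 : Finset.Ico n (n + 1) = {n} := by
    ext x; simp only [Finset.mem_Ico, Finset.mem_singleton]; omega
  rw [h1, Finset.sum_singleton] at h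
  have := g.pos k n
  nlinarith

lemma edge (h : Hyp m τ J) (g : Ground m τ E φ) {j K : ℕ} (hjK : j < K)
    (hE : E j - τ j / 2 ≤ E K) (e : ℤ)
    (he : e = hh m (j + 1) ∨ e = -(hh m (j + 1) : ℤ) - 1) :
    φ K e ^ 2 + φ K (e + 1) ^ 2 ≤ τ (j + 1) / 2 ^ (j + 6) := by
  have hh1 : hh m (j + 1) = m j * NN m j + hh m j := by simp [hh, NN]
  have hN1 : NN m (j + 1) = 2 * (m j * NN m j) + NN m j := by rw [NN_succ]; ring
  have hN0 : NN m j = 2 * hh m j + 1 := rfl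
  set ℓ : ℕ := m j * NN m j with hℓ
  have hJ := h.hJ j
  rw [← hℓ] at hJ
  have hV : ∀ n, e + 1 - (ℓ : ℤ) ≤ n → n ≤ e + ℓ → Vk m τ K n ≤ Vk m τ j n - τ j := by
    intro n h1 h2
    apply Vk_le m τ h.pos hjK
    rcases he with he | he
    · apply ind_eq_one m j n 0 <;> omega
    · apply ind_eq_one m j n (-1) <;> omega
  have hz := zone (Vk m τ K) (Vk m τ j) (E K) (E j) (τ j) (φ K) (g.top j) e ℓ (g.eq K) hV hE
    (h.pos j) (J j) (by omega)
  have hNK := NN_le m (j := j + 1) (k := K) hjK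
  have hm := g.mass_le K (e + 1 - (2 * (J j : ℤ) + 1)) (e + 1 + (2 * (J j : ℤ) + 1)) (by omega)
  have hτ := h.pos j
  have hτ' := h.pos (j + 1)
  rw [le_div_iff₀ (by positivity)]
  calc (φ K e ^ 2 + φ K (e + 1) ^ 2) * 2 ^ (j + 6)
      ≤ (φ K e ^ 2 + φ K (e + 1) ^ 2) * (τ (j + 1) * (1 + τ j) ^ (J j)) :=
        mul_le_mul_of_nonneg_left (h.hd j) (by positivity)
    _ = τ (j + 1) * ((1 + τ j) ^ (J j) * (φ K e ^ 2 + φ K (e + 1) ^ 2)) := by ring
    _ ≤ τ (j + 1) * 1 := mul_le_mul_of_nonneg_left (hz.trans hm) hτ'.le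
    _ = τ (j + 1) := mul_one _

lemma E_zero (g : Ground m τ E φ) : E 0 = 2 := by
  have hN : (NN m 0 : ℤ) = 1 := by simp [NN, hh]
  have h1 := g.per 0 0
  have h2 := g.per 0 (-1)
  have h3 := g.eq 0 0
  have h4 := g.pos 0 0
  rw [hN] at h1 h2
  simp only [HE, Vk, Finset.range_zero, Finset.sum_empty] at h3
  norm_num at h1 h2 h3
  have h5 : (2 - E 0) * φ 0 0 = 0 := by rw [h1, ← h2] at h3; linarith
  rcases mul_eq_zero.mp h5 with h | h
  · linarith
  · linarith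

lemma E_one (g : Ground m τ E φ) : 0 ≤ E 1 := by
  have ht := g.top 1
  have h1 := ht (fun n => if n = 0 then 1 else 0) 0 1 (by
    intro n hn
    rw [if_neg (by omega)])
  have h2 : Finset.Ico (0 : ℤ) 1 = {0} := by decide
  rw [h2, Finset.sum_singleton, Finset.sum_singleton] at h1
  have h3 : Vk m τ 1 0 = 0 := by
    rw [Vk_eq m τ 0 0 (by simp [hh]) (by simp [hh])]
    simp [Vk]
  rw [h3] at h1
  simpa using h1

lemma E_step (h : Hyp m τ J) (g : Ground m τ E φ) (i : ℕ) :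
    (E i - τ i / 2 ≤ E (i + 1)) ∧ (1 ≤ i → E i - τ i / 2 ^ (i + 5) ≤ E (i + 1)) := by
  induction i with
  | zero =>
    refine ⟨?_, fun h => absurd h (by norm_num)⟩
    rw [E_zero g, h.tau0]
    have := E_one g
    norm_num at this ⊢
    linarith
  | succ i ih =>
    have e1 := edge h g (Nat.lt_succ_self i) ih.1 (hh m (i + 1)) (Or.inl rfl)
    have e2 := edge h g (Nat.lt_succ_self i) ih.1 (-(hh m (i + 1) : ℤ) - 1) (Or.inr rfl)
    have hc := cell_le (Vk m τ (i + 1)) (Vk m τ (i + 2)) (E (i + 1)) (E (i + 2)) 0 (φ (i + 1))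
      (g.top (i + 2)) (-(hh m (i + 1) : ℤ)) (hh m (i + 1) + 1) (by omega)
      (fun n _ _ => g.eq (i + 1) n) (fun n h1 h2 => by
        rw [Vk_eq m τ (i + 1) n h1 (by omega)]; simp)
    have hm := g.mass_eq (i + 1) (-(hh m (i + 1) : ℤ))
    rw [show -(hh m (i + 1) : ℤ) + NN m (i + 1) = hh m (i + 1) + 1 by unfold NN; omega] at hm
    rw [hm] at hc
    rw [show (hh m (i + 1) : ℤ) + 1 - 1 = hh m (i + 1) by ring] at hc
    rw [show -(hh m (i + 1) : ℤ) - 1 + 1 = -(hh m (i + 1) : ℤ) by ring] at e2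
    have hτ := h.pos (i + 1)
    have p1 : φ (i + 1) (hh m (i + 1)) * φ (i + 1) (hh m (i + 1) + 1) ≤
        (φ (i + 1) (hh m (i + 1)) ^ 2 + φ (i + 1) (hh m (i + 1) + 1) ^ 2) / 2 := by
      nlinarith [sq_nonneg (φ (i + 1) (hh m (i + 1)) - φ (i + 1) (hh m (i + 1) + 1))]
    have p2 : φ (i + 1) (-(hh m (i + 1) : ℤ)) * φ (i + 1) (-(hh m (i + 1) : ℤ) - 1) ≤
        (φ (i + 1) (-(hh m (i + 1) : ℤ) - 1) ^ 2 + φ (i + 1) (-(hh m (i + 1) : ℤ)) ^ 2) / 2 := by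
      nlinarith [sq_nonneg (φ (i + 1) (-(hh m (i + 1) : ℤ)) - φ (i + 1) (-(hh m (i + 1) : ℤ) - 1))]
    have h3 : E (i + 1) - τ (i + 1) / 2 ^ (i + 6) ≤ E (i + 1 + 1) := by
      have e1' : φ (i + 1) (hh m (i + 1)) ^ 2 + φ (i + 1) (hh m (i + 1) + 1) ^ 2 ≤
        τ (i + 1) / 2 ^ (i + 6) := e1
      have e2' : φ (i + 1) (-(hh m (i + 1) : ℤ) - 1) ^ 2 + φ (i + 1) (-(hh m (i + 1) : ℤ)) ^ 2 ≤
        τ (i + 1) / 2 ^ (i + 6) := e2
      have : E (i + 1 + 1) = E (i + 2) := rfl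
      linarith
    refine ⟨?_, fun _ => h3⟩
    have h4 : τ (i + 1) / 2 ^ (i + 6) ≤ τ (i + 1) / 2 := by
      apply div_le_div_of_nonneg_left hτ.le (by norm_num)
      calc (2 : ℝ) = 2 ^ 1 := by norm_num
        _ ≤ 2 ^ (i + 6) := pow_le_pow_right₀ (by norm_num) (by omega)
    linarith

lemma tau_le (h : Hyp m τ J) {j k : ℕ} (hjk : j ≤ k) : τ k ≤ τ j := by
  induction k, hjk using Nat.le_induction with
  | base => exact le_rfl
  | succ k _ ih =>
    have := h.half k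
    have := h.pos k
    linarith

lemma E_low (h : Hyp m τ J) (g : Ground m τ E φ) {j K : ℕ} (hj : 1 ≤ j) (hjK : j ≤ K) :
    E j - τ j * (1 / 2 ^ (j + 4) - 1 / 2 ^ (K + 4)) ≤ E K := by
  induction K, hjK using Nat.le_induction with
  | base => simp
  | succ K hK ih =>
    have h1 := (E_step h g K).2 (hj.trans hK)
    have h2 := tau_le h hK
    have h3 : τ K / 2 ^ (K + 5) ≤ τ j / 2 ^ (K + 5) := by gcongr
    have h4 : (1 : ℝ) / 2 ^ (K + 1 + 4) = 1 / 2 ^ (K + 4) / 2 := by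
      rw [show K + 1 + 4 = (K + 4) + 1 by ring, pow_succ]; field_simp
    have h5 : τ j / 2 ^ (K + 5) = τ j * (1 / 2 ^ (K + 4) / 2) := by
      rw [show K + 5 = (K + 4) + 1 by ring, pow_succ]; field_simp
    rw [h4]
    rw [h5] at h3
    nlinarith

lemma E_neg (h : Hyp m τ J) (g : Ground m τ E φ) {K : ℕ} (hK : 1 ≤ K) : -(1 / 32) ≤ E K := by
  have h1 := E_low h g (le_refl 1) hK
  have h2 := E_one g
  have h3 := h.tau1
  have h4 := h.pos 1
  have h5 : (0 : ℝ) ≤ 1 / 2 ^ (K + 4) := by positivity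
  norm_num at h1
  have h6 : τ 1 * (1 / 32 - (2 ^ (K + 4))⁻¹) ≤ τ 1 * (1 / 32) := by
    apply mul_le_mul_of_nonneg_left _ h4.le
    have : (0 : ℝ) ≤ (2 ^ (K + 4))⁻¹ := by positivity
    linarith
  linarith

lemma E_half (h : Hyp m τ J) (g : Ground m τ E φ) {j K : ℕ} (hjK : j ≤ K) :
    E j - τ j / 2 ≤ E K := by
  have hτ := h.pos j
  rcases Nat.eq_zero_or_pos j with hj | hj
  · subst hj
    rcases Nat.eq_zero_or_pos K with hK | hK
    · subst hK; linarith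
    · have := E_neg h g hK
      rw [E_zero g, h.tau0]
      linarith
  · have h1 := E_low h g hj hjK
    have h2 : (1 : ℝ) / 2 ^ (j + 4) - 1 / 2 ^ (K + 4) ≤ 1 / 2 := by
      have h3 : (0 : ℝ) ≤ 1 / 2 ^ (K + 4) := by positivity
      have h4 : (1 : ℝ) / 2 ^ (j + 4) ≤ 1 / 2 := by
        apply one_div_le_one_div_of_le (by norm_num)
        calc (2 : ℝ) = 2 ^ 1 := by norm_num
          _ ≤ 2 ^ (j + 4) := pow_le_pow_right₀ (by norm_num) (by omega)
      linarith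
    have h3 := mul_le_mul_of_nonneg_left h2 hτ.le
    linarith

lemma annulus (h : Hyp m τ J) (g : Ground m τ E φ) {j K : ℕ} (hjK : j < K) (a b : ℤ)
    (hab : (a = hh m j + 1 ∧ b = hh m (j + 1) + 1) ∨
      (a = -(hh m (j + 1) : ℤ) ∧ b = -(hh m j : ℤ))) :
    (E K - E j + τ j) * ∑ n ∈ Finset.Ico a b, φ K n ^ 2 ≤
      φ K (b - 1) * φ K b + φ K a * φ K (a - 1) := by
  have hh1 : hh m (j + 1) = m j * NN m j + hh m j := by simp [hh, NN]
  have hN1 : NN m (j + 1) = 2 * (m j * NN m j) + NN m j := by rw [NN_succ]; ring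
  have hN0 : NN m j = 2 * hh m j + 1 := rfl
  have hℓ1 : 1 ≤ m j * NN m j := Nat.mul_pos (h.m1 j) (NN_pos m j)
  set ℓ : ℕ := m j * NN m j with hℓ
  refine cell_le (Vk m τ K) (Vk m τ j) (E K) (E j) (τ j) (φ K) (g.top j) a b (by omega)
    (fun n _ _ => g.eq K n) ?_
  intro n h1 h2
  apply Vk_le m τ h.pos hjK
  rcases hab with ⟨ha, hb⟩ | ⟨ha, hb⟩
  · apply ind_eq_one m j n 0 <;> omega
  · apply ind_eq_one m j n (-1) <;> omega

lemma mass_annulus (h : Hyp m τ J) (g : Ground m τ E φ) {j K : ℕ} (hj : 1 ≤ j) (hjK : j < K)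
    (a b : ℤ) (hab : (a = hh m j + 1 ∧ b = hh m (j + 1) + 1) ∨
      (a = -(hh m (j + 1) : ℤ) ∧ b = -(hh m j : ℤ))) :
    ∑ n ∈ Finset.Ico a b, φ K n ^ 2 ≤ 1 / 2 ^ (j + 4) := by
  have ha := annulus h g hjK a b hab
  obtain ⟨i, rfl⟩ : ∃ i, j = i + 1 := ⟨j - 1, by omega⟩
  have hE1 := E_half h g (j := i + 1) (K := K) hjK.le
  have hE0 := E_half h g (j := i) (K := K) (by omega)
  have hs : (φ K (b - 1) ^ 2 + φ K b ^ 2) + (φ K (a - 1) ^ 2 + φ K a ^ 2) ≤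
      τ (i + 1 + 1) / 2 ^ (i + 1 + 6) + τ (i + 1) / 2 ^ (i + 6) := by
    rcases hab with ⟨ha, hb⟩ | ⟨ha, hb⟩
    · have e1 := edge h g hjK hE1 (hh m (i + 1 + 1)) (Or.inl rfl)
      have e2 := edge h g (j := i) (K := K) (by omega) hE0 (hh m (i + 1)) (Or.inl rfl)
      rw [ha, hb, show (hh m (i + 1 + 1) : ℤ) + 1 - 1 = hh m (i + 1 + 1) by ring,
        show (hh m (i + 1) : ℤ) + 1 - 1 = hh m (i + 1) by ring]
      linarith
    · have e1 := edge h g hjK hE1 (-(hh m (i + 1 + 1) : ℤ) - 1) (Or.inr rfl)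
      have e2 := edge h g (j := i) (K := K) (by omega) hE0 (-(hh m (i + 1) : ℤ) - 1) (Or.inr rfl)
      rw [sub_add_cancel] at e1 e2
      rw [ha, hb]
      linarith
  have hτ := h.pos (i + 1)
  have hhalf := h.half (i + 1)
  have p1 : φ K (b - 1) * φ K b ≤ (φ K (b - 1) ^ 2 + φ K b ^ 2) / 2 := by
    nlinarith [sq_nonneg (φ K (b - 1) - φ K b)]
  have p2 : φ K a * φ K (a - 1) ≤ (φ K (a - 1) ^ 2 + φ K a ^ 2) / 2 := by
    nlinarith [sq_nonneg (φ K a - φ K (a - 1))]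
  set A := ∑ n ∈ Finset.Ico a b, φ K n ^ 2 with hA
  have hA0 : 0 ≤ A := Finset.sum_nonneg fun _ _ => sq_nonneg _
  have k1 : τ (i + 1) / 2 * A ≤ (E K - E (i + 1) + τ (i + 1)) * A := by
    apply mul_le_mul_of_nonneg_right _ hA0
    linarith
  have q : (0 : ℝ) < 1 / 2 ^ (i + 6) := by positivity
  have q1 : τ (i + 1 + 1) / 2 ^ (i + 1 + 6) ≤ τ (i + 1) * (1 / 2 ^ (i + 6)) / 4 := by
    have : τ (i + 1 + 1) / 2 ^ (i + 1 + 6) = τ (i + 1 + 1) * (1 / 2 ^ (i + 6)) / 2 := by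
      rw [show i + 1 + 6 = (i + 6) + 1 by ring, pow_succ]; field_simp
    rw [this]
    nlinarith
  have q2 : τ (i + 1) / 2 ^ (i + 6) = τ (i + 1) * (1 / 2 ^ (i + 6)) := by field_simp
  have q3 : (1 : ℝ) / 2 ^ (i + 1 + 4) = 2 * (1 / 2 ^ (i + 6)) := by
    rw [show i + 6 = (i + 1 + 4) + 1 by ring, pow_succ]; field_simp; try ring
  rw [q3]
  rw [q2] at hs
  set q0 : ℝ := 1 / 2 ^ (i + 6) with hq0
  have k2 : τ (i + 1) * A ≤ τ (i + 1) * (2 * q0) := by nlinarith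
  exact le_of_mul_le_mul_left k2 hτ

lemma center (h : Hyp m τ J) (g : Ground m τ E φ) {K : ℕ} (hK : 1 ≤ K) : 1 / 2 ≤ φ K 0 ^ 2 := by
  have hh0 : (hh m 0 : ℤ) = 0 := by simp [hh]
  have hh1 : hh m 1 = m 0 := by simp [hh]
  have hm0 := h.m1 0
  have a1 := annulus h g (j := 0) (K := K) (by omega) 1 (hh m 1 + 1) (Or.inl ⟨by simp [hh], rfl⟩)
  have a2 := annulus h g (j := 0) (K := K) (by omega) (-(hh m 1 : ℤ)) 0 (Or.inr ⟨rfl, by simp [hh]⟩)
  have hE0 := E_half h g (j := 0) (K := K) (by omega)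
  have e1 := edge h g (j := 0) (K := K) (by omega) hE0 (hh m 1) (Or.inl rfl)
  have e2 := edge h g (j := 0) (K := K) (by omega) hE0 (-(hh m 1 : ℤ) - 1) (Or.inr rfl)
  rw [sub_add_cancel] at e2
  rw [show (hh m 1 : ℤ) + 1 - 1 = hh m 1 by ring, show (1 : ℤ) - 1 = 0 by ring] at a1
  rw [show (0 : ℤ) - 1 = -1 by ring] at a2
  have hτ1 := h.tau1
  have hEK := E_neg h g hK
  have hz := E_zero g
  have ht0 := h.tau0
  norm_num at e1 e2
  set A1 := ∑ n ∈ Finset.Ico 1 ((hh m 1 : ℤ) + 1), φ K n ^ 2 with hA1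
  set A2 := ∑ n ∈ Finset.Ico (-(hh m 1 : ℤ)) 0, φ K n ^ 2 with hA2
  have b1 : φ K 1 ^ 2 ≤ A1 := by
    rw [hA1]
    apply Finset.single_le_sum (f := fun n => φ K n ^ 2) (fun _ _ => sq_nonneg _)
    simp only [Finset.mem_Ico]; omega
  have b2 : φ K (-1) ^ 2 ≤ A2 := by
    rw [hA2]
    apply Finset.single_le_sum (f := fun n => φ K n ^ 2) (fun _ _ => sq_nonneg _)
    simp only [Finset.mem_Ico]; omega
  have hA1n : 0 ≤ A1 := Finset.sum_nonneg fun _ _ => sq_nonneg _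
  have hA2n : 0 ≤ A2 := Finset.sum_nonneg fun _ _ => sq_nonneg _
  have p1 : φ K (hh m 1) * φ K (hh m 1 + 1) ≤ (φ K (hh m 1) ^ 2 + φ K (hh m 1 + 1) ^ 2) / 2 := by
    nlinarith [sq_nonneg (φ K (hh m 1) - φ K (hh m 1 + 1))]
  have p2 : φ K 1 * φ K 0 ≤ (φ K 1 ^ 2 + φ K 0 ^ 2) / 2 := by
    nlinarith [sq_nonneg (φ K 1 - φ K 0)]
  have p3 : φ K (-1) * φ K 0 ≤ (φ K (-1) ^ 2 + φ K 0 ^ 2) / 2 := by
    nlinarith [sq_nonneg (φ K (-1) - φ K 0)]
  have p4 : φ K (-(hh m 1 : ℤ)) * φ K (-(hh m 1 : ℤ) - 1) ≤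
      (φ K (-(hh m 1 : ℤ) - 1) ^ 2 + φ K (-(hh m 1 : ℤ)) ^ 2) / 2 := by
    nlinarith [sq_nonneg (φ K (-(hh m 1 : ℤ)) - φ K (-(hh m 1 : ℤ) - 1))]
  have k1 : 7.9 * A1 ≤ (E K - E 0 + τ 0) * A1 := by
    apply mul_le_mul_of_nonneg_right _ hA1n
    rw [hz, ht0]; norm_num; linarith
  have k2 : 7.9 * A2 ≤ (E K - E 0 + τ 0) * A2 := by
    apply mul_le_mul_of_nonneg_right _ hA2n
    rw [hz, ht0]; norm_num; linarith
  have hA12 : 7.4 * (A1 + A2) ≤ 1 / 64 + φ K 0 ^ 2 := by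
    norm_num at k1 k2 ⊢
    linarith
  -- total masses
  have key : ∀ j, 1 ≤ j → j ≤ K → ∑ n ∈ Finset.Ico (-(hh m j : ℤ)) (hh m j + 1), φ K n ^ 2 ≤
      φ K 0 ^ 2 + A1 + A2 + (1 / 8 - 1 / 2 ^ (j + 2)) := by
    intro j hj
    induction j, hj using Nat.le_induction with
    | base =>
      intro _
      have h1 : Finset.Ico (-(hh m 1 : ℤ)) (hh m 1 + 1) =
          Finset.Ico (-(hh m 1 : ℤ)) 0 ∪ (insert 0 (Finset.Ico 1 ((hh m 1 : ℤ) + 1))) := by
        ext n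
        simp only [Finset.mem_Ico, Finset.mem_union, Finset.mem_insert]
        omega
      rw [h1, Finset.sum_union, Finset.sum_insert]
      · norm_num
        linarith
      · simp only [Finset.mem_Ico]; omega
      · rw [Finset.disjoint_left]
        intro n hn
        simp only [Finset.mem_Ico, Finset.mem_insert] at hn ⊢
        omega
    | succ j hj ih =>
      intro hjK
      have ih' := ih (by omega)
      have hle := hh_le m (Nat.le_succ j)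
      have hle' : hh m j ≤ hh m (j + 1) := hle
      have h1 : Finset.Ico (-(hh m (j + 1) : ℤ)) (hh m (j + 1) + 1) =
          Finset.Ico (-(hh m (j + 1) : ℤ)) (-(hh m j : ℤ)) ∪
          (Finset.Ico (-(hh m j : ℤ)) (hh m j + 1) ∪
            Finset.Ico ((hh m j : ℤ) + 1) (hh m (j + 1) + 1)) := by
        ext n
        simp only [Finset.mem_Ico, Finset.mem_union]
        omega
      rw [h1, Finset.sum_union, Finset.sum_union]
      · have c1 := mass_annulus h g hj (K := K) (by omega) (hh m j + 1) (hh m (j + 1) + 1)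
          (Or.inl ⟨rfl, rfl⟩)
        have c2 := mass_annulus h g hj (K := K) (by omega) (-(hh m (j + 1) : ℤ)) (-(hh m j : ℤ))
          (Or.inr ⟨rfl, rfl⟩)
        have h4 : (1 : ℝ) / 2 ^ (j + 1 + 2) = 1 / 2 ^ (j + 2) / 2 := by
          rw [show j + 1 + 2 = (j + 2) + 1 by ring, pow_succ]; field_simp
        have h5 : (1 : ℝ) / 2 ^ (j + 4) = 1 / 2 ^ (j + 2) / 4 := by
          rw [show j + 4 = (j + 2) + 2 by ring, pow_add]; field_simp; norm_num
        rw [h4]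
        rw [h5] at c1 c2
        linarith
      · rw [Finset.disjoint_left]
        intro n hn
        simp only [Finset.mem_Ico] at hn ⊢
        omega
      · rw [Finset.disjoint_left]
        intro n hn
        simp only [Finset.mem_Ico, Finset.mem_union] at hn ⊢
        omega
  have hfin := key K hK le_rfl
  have hm := g.mass_eq K (-(hh m K : ℤ))
  rw [show -(hh m K : ℤ) + NN m K = hh m K + 1 by unfold NN; omega] at hm
  rw [hm] at hfin
  have q : (0 : ℝ) < 1 / 2 ^ (K + 2) := by positivity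
  norm_num at hA12 hfin ⊢
  have q' : (0 : ℝ) < (2 ^ (K + 2))⁻¹ := by positivity
  linarith

lemma NN_ge (h : Hyp m τ J) (k : ℕ) : k + 1 ≤ NN m k := by
  induction k with
  | zero => simp [NN, hh]
  | succ k ih =>
    rw [NN_succ]
    have := h.m1 k
    nlinarith

lemma tau_geom (h : Hyp m τ J) (k : ℕ) : τ k ≤ 10 * (1 / 2) ^ k := by
  induction k with
  | zero => rw [h.tau0]; norm_num
  | succ k ih =>
    have := h.half k
    rw [pow_succ]
    linarith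

lemma tau_summable (h : Hyp m τ J) : Summable τ := by
  apply Summable.of_nonneg_of_le (fun k => (h.pos k).le) (tau_geom h)
  exact (summable_geometric_of_lt_one (by norm_num) (by norm_num)).mul_left _

lemma ind_summable (h : Hyp m τ J) (n : ℤ) : Summable (fun j => τ j * ind m j n) := by
  apply Summable.of_nonneg_of_le (fun k => mul_nonneg (h.pos k).le (ind_nonneg m k n)) _
    (tau_summable h)
  intro k
  have h1 := ind_le_one m k n
  have h2 := (h.pos k).le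
  nlinarith

lemma Vk_tendsto (h : Hyp m τ J) (n : ℤ) :
    Tendsto (fun k => Vk m τ k n) atTop (𝓝 (Vinf m τ n)) :=
  (ind_summable h n).hasSum.tendsto_sum_nat.neg

end

/-- existence of a square summable eigenfunction -/
theorem exists_eigen {m : ℕ → ℕ} {τ : ℕ → ℝ} {J : ℕ → ℕ} (h : Hyp m τ J) :
    ∃ (E : ℝ) (ψ : ℤ → ℝ), (∀ n, HE (Vinf m τ) E ψ n = 0) ∧ 1 / 2 ≤ ψ 0 ^ 2 ∧
      ∀ a b : ℤ, ∑ n ∈ Finset.Ico a b, ψ n ^ 2 ≤ 1 := by
  obtain ⟨E, φ, g⟩ := exists_Ground m τ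
  have hEup : ∀ K, E (K + 1) ≤ 3 := by
    intro K
    by_contra hcon
    push Not at hcon
    have h1 := g.eq (K + 1) 0
    have h2 := center h g (K := K + 1) (by omega)
    have h3 := g.le_one (K + 1) 1
    have h4 := g.le_one (K + 1) (-1)
    have h5 := g.pos (K + 1) 0
    have h6 : Vk m τ (K + 1) 0 ≤ 0 := by
      have := Vk_anti m τ h.pos (Nat.zero_le (K + 1)) 0
      simpa [Vk] using this
    simp only [HE] at h1
    norm_num at h1
    nlinarith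
  set X : ℕ → ℝ × (ℤ → ℝ) := fun K => (E (K + 1), φ (K + 1)) with hX
  have hcpt : IsCompact ((Set.Icc (-1 : ℝ) 3) ×ˢ (Set.pi Set.univ (fun _ : ℤ => Set.Icc (0 : ℝ) 1))) :=
    isCompact_Icc.prod (isCompact_univ_pi fun _ => isCompact_Icc)
  have hmem : ∀ K, X K ∈ (Set.Icc (-1 : ℝ) 3) ×ˢ (Set.pi Set.univ (fun _ : ℤ => Set.Icc (0 : ℝ) 1)) := by
    intro K
    refine ⟨⟨?_, hEup K⟩, fun n _ => ⟨(g.pos (K + 1) n).le, g.le_one (K + 1) n⟩⟩
    have := E_neg h g (K := K + 1) (by omega)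
    show -1 ≤ E (K + 1)
    linarith
  obtain ⟨⟨E', ψ⟩, _, s, hs, hlim⟩ := hcpt.tendsto_subseq hmem
  have hE : Tendsto (fun l => E (s l + 1)) atTop (𝓝 E') :=
    (continuous_fst.tendsto _).comp hlim
  have hψ : ∀ n, Tendsto (fun l => φ (s l + 1) n) atTop (𝓝 (ψ n)) := by
    intro n
    exact (((continuous_apply n).comp continuous_snd).tendsto _).comp hlim
  have hV : ∀ n, Tendsto (fun l => Vk m τ (s l + 1) n) atTop (𝓝 (Vinf m τ n)) := by
    intro n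
    have h1 : Tendsto (fun l => s l + 1) atTop atTop :=
      (tendsto_add_atTop_nat 1).comp hs.tendsto_atTop
    exact (Vk_tendsto h n).comp h1
  refine ⟨E', ψ, ?_, ?_, ?_⟩
  · intro n
    have h1 : Tendsto (fun l => HE (Vk m τ (s l + 1)) (E (s l + 1)) (φ (s l + 1)) n) atTop
        (𝓝 (HE (Vinf m τ) E' ψ n)) := by
      simp only [HE]
      exact ((hψ _).add (hψ _)).add (((hV n).sub hE).mul (hψ n))
    have h2 : (fun l => HE (Vk m τ (s l + 1)) (E (s l + 1)) (φ (s l + 1)) n) = fun _ => 0 := by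
      funext l
      exact g.eq _ _
    rw [h2] at h1
    exact tendsto_nhds_unique h1 tendsto_const_nhds
  · refine ge_of_tendsto' ((hψ 0).pow 2) (fun l => ?_)
    exact center h g (by omega)
  · intro a b
    refine le_of_tendsto (tendsto_finsetSum _ fun n _ => (hψ n).pow 2) ?_
    filter_upwards [eventually_ge_atTop (b - a).toNat] with l hl
    apply g.mass_le
    have h1 := NN_ge h (s l + 1)
    have h2 := hs.le_apply (x := l)
    omega

end Pool.Agent.H508R3
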