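import Pool.Agent.H508R3.Eig

set_option autoImplicit false

namespace Pool.Agent.H508R3

open Filter Topology

/-- shifts -/
def xx (m : ℕ → ℕ) : ℕ → ℕ
  | 0 => 0
  | (k + 1) => xx m k + 2 * NN m k

/-- an element of the hull of `Vinf` -/
noncomputable def Wg (m : ℕ → ℕ) (τ : ℕ → ℝ) (n : ℤ) : ℝ :=
  -∑' j, τ j * ind m j (n + xx m (j + 1))

section

variable {m : ℕ → ℕ} {τ : ℕ → ℝ} {J : ℕ → ℕ}

lemma tail_le (h : Hyp m τ J) (c : ℕ → ℝ) (hc0 : ∀ j, 0 ≤ c j) (hc1 : ∀ j, c j ≤ 1) (k : ℕ) :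
    |∑' j, τ j * c j - ∑ j ∈ Finset.range k, τ j * c j| ≤ 20 * (1 / 2) ^ k := by
  have hs : Summable (fun j => τ j * c j) := by
    apply Summable.of_nonneg_of_le (fun k => mul_nonneg (h.pos k).le (hc0 k)) _ (tau_summable h)
    intro k
    have h1 := hc1 k
    have h2 := (h.pos k).le
    nlinarith
  rw [← hs.sum_add_tsum_nat_add k, add_sub_cancel_left]
  have hg : Summable (fun j : ℕ => 10 * (1 / 2 : ℝ) ^ k * (1 / 2) ^ j) :=
    (summable_geometric_of_lt_one (by norm_num) (by norm_num)).mul_left _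
  have hle : ∀ j, τ (j + k) * c (j + k) ≤ 10 * (1 / 2 : ℝ) ^ k * (1 / 2) ^ j := by
    intro j
    have h1 := tau_geom h (j + k)
    have h2 := hc1 (j + k)
    have h3 := (h.pos (j + k)).le
    rw [pow_add] at h1
    nlinarith
  have h0 : ∀ j, 0 ≤ τ (j + k) * c (j + k) := fun j => mul_nonneg (h.pos _).le (hc0 _)
  rw [abs_of_nonneg (tsum_nonneg h0)]
  have h1 : ∑' j, τ (j + k) * c (j + k) ≤ ∑' j : ℕ, 10 * (1 / 2 : ℝ) ^ k * (1 / 2) ^ j :=
    Summable.tsum_le_tsum hle ((summable_nat_add_iff k).mpr hs) hg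
  refine h1.trans (le_of_eq ?_)
  rw [tsum_mul_left, tsum_geometric_two]
  ring

lemma Vinf_near (h : Hyp m τ J) (k : ℕ) (n : ℤ) :
    |Vinf m τ n - Vk m τ k n| ≤ 20 * (1 / 2) ^ k := by
  have := tail_le h (fun j => ind m j n) (fun j => ind_nonneg m j n) (fun j => ind_le_one m j n) k
  unfold Vinf Vk
  rw [neg_sub_neg, abs_sub_comm]
  exact this

/-- `Vinf` is limit periodic -/
theorem Vinf_lp (h : Hyp m τ J) (ε : ℝ) (hε : 0 < ε) : ∃ P : ℤ → ℝ,
    (∃ p : ℤ, 0 < p ∧ ∀ n : ℤ, P (n + p) = P n) ∧ ∀ n : ℤ, |Vinf m τ n - P n| < ε := by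
  obtain ⟨k, hk⟩ := exists_pow_lt_of_lt_one (show 0 < ε / 20 by positivity)
    (show (1 / 2 : ℝ) < 1 by norm_num)
  refine ⟨Vk m τ k, ⟨NN m k, by exact_mod_cast NN_pos m k, Vk_periodic m τ k⟩, fun n => ?_⟩
  have := Vinf_near h k n
  linarith

lemma xx_dvd (m : ℕ → ℕ) {j k : ℕ} (hjk : j ≤ k) : ∃ c : ℕ, xx m k = xx m j + c * NN m j := by
  induction k, hjk using Nat.le_induction with
  | base => exact ⟨0, by simp⟩
  | succ k hk ih =>
    obtain ⟨c, hc⟩ := ih
    obtain ⟨d, hd⟩ := NN_dvd m hk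
    refine ⟨c + 2 * d, ?_⟩
    simp only [xx]
    rw [hc, hd]
    ring

/-- `Wg` is in the hull -/
theorem Wg_hull (h : Hyp m τ J) (ε : ℝ) (hε : 0 < ε) :
    ∃ k : ℤ, ∀ n : ℤ, |Wg m τ n - Vinf m τ (n + k)| < ε := by
  obtain ⟨k, hk⟩ := exists_pow_lt_of_lt_one (show 0 < ε / 40 by positivity)
    (show (1 / 2 : ℝ) < 1 by norm_num)
  refine ⟨xx m k, fun n => ?_⟩
  have h1 := tail_le h (fun j => ind m j (n + xx m (j + 1))) (fun j => ind_nonneg m j _)
    (fun j => ind_le_one m j _) k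
  have h2 := tail_le h (fun j => ind m j (n + xx m k)) (fun j => ind_nonneg m j _)
    (fun j => ind_le_one m j _) k
  have h3 : ∑ j ∈ Finset.range k, τ j * ind m j (n + xx m (j + 1)) =
      ∑ j ∈ Finset.range k, τ j * ind m j (n + xx m k) := by
    apply Finset.sum_congr rfl
    intro j hj
    obtain ⟨c, hc⟩ := xx_dvd m (j := j + 1) (k := k) (by
      have := Finset.mem_range.mp hj; omega)
    rw [hc]
    rw [show n + ((xx m (j + 1) + c * NN m (j + 1) : ℕ) : ℤ) =
      n + xx m (j + 1) + (c : ℤ) * NN m (j + 1) by push_cast; ring, ind_add]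
  rw [h3] at h1
  unfold Wg Vinf
  rw [neg_sub_neg]
  rw [abs_le] at h1 h2
  rw [abs_lt]
  constructor <;> linarith [h1.1, h1.2, h2.1, h2.2]

lemma xx_le (hm : ∀ k, 3 ≤ m k) (k : ℕ) : xx m k ≤ NN m k := by
  induction k with
  | zero => simp [xx]
  | succ k ih =>
    simp only [xx]
    rw [NN_succ]
    have := hm k
    nlinarith

lemma ind_shift (hm : ∀ k, 3 ≤ m k) {j k : ℕ} (hjk : k ≤ j) (n : ℤ) (h1 : -(NN m k : ℤ) ≤ n)
    (h2 : n < 2 * NN m k) : ind m j (n + xx m (j + 1)) = 1 := by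
  have hx := xx_le hm j
  have hN := NN_le m hjk
  have hx1 : xx m (j + 1) = xx m j + 2 * NN m j := rfl
  have hN0 : NN m j = 2 * hh m j + 1 := rfl
  have hN1 : 7 * NN m j ≤ NN m (j + 1) := by
    rw [NN_succ]
    have := hm j
    nlinarith
  apply ind_eq_one m j _ 0 <;> omega

lemma Wg_periodic (hm : ∀ k, 3 ≤ m k) (k : ℕ) (n : ℤ) (h1 : -(NN m k : ℤ) ≤ n)
    (h2 : n < NN m k) : Wg m τ (n + NN m k) = Wg m τ n := by
  unfold Wg
  congr 1
  apply tsum_congr
  intro j
  congr 1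
  by_cases hjk : j < k
  · rw [show n + (NN m k : ℤ) + xx m (j + 1) = n + xx m (j + 1) + NN m k by ring,
      ind_add_dvd m j k hjk]
  · rw [ind_shift hm (not_lt.mp hjk) _ (by omega) (by omega),
      ind_shift hm (not_lt.mp hjk) _ (by omega) (by omega)]

end

lemma transfer (W : ℤ → ℝ) (E : ℝ) (N : ℕ) : ∃ a b c d : ℝ, a * d - b * c = 1 ∧
    ∀ (u : ℤ → ℝ) (s : ℤ), (∀ i : ℤ, 0 ≤ i → i < N →
      u (s + i + 1) + u (s + i - 1) + (W i - E) * u (s + i) = 0) →
      u (s + N) = a * u s + b * u (s - 1) ∧ u (s + N - 1) = c * u s + d * u (s - 1) := by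
  induction N with
  | zero => exact ⟨1, 0, 0, 1, by norm_num, fun u s _ => by simp⟩
  | succ N ih =>
    obtain ⟨a, b, c, d, hdet, hu⟩ := ih
    refine ⟨(E - W N) * a - c, (E - W N) * b - d, a, b, by nlinarith, ?_⟩
    intro u s hs
    obtain ⟨h1, h2⟩ := hu u s (fun i hi0 hi => hs i hi0 (by push_cast; omega))
    have h3 := hs N (by omega) (by push_cast; omega)
    rw [h1, h2] at h3
    constructor
    · rw [show s + ((N + 1 : ℕ) : ℤ) = s + N + 1 by push_cast; ring]
      linarith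
    · rw [show s + ((N + 1 : ℕ) : ℤ) - 1 = s + N by push_cast; ring]
      exact h1

/-- Gordon's three block estimate -/
lemma gordon_block (W : ℤ → ℝ) (E : ℝ) (N : ℕ) (hW : ∀ n : ℤ, -(N : ℤ) ≤ n → n < N → W (n + N) = W n)
    (u : ℤ → ℝ) (hu : ∀ n, HE W E u n = 0) :
    |u 0| ≤ |u N| + |u (N + N)| + |u (-(N : ℤ))| ∧
    |u (-1)| ≤ |u (N - 1)| + |u (N + N - 1)| + |u (-(N : ℤ) - 1)| := by
  obtain ⟨a, b, c, d, hdet, ht⟩ := transfer W E N
  have h0 := ht u 0 (fun i hi0 hi => by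
    have := hu i
    simp only [HE] at this
    simpa using this)
  have h1 := ht u N (fun i hi0 hi => by
    have := hu (N + i)
    simp only [HE] at this
    rw [← hW i (by omega) hi, add_comm i (N : ℤ)]
    exact this)
  have h2 := ht u (-(N : ℤ)) (fun i hi0 hi => by
    have h3 := hu (-(N : ℤ) + i)
    simp only [HE] at h3
    have h4 := hW (-(N : ℤ) + i) (by omega) (by omega)
    rw [show -(N : ℤ) + i + N = i by ring] at h4
    rw [h4]
    exact h3)
  simp only [zero_add, zero_sub, neg_add_cancel] at h0 h1 h2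
  obtain ⟨h01, h02⟩ := h0
  obtain ⟨h11, h12⟩ := h1
  obtain ⟨h21, h22⟩ := h2
  set t := a + d with ht
  -- Cayley-Hamilton
  have c1 : u (N + N) = t * u N - u 0 := by
    rw [h11, h01, h02]
    linear_combination (u 0) * (-hdet)
  have c2 : u (N + N - 1) = t * u (N - 1) - u (-1) := by
    rw [h12, h01, h02]
    linear_combination (u (-1)) * (-hdet)
  have c3 : u N = t * u 0 - u (-(N : ℤ)) := by
    rw [h01, h22, h21]
    linear_combination (u (-(N : ℤ))) * (-hdet)
  have c4 : u (N - 1) = t * u (-1) - u (-(N : ℤ) - 1) := by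
    rw [h02, h22, h21]
    linear_combination (u (-(N : ℤ) - 1)) * (-hdet)
  have gen : ∀ x y z w : ℝ, y = t * x - w → z = t * y - x → |x| ≤ |y| + |z| + |w| := by
    intro x y z w e1 e2
    by_cases hc : |t| ≤ 1
    · have : x = t * y - z := by linarith
      rw [this]
      have h3 := abs_sub (t * y) z
      rw [abs_mul] at h3
      have h4 : |t| * |y| ≤ 1 * |y| := mul_le_mul_of_nonneg_right hc (abs_nonneg _)
      have h5 := abs_nonneg w
      linarith
    · push Not at hc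
      have h3 : |t| * |x| = |y + w| := by rw [← abs_mul]; congr 1; linarith
      have h4 := abs_add_le y w
      have h5 := abs_nonneg x
      have h6 := abs_nonneg z
      nlinarith
  exact ⟨gen _ _ _ _ c3 c1, gen _ _ _ _ c4 c2⟩

/-- a potential with Gordon periods has no decaying solutions -/
theorem gordon (W : ℤ → ℝ) (E : ℝ) (N : ℕ → ℕ) (hN : ∀ k, k ≤ N k)
    (hW : ∀ (k : ℕ) (n : ℤ), -(N k : ℤ) ≤ n → n < N k → W (n + N k) = W n)
    (u : ℤ → ℝ) (hu : ∀ n, HE W E u n = 0) (h0 : Tendsto u cofinite (𝓝 0)) : ∀ n, u n = 0 := by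
  have hNt : Tendsto (fun k => (N k : ℤ)) atTop atTop := by
    apply tendsto_atTop_mono (f := fun k : ℕ => (k : ℤ))
    · intro k; exact_mod_cast hN k
    · exact tendsto_natCast_atTop_atTop
  rw [Int.cofinite_eq] at h0
  have hT : Tendsto u atTop (𝓝 0) := h0.mono_left le_sup_right
  have hB : Tendsto u atBot (𝓝 0) := h0.mono_left le_sup_left
  have habs : ∀ f : ℕ → ℤ, Tendsto f atTop atTop ∨ Tendsto f atTop atBot →
      Tendsto (fun k => |u (f k)|) atTop (𝓝 0) := by
    intro f hf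
    have : Tendsto (fun k => u (f k)) atTop (𝓝 0) := by
      rcases hf with hf | hf
      · exact hT.comp hf
      · exact hB.comp hf
    simpa using this.abs
  have a1 : Tendsto (fun k => (N k : ℤ) + N k) atTop atTop := hNt.atTop_add_atTop hNt
  have a2 : Tendsto (fun k => -(N k : ℤ)) atTop atBot := tendsto_neg_atTop_atBot.comp hNt
  have b0 : Tendsto (fun k => (N k : ℤ) - 1) atTop atTop := by
    simpa only [sub_eq_add_neg] using tendsto_atTop_add_const_right _ (-1) hNt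
  have b1 : Tendsto (fun k => (N k : ℤ) + N k - 1) atTop atTop := by
    simpa only [sub_eq_add_neg] using tendsto_atTop_add_const_right _ (-1) a1
  have b2 : Tendsto (fun k => -(N k : ℤ) - 1) atTop atBot := by
    simpa only [sub_eq_add_neg] using tendsto_atBot_add_const_right _ (-1) a2
  have l0 : u 0 = 0 := by
    have h1 := ((habs _ (Or.inl hNt)).add (habs _ (Or.inl a1))).add (habs _ (Or.inr a2))
    simp only [add_zero] at h1
    have h2 := ge_of_tendsto' h1 (fun k => (gordon_block W E (N k) (hW k) u hu).1)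
    exact abs_eq_zero.mp (le_antisymm h2 (abs_nonneg _))
  have l1 : u (-1) = 0 := by
    have h1 := ((habs _ (Or.inl b0)).add (habs _ (Or.inl b1))).add (habs _ (Or.inr b2))
    simp only [add_zero] at h1
    have h2 := ge_of_tendsto' h1 (fun k => (gordon_block W E (N k) (hW k) u hu).2)
    exact abs_eq_zero.mp (le_antisymm h2 (abs_nonneg _))
  have key : ∀ n : ℤ, u n = 0 ∧ u (n - 1) = 0 := by
    intro n
    induction n using Int.induction_on with
    | zero => exact ⟨l0, by simpa using l1⟩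
    | succ i ih =>
      have h1 := hu i
      simp only [HE] at h1
      rw [ih.1, ih.2] at h1
      refine ⟨by linarith, ?_⟩
      rw [add_sub_cancel_right]
      exact ih.1
    | pred i ih =>
      have h1 := hu (-(i : ℤ) - 1)
      simp only [HE] at h1
      rw [show -(i : ℤ) - 1 + 1 = -(i : ℤ) by ring, ih.1, ih.2] at h1
      exact ⟨ih.2, by linarith⟩
  exact fun n => (key n).1

end Pool.Agent.H508R3
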