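import Pool.Agent.H508R3.Top

set_option autoImplicit false

namespace Pool.Agent.H508R3

open Filter Topology

/-- half lengths of the cells -/
def hh (m : ℕ → ℕ) : ℕ → ℕ
  | 0 => 0
  | (k + 1) => m k * (2 * hh m k + 1) + hh m k

/-- lengths of the cells -/
def NN (m : ℕ → ℕ) (k : ℕ) : ℕ := 2 * hh m k + 1

/-- `0` on the central cells of level `j`, `1` elsewhere -/
noncomputable def ind (m : ℕ → ℕ) (j : ℕ) (n : ℤ) : ℝ :=
  if (n + hh m j) % (NN m (j + 1) : ℤ) < NN m j then 0 else 1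

/-- the periodic approximants -/
noncomputable def Vk (m : ℕ → ℕ) (τ : ℕ → ℝ) (k : ℕ) (n : ℤ) : ℝ :=
  -∑ j ∈ Finset.range k, τ j * ind m j n

/-- the limit potential -/
noncomputable def Vinf (m : ℕ → ℕ) (τ : ℕ → ℝ) (n : ℤ) : ℝ := -∑' j, τ j * ind m j n

lemma NN_pos (m : ℕ → ℕ) (k : ℕ) : 0 < NN m k := by unfold NN; omega

lemma NN_succ (m : ℕ → ℕ) (k : ℕ) : NN m (k + 1) = (2 * m k + 1) * NN m k := by
  simp only [NN, hh]; ring

lemma NN_dvd_succ (m : ℕ → ℕ) (k : ℕ) : NN m k ∣ NN m (k + 1) := by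
  rw [NN_succ]; exact Dvd.intro_left _ rfl

lemma NN_dvd (m : ℕ → ℕ) {j k : ℕ} (h : j ≤ k) : NN m j ∣ NN m k := by
  induction k, h using Nat.le_induction with
  | base => exact dvd_rfl
  | succ k _ ih => exact ih.trans (NN_dvd_succ m k)

lemma NN_le (m : ℕ → ℕ) {j k : ℕ} (h : j ≤ k) : NN m j ≤ NN m k :=
  Nat.le_of_dvd (NN_pos m k) (NN_dvd m h)

lemma hh_le (m : ℕ → ℕ) {j k : ℕ} (h : j ≤ k) : hh m j ≤ hh m k := by
  have := NN_le m h
  unfold NN at this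
  omega

lemma ind_nonneg (m : ℕ → ℕ) (j : ℕ) (n : ℤ) : 0 ≤ ind m j n := by
  unfold ind; split_ifs <;> norm_num

lemma ind_le_one (m : ℕ → ℕ) (j : ℕ) (n : ℤ) : ind m j n ≤ 1 := by
  unfold ind; split_ifs <;> norm_num

lemma ind_add (m : ℕ → ℕ) (j : ℕ) (n i : ℤ) : ind m j (n + i * NN m (j + 1)) = ind m j n := by
  unfold ind
  rw [show n + i * (NN m (j + 1) : ℤ) + hh m j = n + hh m j + i * NN m (j + 1) by ring,
    Int.add_mul_emod_self_right]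

lemma ind_add_dvd (m : ℕ → ℕ) (j k : ℕ) (h : j < k) (n : ℤ) :
    ind m j (n + NN m k) = ind m j n := by
  obtain ⟨c, hc⟩ := NN_dvd m (j := j + 1) (k := k) h
  rw [hc]
  rw [show n + ((NN m (j + 1) * c : ℕ) : ℤ) = n + (c : ℤ) * NN m (j + 1) by push_cast; ring]
  exact ind_add m j n c

lemma ind_eq_one (m : ℕ → ℕ) (j : ℕ) (n i : ℤ) (h1 : (NN m j : ℤ) ≤ n + hh m j - i * NN m (j + 1))
    (h2 : n + hh m j - i * NN m (j + 1) < NN m (j + 1)) : ind m j n = 1 := by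
  unfold ind
  rw [if_neg]
  have h3 : (n + hh m j) % (NN m (j + 1) : ℤ) = n + hh m j - i * NN m (j + 1) := by
    rw [show n + (hh m j : ℤ) = (n + hh m j - i * NN m (j + 1)) + i * NN m (j + 1) by ring,
      Int.add_mul_emod_self_right, Int.emod_eq_of_lt (by omega) h2]
    ring
  rw [h3]
  omega

lemma ind_eq_zero (m : ℕ → ℕ) (j : ℕ) (n : ℤ) (h1 : -(hh m j : ℤ) ≤ n) (h2 : n ≤ hh m j) :
    ind m j n = 0 := by
  unfold ind
  rw [if_pos]
  have h3 : NN m j ≤ NN m (j + 1) := NN_le m (Nat.le_succ j)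
  rw [Int.emod_eq_of_lt (by omega) (by unfold NN at *; omega)]
  unfold NN
  omega

lemma Vk_succ (m : ℕ → ℕ) (τ : ℕ → ℝ) (k : ℕ) (n : ℤ) :
    Vk m τ (k + 1) n = Vk m τ k n - τ k * ind m k n := by
  unfold Vk
  rw [Finset.sum_range_succ]
  ring

lemma Vk_periodic (m : ℕ → ℕ) (τ : ℕ → ℝ) (k : ℕ) (n : ℤ) :
    Vk m τ k (n + NN m k) = Vk m τ k n := by
  unfold Vk
  congr 1
  apply Finset.sum_congr rfl
  intro j hj
  rw [ind_add_dvd m j k (Finset.mem_range.mp hj)]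

lemma Vk_anti (m : ℕ → ℕ) (τ : ℕ → ℝ) (hτ : ∀ k, 0 < τ k) {j k : ℕ} (h : j ≤ k) (n : ℤ) :
    Vk m τ k n ≤ Vk m τ j n := by
  induction k, h using Nat.le_induction with
  | base => exact le_rfl
  | succ k _ ih =>
    rw [Vk_succ]
    have := mul_nonneg (hτ k).le (ind_nonneg m k n)
    linarith

lemma Vk_le (m : ℕ → ℕ) (τ : ℕ → ℝ) (hτ : ∀ k, 0 < τ k) {j k : ℕ} (h : j < k) (n : ℤ)
    (hn : ind m j n = 1) : Vk m τ k n ≤ Vk m τ j n - τ j := by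
  have h1 := Vk_anti m τ hτ (j := j + 1) (k := k) h n
  rw [Vk_succ, hn, mul_one] at h1
  exact h1

lemma Vk_eq (m : ℕ → ℕ) (τ : ℕ → ℝ) (k : ℕ) (n : ℤ) (h1 : -(hh m k : ℤ) ≤ n)
    (h2 : n ≤ hh m k) : Vk m τ (k + 1) n = Vk m τ k n := by
  rw [Vk_succ, ind_eq_zero m k n h1 h2]
  ring

/-- the normalised positive periodic solutions -/
lemma exists_ground (m : ℕ → ℕ) (τ : ℕ → ℝ) (k : ℕ) : ∃ (E : ℝ) (φ : ℤ → ℝ),
    (∀ n : ℤ, φ (n + NN m k) = φ n) ∧ (∀ n, 0 < φ n) ∧ (∀ n, HE (Vk m τ k) E φ n = 0) ∧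
    ∑ n ∈ Finset.Ico 0 (NN m k : ℤ), φ n ^ 2 = 1 := by
  obtain ⟨E, φ, h1, h2, h3⟩ := ring_top (Vk m τ k) (NN m k) (NN_pos m k) (Vk_periodic m τ k)
  set S := ∑ n ∈ Finset.Ico 0 (NN m k : ℤ), φ n ^ 2 with hS
  have hSpos : 0 < S := by
    apply Finset.sum_pos
    · intro n _; exact pow_pos (h2 n) 2
    · exact ⟨0, by simp only [Finset.mem_Ico]; have := NN_pos m k; omega⟩
  refine ⟨E, fun n => φ n / Real.sqrt S, ?_, ?_, ?_, ?_⟩
  · intro n; simp only [h1]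
  · intro n; exact div_pos (h2 n) (Real.sqrt_pos.mpr hSpos)
  · intro n
    have := h3 n
    simp only [HE] at this ⊢
    have hs := Real.sqrt_pos.mpr hSpos
    field_simp
    linarith
  · simp only [div_pow, Real.sq_sqrt hSpos.le]
    rw [← Finset.sum_div, ← hS, div_self hSpos.ne']

end Pool.Agent.H508R3
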