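import Mathlib

set_option autoImplicit false

namespace Pool.Agent.H508R3

/-- the discrete Schroedinger difference expression minus the energy -/
def HE (V : ℤ → ℝ) (E : ℝ) (u : ℤ → ℝ) (n : ℤ) : ℝ := u (n + 1) + u (n - 1) + (V n - E) * u n

lemma exists_eigen_near {X : Type*} [NormedAddCommGroup X] [InnerProductSpace ℝ X]
    [FiniteDimensional ℝ X] (T : X →ₗ[ℝ] X) (hT : T.IsSymmetric) (E δ : ℝ) (x : X) (hx : x ≠ 0)
    (h : ‖T x - E • x‖ ≤ δ * ‖x‖) : ∃ (e : ℝ) (y : X), |e - E| ≤ δ ∧ y ≠ 0 ∧ T y = e • y := by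
  set b := hT.eigenvectorBasis rfl with hb
  by_contra hcon
  push Not at hcon
  have hxpos : 0 < ‖x‖ := norm_pos_iff.mpr hx
  have hδ : 0 ≤ δ := by
    by_contra hneg
    have : δ * ‖x‖ < 0 := mul_neg_of_neg_of_pos (not_le.mp hneg) hxpos
    linarith [norm_nonneg (T x - E • x)]
  have key : ∀ i, δ < |hT.eigenvalues rfl i - E| := by
    intro i
    by_contra hle
    refine hcon (hT.eigenvalues rfl i) (b i) (not_lt.mp hle) ?_ ?_
    · exact b.orthonormal.ne_zero i
    · exact hT.apply_eigenvectorBasis rfl i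
  have hinner : ∀ i, inner ℝ (b i) (T x - E • x) = (hT.eigenvalues rfl i - E) * inner ℝ (b i) x := by
    intro i
    rw [inner_sub_right, ← hT (b i) x]
    have h1 : T (b i) = hT.eigenvalues rfl i • b i := hT.apply_eigenvectorBasis rfl i
    rw [h1, inner_smul_left, inner_smul_right]
    simp
    ring
  have hs1 := b.sum_sq_norm_inner_right (T x - E • x)
  have hs2 := b.sum_sq_norm_inner_right x
  have hlt : δ ^ 2 * ‖x‖ ^ 2 < ‖T x - E • x‖ ^ 2 := by
    rw [← hs1, ← hs2, Finset.mul_sum]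
    have hle : ∀ i ∈ Finset.univ, δ ^ 2 * ‖inner ℝ (b i) x‖ ^ 2 ≤ ‖inner ℝ (b i) (T x - E • x)‖ ^ 2 := by
      intro i _
      rw [hinner, norm_mul, mul_pow, Real.norm_eq_abs (_ - _)]
      apply mul_le_mul_of_nonneg_right _ (by positivity)
      exact pow_le_pow_left₀ hδ (key i).le 2
    apply Finset.sum_lt_sum hle
    by_contra hall
    push Not at hall
    have h0 : ∀ i, ‖inner ℝ (b i) x‖ ^ 2 = 0 := by
      intro i
      by_contra hne
      have hpos : 0 < ‖inner ℝ (b i) x‖ ^ 2 := lt_of_le_of_ne (by positivity) (Ne.symm hne)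
      have h1 := hall i (Finset.mem_univ i)
      rw [hinner, norm_mul, mul_pow, Real.norm_eq_abs (_ - _)] at h1
      have h2 : δ ^ 2 < |hT.eigenvalues rfl i - E| ^ 2 := pow_lt_pow_left₀ (key i) hδ (by norm_num)
      nlinarith
    have : ‖x‖ ^ 2 = 0 := by rw [← hs2]; exact Finset.sum_eq_zero fun i _ => h0 i
    nlinarith
  have h2 : ‖T x - E • x‖ ^ 2 ≤ (δ * ‖x‖) ^ 2 := pow_le_pow_left₀ (norm_nonneg _) h 2
  nlinarith

/-- sums of a periodic function over a period -/
lemma sum_period (g : ℤ → ℝ) (N : ℕ) (hg : ∀ n : ℤ, g (n + N) = g n) (c : ℤ) :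
    ∑ n ∈ Finset.Ico c (c + N), g n = ∑ n ∈ Finset.Ico 0 (N : ℤ), g n := by
  have step : ∀ c : ℤ, ∑ n ∈ Finset.Ico (c + 1) (c + 1 + N), g n = ∑ n ∈ Finset.Ico c (c + N), g n := by
    intro c
    rcases Nat.eq_zero_or_pos N with h0 | hpos
    · subst h0; simp
    have h1 : ∑ n ∈ Finset.Ico c (c + N + 1), g n = g c + ∑ n ∈ Finset.Ico (c + 1) (c + N + 1), g n := by
      rw [← Finset.sum_insert (s := Finset.Ico (c + 1) (c + N + 1)) (a := c) (by simp)]
      apply Finset.sum_congr _ (fun _ _ => rfl)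
      ext n
      simp only [Finset.mem_Ico, Finset.mem_insert]
      omega
    have h2 : ∑ n ∈ Finset.Ico c (c + N + 1), g n = g (c + N) + ∑ n ∈ Finset.Ico c (c + N), g n := by
      rw [← Finset.sum_insert (s := Finset.Ico c (c + N)) (a := c + N) (by simp)]
      apply Finset.sum_congr _ (fun _ _ => rfl)
      ext n
      simp only [Finset.mem_Ico, Finset.mem_insert]
      omega
    have h3 : c + 1 + (N : ℤ) = c + N + 1 := by ring
    rw [h3]
    have h4 := hg c
    linarith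
  induction c using Int.induction_on with
  | zero => simp
  | succ i ih => rw [step, ih]
  | pred i ih =>
    have := step (-(i : ℤ) - 1)
    rw [show -(i : ℤ) - 1 + 1 = -(i : ℤ) by ring] at this
    rw [← this, ih]

lemma sum_zmod (g : ℤ → ℝ) (N : ℕ) [NeZero N] (hg : ∀ n : ℤ, g (n + N) = g n) (c : ℤ) :
    ∑ x : ZMod N, g (x.val : ℤ) = ∑ n ∈ Finset.Ico c (c + N), g n := by
  rw [sum_period g N hg c]
  apply Finset.sum_nbij' (fun x : ZMod N => (x.val : ℤ)) (fun n : ℤ => (n : ZMod N))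
  · intro x _
    simp only [Finset.mem_Ico]
    have := ZMod.val_lt x
    omega
  · intro n _
    exact Finset.mem_univ _
  · intro x _
    simp
  · intro n hn
    simp only [Finset.mem_Ico] at hn
    rw [ZMod.val_intCast]
    exact Int.emod_eq_of_lt hn.1 hn.2
  · intro x _
    rfl

lemma periodic_mul (g : ℤ → ℝ) (N : ℕ) (hg : ∀ n : ℤ, g (n + N) = g n) (n : ℤ) (k : ℤ) :
    g (n + k * N) = g n := by
  induction k using Int.induction_on with
  | zero => simp
  | succ i ih => rw [show n + ((i : ℤ) + 1) * N = (n + i * N) + N by ring, hg, ih]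
  | pred i ih =>
    rw [← ih, ← hg (n + (-(i : ℤ) - 1) * N)]
    congr 1
    ring

lemma periodic_emod (g : ℤ → ℝ) (N : ℕ) (hg : ∀ n : ℤ, g (n + N) = g n) (n : ℤ) :
    g (n % N) = g n := by
  rw [← periodic_mul g N hg (n % N) (n / N)]
  congr 1
  have := Int.emod_add_mul_ediv n N
  linarith [this]

lemma periodic_val (g : ℤ → ℝ) (N : ℕ) [NeZero N] (hg : ∀ n : ℤ, g (n + N) = g n) (n : ℤ) :
    g (((n : ZMod N).val : ℤ)) = g n := by
  rw [ZMod.val_intCast, periodic_emod g N hg]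

/-- the operator on the ring -/
noncomputable def TR (V : ℤ → ℝ) (N : ℕ) [NeZero N] :
    EuclideanSpace ℝ (ZMod N) →ₗ[ℝ] EuclideanSpace ℝ (ZMod N) where
  toFun φ := WithLp.toLp 2 (fun x => φ (x + 1) + φ (x - 1) + V (x.val : ℤ) * φ x)
  map_add' φ χ := by
    ext x
    simp
    ring
  map_smul' c φ := by
    ext x
    simp
    ring

lemma TR_apply (V : ℤ → ℝ) (N : ℕ) [NeZero N] (φ : EuclideanSpace ℝ (ZMod N)) (x : ZMod N) :
    TR V N φ x = φ (x + 1) + φ (x - 1) + V (x.val : ℤ) * φ x := rfl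

lemma TR_symm (V : ℤ → ℝ) (N : ℕ) [NeZero N] : (TR V N).IsSymmetric := by
  intro φ χ
  simp only [PiLp.inner_apply, TR_apply, RCLike.inner_apply, conj_trivial]
  have h1 : ∑ x : ZMod N, χ x * φ (x + 1) = ∑ x : ZMod N, χ (x - 1) * φ x := by
    rw [← Equiv.sum_comp (Equiv.addRight (1 : ZMod N)) fun x => χ (x - 1) * φ x]
    apply Finset.sum_congr rfl
    intro x _
    simp
  have h2 : ∑ x : ZMod N, χ (x + 1) * φ x = ∑ x : ZMod N, χ x * φ (x - 1) := by
    rw [← Equiv.sum_comp (Equiv.addRight (1 : ZMod N)) fun x => χ x * φ (x - 1)]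
    apply Finset.sum_congr rfl
    intro x _
    simp
  calc ∑ x : ZMod N, χ x * (φ (x + 1) + φ (x - 1) + V (x.val : ℤ) * φ x)
      = ∑ x : ZMod N, χ x * φ (x + 1) + ∑ x : ZMod N, χ x * φ (x - 1)
        + ∑ x : ZMod N, χ x * (V (x.val : ℤ) * φ x) := by
        rw [← Finset.sum_add_distrib, ← Finset.sum_add_distrib]
        apply Finset.sum_congr rfl
        intro x _
        ring
    _ = ∑ x : ZMod N, (χ (x + 1) + χ (x - 1) + V (x.val : ℤ) * χ x) * φ x := by
        rw [h1, ← h2, ← Finset.sum_add_distrib, ← Finset.sum_add_distrib]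
        apply Finset.sum_congr rfl
        intro x _
        ring

theorem ring_eigen (V : ℤ → ℝ) (N : ℕ) (hN : 0 < N) (hV : ∀ n : ℤ, V (n + N) = V n) (E δ : ℝ)
    (hδ : 0 ≤ δ) (ψ : ℤ → ℝ) (a b : ℤ) (hsupp : ∀ n, n < a ∨ b < n → ψ n = 0)
    (hlen : b - a + 3 ≤ N) (hpos : 0 < ∑ n ∈ Finset.Icc a b, ψ n ^ 2)
    (hres : ∑ n ∈ Finset.Icc (a - 1) (b + 1), (HE V E ψ n) ^ 2 ≤
      δ ^ 2 * ∑ n ∈ Finset.Icc a b, ψ n ^ 2) :
    ∃ (e : ℝ) (φ : ℤ → ℝ), |e - E| ≤ δ ∧ (∀ n, φ (n + N) = φ n) ∧ (∃ n, φ n ≠ 0) ∧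
      ∀ n, HE V e φ n = 0 := by
  have : NeZero N := ⟨hN.ne'⟩
  have hNz : (0 : ℤ) < N := by exact_mod_cast hN
  set ψp : ℤ → ℝ := fun n => ψ ((n - (a - 1)) % N + (a - 1)) with hψp
  have hper : ∀ n : ℤ, ψp (n + N) = ψp n := by
    intro n
    simp only [hψp]
    congr 2
    rw [show n + (N : ℤ) - (a - 1) = n - (a - 1) + N by ring, Int.add_emod_right]
  have hin : ∀ n, a - 1 ≤ n → n ≤ a + N - 2 → ψp n = ψ n := by
    intro n h1 h2
    simp only [hψp]
    rw [Int.emod_eq_of_lt (by omega) (by omega)]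
    congr 1
    ring
  have hleft : ψp (a - 2) = ψ (a - 2) := by
    have h1 : ψp (a - 2) = ψp (a + N - 2) := by
      rw [← hper (a - 2)]; congr 1; ring
    rw [h1, hin _ (by omega) (by omega), hsupp _ (Or.inr (by omega)), hsupp _ (Or.inl (by omega))]
  have hright : ψp (a + N - 1) = ψ (a + N - 1) := by
    have h1 : ψp (a + N - 1) = ψp (a - 1) := by
      rw [← hper (a - 1)]; congr 1; ring
    rw [h1, hin _ (by omega) (by omega), hsupp (a - 1) (Or.inl (by omega)),
      hsupp _ (Or.inr (by omega))]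
  have hall : ∀ n, a - 2 ≤ n → n ≤ a + N - 1 → ψp n = ψ n := by
    intro n h1 h2
    by_cases h3 : n = a - 2
    · rw [h3, hleft]
    by_cases h4 : n = a + N - 1
    · rw [h4, hright]
    exact hin n (by omega) (by omega)
  set x : EuclideanSpace ℝ (ZMod N) := WithLp.toLp 2 (fun y => ψp (y.val : ℤ)) with hx
  have hxa : ∀ y, x y = ψp (y.val : ℤ) := fun y => rfl
  have hxn : ∀ n : ℤ, x (n : ZMod N) = ψp n := fun n => by
    rw [hxa, periodic_val ψp N hper]
  -- the residual function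
  have hresid : ∀ n : ℤ, (TR V N x - E • x) (n : ZMod N) = HE V E ψp n := by
    intro n
    have h1 : ((n : ZMod N) + 1) = ((n + 1 : ℤ) : ZMod N) := by push_cast; ring
    have h2 : ((n : ZMod N) - 1) = ((n - 1 : ℤ) : ZMod N) := by push_cast; ring
    rw [PiLp.sub_apply, PiLp.smul_apply, TR_apply, h1, h2, hxn, hxn, hxn, periodic_val V N hV, HE,
      smul_eq_mul]
    ring
  have hperHE : ∀ n : ℤ, HE V E ψp (n + N) = HE V E ψp n := by
    intro n
    simp only [HE]
    rw [hV, hper, show n + (N : ℤ) + 1 = (n + 1) + N by ring,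
      show n + (N : ℤ) - 1 = (n - 1) + N by ring, hper, hper]
  have hnorm1 : ‖x‖ ^ 2 = ∑ n ∈ Finset.Icc a b, ψ n ^ 2 := by
    rw [EuclideanSpace.norm_sq_eq]
    have : ∀ y : ZMod N, ‖x y‖ ^ 2 = (fun n : ℤ => ψp n ^ 2) (y.val : ℤ) := by
      intro y
      simp only [hxa, Real.norm_eq_abs, sq_abs]
    rw [Finset.sum_congr rfl fun y _ => this y,
      sum_zmod (fun n : ℤ => ψp n ^ 2) N (fun n => by simp only [hper]) (a - 1)]
    rw [Finset.sum_congr rfl (g := fun n => ψ n ^ 2)]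
    · symm
      apply Finset.sum_subset
      · intro n hn
        simp only [Finset.mem_Icc, Finset.mem_Ico] at hn ⊢
        omega
      · intro n hn hn'
        simp only [Finset.mem_Icc, Finset.mem_Ico] at hn hn'
        rw [hsupp n (by omega)]
        ring
    · intro n hn
      simp only [Finset.mem_Ico] at hn
      rw [hall n (by omega) (by omega)]
  have hnorm2 : ‖TR V N x - E • x‖ ^ 2 = ∑ n ∈ Finset.Icc (a - 1) (b + 1), (HE V E ψ n) ^ 2 := by
    rw [EuclideanSpace.norm_sq_eq]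
    have : ∀ y : ZMod N, ‖(TR V N x - E • x) y‖ ^ 2 = (fun n : ℤ => (HE V E ψp n) ^ 2) (y.val : ℤ) := by
      intro y
      have hy : y = (((y.val : ℤ)) : ZMod N) := by simp
      rw [Real.norm_eq_abs, sq_abs]
      conv_lhs => rw [hy, hresid]
    rw [Finset.sum_congr rfl fun y _ => this y,
      sum_zmod (fun n : ℤ => (HE V E ψp n) ^ 2) N (fun n => by simp only [hperHE]) (a - 1)]
    rw [Finset.sum_congr rfl (g := fun n => (HE V E ψ n) ^ 2)]
    · symm
      apply Finset.sum_subset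
      · intro n hn
        simp only [Finset.mem_Icc, Finset.mem_Ico] at hn ⊢
        omega
      · intro n hn hn'
        simp only [Finset.mem_Icc, Finset.mem_Ico] at hn hn'
        simp only [HE]
        rw [hsupp n (by omega), hsupp (n + 1) (by omega), hsupp (n - 1) (by omega)]
        ring
    · intro n hn
      simp only [Finset.mem_Ico] at hn
      simp only [HE]
      rw [hall n (by omega) (by omega), hall (n + 1) (by omega) (by omega),
        hall (n - 1) (by omega) (by omega)]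
  have hx0 : x ≠ 0 := by
    intro h0
    rw [h0] at hnorm1
    simp only [norm_zero] at hnorm1
    rw [← hnorm1] at hpos
    norm_num at hpos
  have hle : ‖TR V N x - E • x‖ ≤ δ * ‖x‖ := by
    apply le_of_sq_le_sq _ (by positivity)
    rw [mul_pow, hnorm1, hnorm2]
    exact hres
  obtain ⟨e, y, he, hy0, hy⟩ := exists_eigen_near (TR V N) (TR_symm V N) E δ x hx0 hle
  refine ⟨e, fun n => y (n : ZMod N), he, ?_, ?_, ?_⟩
  · intro n
    simp
  · by_contra hcon
    push Not at hcon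
    apply hy0
    ext z
    have := hcon (z.val : ℤ)
    simpa using this
  · intro n
    have h1 : ((n : ZMod N) + 1) = ((n + 1 : ℤ) : ZMod N) := by push_cast; ring
    have h2 : ((n : ZMod N) - 1) = ((n - 1 : ℤ) : ZMod N) := by push_cast; ring
    have h3 : (TR V N y) (n : ZMod N) = (e • y) (n : ZMod N) := by rw [hy]
    rw [TR_apply, h1, h2, periodic_val V N hV, PiLp.smul_apply, smul_eq_mul] at h3
    simp only [HE]
    linarith

end Pool.Agent.H508R3
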