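import Pool.Agent.H508R3.Bloch
import Pool.Agent.H508R3.Ring

set_option autoImplicit false

namespace Pool.Agent.H508R3

open Filter Topology

/-- the value of the real solution with given data at `0, 1` in terms of a Bloch solution -/
lemma bloch_real {U : ℤ → ℝ} {E : ℝ} {N : ℕ} {z : ℂ} {w : ℤ → ℂ} {B : ℝ} (h : Bloch U E N z w B)
    (x y : ℝ) : ∃ v : ℤ → ℝ, v 0 = x ∧ v 1 = y ∧ (∀ n, HE U E v n = 0) ∧
      ∀ n, v n ^ 2 ≤ 2 * B ^ 2 * (x ^ 2 + y ^ 2) := by
  -- v n = Im ((y conj w0 - x conj w1) w n)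
  set c : ℂ := (y : ℂ) * starRingEnd ℂ (w 0) - (x : ℂ) * starRingEnd ℂ (w 1) with hc
  have hw := h.wron 0
  rw [zero_add] at hw
  simp at hw
  refine ⟨fun n => (c * w n).im, ?_, ?_, ?_, ?_⟩
  · simp [hc]
    linear_combination x * hw
  · simp [hc]
    linear_combination y * hw
  · intro n
    have := congrArg Complex.im (congrArg (fun t => c * t) (h.eq n))
    simp only [HE]
    rw [mul_add, mul_add, mul_zero, Complex.add_im, Complex.add_im, Complex.zero_im] at this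
    rw [← this]
    congr 1
    rw [show c * (((U n - E : ℝ) : ℂ) * w n) = ((U n - E : ℝ) : ℂ) * (c * w n) by ring,
      Complex.im_ofReal_mul]
  · intro n
    have hB : 0 ≤ B := (sq_nonneg _).trans (h.bd 0)
    have h1 : (c * w n).im ^ 2 ≤ ‖c‖ ^ 2 * ‖w n‖ ^ 2 := by
      rw [← mul_pow, ← norm_mul, ← sq_abs (c * w n).im]
      exact pow_le_pow_left₀ (abs_nonneg _) (Complex.abs_im_le_norm _) 2
    have h2 : ‖c‖ ^ 2 ≤ 2 * B * (x ^ 2 + y ^ 2) := by
      have h3 : ‖c‖ ≤ |y| * ‖w 0‖ + |x| * ‖w 1‖ := by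
        rw [hc]
        refine (norm_sub_le _ _).trans (le_of_eq ?_)
        simp [norm_mul, RCLike.norm_conj]
      have h4 := h.bd 0
      have h5 := h.bd 1
      have h6 : ‖c‖ ^ 2 ≤ (|y| * ‖w 0‖ + |x| * ‖w 1‖) ^ 2 := pow_le_pow_left₀ (norm_nonneg _) h3 2
      have h7 : (|y| * ‖w 0‖ + |x| * ‖w 1‖) ^ 2 ≤ 2 * (y ^ 2 * ‖w 0‖ ^ 2 + x ^ 2 * ‖w 1‖ ^ 2) := by
        have := sq_nonneg (|y| * ‖w 0‖ - |x| * ‖w 1‖)
        have e1 := sq_abs x
        have e2 := sq_abs y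
        nlinarith
      have h8 : y ^ 2 * ‖w 0‖ ^ 2 ≤ y ^ 2 * B := mul_le_mul_of_nonneg_left h4 (sq_nonneg _)
      have h9 : x ^ 2 * ‖w 1‖ ^ 2 ≤ x ^ 2 * B := mul_le_mul_of_nonneg_left h5 (sq_nonneg _)
      linarith
    calc (c * w n).im ^ 2 ≤ ‖c‖ ^ 2 * ‖w n‖ ^ 2 := h1
      _ ≤ (2 * B * (x ^ 2 + y ^ 2)) * B := mul_le_mul h2 (h.bd n) (sq_nonneg _) (by positivity)
      _ = _ := by ring

/-- a uniform bound for the solutions passes to the limit potential -/
theorem bounded_of_approx (V : ℤ → ℝ) (E : ℝ) (Vs : ℕ → ℤ → ℝ) (e : ℕ → ℝ)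
    (hV : ∀ n, Tendsto (fun k => Vs k n) atTop (𝓝 (V n))) (he : Tendsto e atTop (𝓝 E)) (B : ℝ)
    (hB : ∀ k, ∃ (N : ℕ) (z : ℂ) (w : ℤ → ℂ), Bloch (Vs k) (e k) N z w B)
    (u : ℤ → ℝ) (hu : ∀ n, HE V E u n = 0) (n : ℤ) :
    u n ^ 2 + u (n + 1) ^ 2 ≤ 4 * B ^ 2 * (u 0 ^ 2 + u 1 ^ 2) := by
  have hex : ∀ k, ∃ v : ℤ → ℝ, v 0 = u 0 ∧ v 1 = u 1 ∧ (∀ n, HE (Vs k) (e k) v n = 0) ∧
      ∀ n, v n ^ 2 ≤ 2 * B ^ 2 * (u 0 ^ 2 + u 1 ^ 2) := by
    intro k
    obtain ⟨N, z, w, h⟩ := hB k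
    exact bloch_real h (u 0) (u 1)
  choose v h0 h1 hv hb using hex
  have key : ∀ n : ℤ, Tendsto (fun k => v k n) atTop (𝓝 (u n)) ∧
      Tendsto (fun k => v k (n + 1)) atTop (𝓝 (u (n + 1))) := by
    intro n
    induction n using Int.induction_on with
    | zero =>
      constructor
      · simp only [h0]; exact tendsto_const_nhds
      · rw [zero_add]; simp only [h1]; exact tendsto_const_nhds
    | succ i ih =>
      refine ⟨ih.2, ?_⟩
      have e1 : (fun k => v k ((i : ℤ) + 1 + 1)) =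
          fun k => (e k - Vs k (i + 1)) * v k (i + 1) - v k i := by
        funext k
        have := hv k (i + 1)
        simp only [HE] at this
        rw [add_sub_cancel_right] at this
        linarith
      have e2 : u ((i : ℤ) + 1 + 1) = (E - V (i + 1)) * u (i + 1) - u i := by
        have := hu (i + 1)
        simp only [HE] at this
        rw [add_sub_cancel_right] at this
        linarith
      rw [e1, e2]
      exact ((he.sub (hV _)).mul ih.2).sub ih.1
    | pred i ih =>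
      rw [sub_add_cancel]
      refine ⟨?_, ih.1⟩
      have e1 : (fun k => v k (-(i : ℤ) - 1)) =
          fun k => (e k - Vs k (-(i : ℤ))) * v k (-(i : ℤ)) - v k (-(i : ℤ) + 1) := by
        funext k
        have := hv k (-(i : ℤ))
        simp only [HE] at this
        linarith
      have e2 : u (-(i : ℤ) - 1) = (E - V (-(i : ℤ))) * u (-(i : ℤ)) - u (-(i : ℤ) + 1) := by
        have := hu (-(i : ℤ))
        simp only [HE] at this
        linarith
      rw [e1, e2]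
      exact ((he.sub (hV _)).mul ih.1).sub ih.2
  have hlim := ((key n).1.pow 2).add ((key n).2.pow 2)
  refine le_of_tendsto' hlim (fun k => ?_)
  have := hb k n
  have := hb k (n + 1)
  linarith

end Pool.Agent.H508R3
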