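import Pool.Agent.H54R3.Spec508
import Pool.Agent.H585R3.AC508
import Pool.Agent.H508R3.Ring

set_option autoImplicit false

namespace Pool.Agent.H508R3

open MeasureTheory Filter Topology ENNReal
open Pool.Agent.Helper434.PSCplx

/-- the real difference operator -/
def DD (V : ℤ → ℝ) (ψ : ℤ → ℝ) (n : ℤ) : ℝ := ψ (n + 1) + ψ (n - 1) + V n * ψ n

lemma iter_eq (V : ℤ → ℝ) (H : L2 →L[ℂ] L2)
    (hH : ∀ (ψ : L2) (n : ℤ), H ψ n = ψ (n + 1) + ψ (n - 1) + (V n : ℂ) * ψ n)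
    (f : L2) (u : ℤ → ℝ) (hfu : ∀ n, f n = (u n : ℂ)) (k : ℕ) :
    ∀ n, ((H ^ k) f) n = (((DD V)^[k] u n : ℝ) : ℂ) := by
  induction k with
  | zero => intro n; simpa using hfu n
  | succ k ih =>
    intro n
    rw [pow_succ', Function.iterate_succ_apply']
    have : ((H * H ^ k) f) = H ((H ^ k) f) := rfl
    rw [this, hH, ih, ih, ih]
    simp only [DD]
    push_cast
    ring

lemma single_eq (j n : ℤ) : (lp.single 2 j (1 : ℂ) : L2) n =
    (((if n = j then (1 : ℝ) else 0) : ℝ) : ℂ) := by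
  rw [lp.single_apply]
  by_cases h : n = j
  · subst h; simp
  · simp [h]

lemma inner_single (j : ℤ) (f : L2) : inner ℂ (lp.single 2 j (1 : ℂ) : L2) f = f j := by
  rw [lp.inner_single_left]
  simp

lemma summable_of_Ico (u : ℤ → ℝ) (hu : ∀ a b : ℤ, ∑ n ∈ Finset.Ico a b, u n ^ 2 ≤ 1) :
    Summable (fun n => u n ^ 2) := by
  apply summable_of_sum_le (c := 1) (fun n => sq_nonneg _)
  intro s
  obtain ⟨a, b, hab⟩ : ∃ a b : ℤ, s ⊆ Finset.Ico a b := by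
    rcases s.eq_empty_or_nonempty with h | h
    · exact ⟨0, 0, by rw [h]; simp⟩
    · refine ⟨s.min' h, s.max' h + 1, fun n hn => ?_⟩
      rw [Finset.mem_Ico]
      have h1 := s.min'_le n hn
      have h2 := s.le_max' n hn
      omega
  exact (Finset.sum_le_sum_of_subset_of_nonneg hab (fun n _ _ => sq_nonneg _)).trans (hu a b)

lemma to_lp (u : ℤ → ℝ) (hu : ∀ a b : ℤ, ∑ n ∈ Finset.Ico a b, u n ^ 2 ≤ 1) :
    ∃ ψ : L2, ∀ n, ψ n = (u n : ℂ) := by
  have hmem : Memℓp (fun n : ℤ => (u n : ℂ)) 2 := by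
    apply memℓp_gen
    have h1 := summable_of_Ico u hu
    refine h1.congr (fun n => ?_)
    rw [Complex.norm_real, Real.norm_eq_abs, show (2 : ℝ≥0∞).toReal = ((2 : ℕ) : ℝ) by norm_num,
      Real.rpow_natCast, sq_abs]
  exact ⟨⟨fun n => (u n : ℂ), hmem⟩, fun n => rfl⟩

lemma lp_tendsto (ψ : L2) : Tendsto (fun n => ‖ψ n‖) cofinite (𝓝 0) := by
  have h1 := (summ ψ).tendsto_cofinite_zero
  rw [show (2 : ℝ≥0∞).toReal = ((2 : ℕ) : ℝ) by norm_num] at h1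
  simp only [Real.rpow_natCast] at h1
  have h2 := (Real.continuous_sqrt.tendsto _).comp h1
  rw [Real.sqrt_zero] at h2
  refine h2.congr (fun n => ?_)
  simp only [Function.comp]
  exact Real.sqrt_sq (norm_nonneg _)

lemma from_lp (V : ℤ → ℝ) (H : L2 →L[ℂ] L2)
    (hH : ∀ (ψ : L2) (n : ℤ), H ψ n = ψ (n + 1) + ψ (n - 1) + (V n : ℂ) * ψ n)
    (E : ℝ) (ψ : L2) (hne : ψ ≠ 0) (hψ : H ψ = (E : ℂ) • ψ) :
    ∃ u : ℤ → ℝ, (∀ n, HE V E u n = 0) ∧ Tendsto u cofinite (𝓝 0) ∧ ∃ n, u n ≠ 0 := by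
  have heq : ∀ n, ψ (n + 1) + ψ (n - 1) + (V n : ℂ) * ψ n = (E : ℂ) * ψ n := by
    intro n
    rw [← hH, hψ]
    rfl
  have hlim := lp_tendsto ψ
  have hre : Tendsto (fun n => (ψ n).re) cofinite (𝓝 0) := by
    apply squeeze_zero_norm (fun n => ?_) hlim
    exact Complex.abs_re_le_norm _
  have him : Tendsto (fun n => (ψ n).im) cofinite (𝓝 0) := by
    apply squeeze_zero_norm (fun n => ?_) hlim
    exact Complex.abs_im_le_norm _
  by_cases h : ∃ n, (ψ n).re ≠ 0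
  · refine ⟨fun n => (ψ n).re, fun n => ?_, hre, h⟩
    have := congrArg Complex.re (heq n)
    simp at this
    simp only [HE]
    linarith
  · push Not at h
    refine ⟨fun n => (ψ n).im, fun n => ?_, him, ?_⟩
    · have := congrArg Complex.im (heq n)
      simp at this
      simp only [HE]
      linarith
    · by_contra hcon
      push Not at hcon
      apply hne
      ext n
      apply Complex.ext
      · simpa using h n
      · simpa using hcon n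

/-- the spectral measure of a site -/
theorem spec_site (V : ℤ → ℝ) (C : ℝ) (hC : ∀ n, |V n| ≤ C) (H : L2 →L[ℂ] L2)
    (hH : ∀ (ψ : L2) (n : ℤ), H ψ n = ψ (n + 1) + ψ (n - 1) + (V n : ℂ) * ψ n)
    (hsa : IsSelfAdjoint H) (j : ℤ) :
    ∃ μ : Measure ℝ, IsFiniteMeasure μ ∧ (∀ k : ℕ, Integrable (fun x : ℝ => x ^ k) μ) ∧
      (∀ k : ℕ, ((∫ x, x ^ k ∂μ : ℝ) : ℂ) =
        inner ℂ (lp.single 2 j (1 : ℂ) : L2) ((H ^ k) (lp.single 2 j (1 : ℂ) : L2))) ∧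
      (∀ k : ℕ, ∫ x, x ^ k ∂μ = (DD V)^[k] (fun m : ℤ => if m = j then (1 : ℝ) else 0) j) ∧
      (∀ (E : ℝ) (u : ℤ → ℝ), (∀ n, HE V E u n = 0) →
        (∀ a b : ℤ, ∑ n ∈ Finset.Ico a b, u n ^ 2 ≤ 1) → u j ≠ 0 → μ {E} ≠ 0) ∧
      (∀ E : ℝ, μ {E} ≠ 0 → ∃ u : ℤ → ℝ, (∀ n, HE V E u n = 0) ∧
        Tendsto u cofinite (𝓝 0) ∧ ∃ n, u n ≠ 0) ∧
      (j = 0 → ∀ S : Set ℝ, MeasurableSet S → volume S ≠ 0 → ∀ K : ℝ,
        (∀ E ∈ S, ∀ u : ℤ → ℝ, (∀ n, HE V E u n = 0) →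
          ∀ n, u n ^ 2 + u (n + 1) ^ 2 ≤ K * (u 0 ^ 2 + u 1 ^ 2)) →
        ¬ μ.MutuallySingular volume) := by
  obtain ⟨μ, h1, h2, h3, h4, h5, h6⟩ :=
    Pool.Agent.H54R3.Spec508.exists_spectral H hsa (lp.single 2 j (1 : ℂ) : L2)
  refine ⟨μ, h1, h2, h3, ?_, ?_, ?_, ?_⟩
  · intro k
    have h := h3 k
    rw [inner_single, iter_eq V H hH _ _ (single_eq j) k j] at h
    exact_mod_cast h
  · intro E u hu hsum hj
    obtain ⟨ψ, hψ⟩ := to_lp u hsum
    apply h5 E ψ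
    · ext n
      rw [hH, lp.coeFn_smul, Pi.smul_apply, smul_eq_mul, hψ, hψ, hψ]
      have := hu n
      simp only [HE] at this
      have h' : u (n + 1) + u (n - 1) + V n * u n = E * u n := by linarith
      have h'' : ((u (n + 1) + u (n - 1) + V n * u n : ℝ) : ℂ) = ((E * u n : ℝ) : ℂ) := by rw [h']
      push_cast at h''
      exact h''
    · rw [inner_single, hψ]
      exact_mod_cast hj
  · intro E hE
    obtain ⟨ψ, hψ0, hψ⟩ := h6 E hE
    exact from_lp V H hH E ψ hψ0 hψ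
  · intro hj S hS hS0 K hK
    subst hj
    apply Pool.Agent.H585R3.AC508.not_singular V C hC H hH hsa μ h4 S hS hS0 K
    intro E hE u hu
    apply hK E hE u
    intro n
    have := hu n
    simp only [HE]
    linarith

end Pool.Agent.H508R3
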