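import Pool.Agent.H508R3.Seq
import Pool.Agent.H508R3.SpecZ

set_option autoImplicit false

namespace Pool.Agent.H508R3

open MeasureTheory Filter Topology
open Pool.Agent.Helper434.PSCplx

/-- a limit-periodic potential with an eigenvalue and absolutely continuous spectrum -/
theorem mixed : ∃ (V : ℤ → ℝ) (H : L2 →L[ℂ] L2) (μ0 μ1 : Measure ℝ) (E : ℝ),
    (∀ ε : ℝ, 0 < ε → ∃ p : ℕ, 0 < p ∧ ∃ W : ℤ → ℝ,
      (∀ n : ℤ, W (n + (p : ℤ)) = W n) ∧ ∀ n : ℤ, |V n - W n| < ε) ∧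
    (∀ (ψ : L2) (n : ℤ), H ψ n = ψ (n + 1) + ψ (n - 1) + (V n : ℂ) * ψ n) ∧
    IsFiniteMeasure μ0 ∧ IsFiniteMeasure μ1 ∧
    (∀ k : ℕ, Integrable (fun x : ℝ => x ^ k) μ0) ∧
    (∀ k : ℕ, Integrable (fun x : ℝ => x ^ k) μ1) ∧
    (∀ k : ℕ, ((∫ x, x ^ k ∂μ0 : ℝ) : ℂ) =
      inner ℂ (lp.single 2 (0 : ℤ) (1 : ℂ) : L2) ((H ^ k) (lp.single 2 (0 : ℤ) (1 : ℂ) : L2))) ∧
    (∀ k : ℕ, ∫ x, x ^ k ∂μ0 = (DD V)^[k] (Pi.single (0 : ℤ) (1 : ℝ) : ℤ → ℝ) 0) ∧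
    (∀ k : ℕ, ∫ x, x ^ k ∂μ1 = (DD V)^[k] (Pi.single (1 : ℤ) (1 : ℝ) : ℤ → ℝ) 1) ∧
    μ0 {E} ≠ 0 ∧ ¬ μ0.MutuallySingular volume := by
  obtain ⟨m, J, h, S, hS, hS0, hK⟩ := exists_params
  obtain ⟨E, ψ, hψ, hψ0, hψs⟩ := exists_eigen h
  have hVb : ∀ n, |Vinf m (tau m) n| ≤ 20 := by
    intro n
    have := Vinf_near h 0 n
    simpa [Vk] using this
  obtain ⟨H, hH, hHs⟩ := exists_H (Vinf m (tau m)) hVb
  obtain ⟨μ0, a1, a2, a3, a4, a5, -, a7⟩ := spec_site (Vinf m (tau m)) 20 hVb H hH hHs 0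
  obtain ⟨μ1, b1, b2, -, b4, -, -, -⟩ := spec_site (Vinf m (tau m)) 20 hVb H hH hHs 1
  have hsing : ∀ j : ℤ, (fun m : ℤ => if m = j then (1 : ℝ) else 0) = Pi.single j (1 : ℝ) := by
    intro j
    funext n
    rw [Pi.single_apply]
  refine ⟨Vinf m (tau m), H, μ0, μ1, E, ?_, hH, a1, b1, a2, b2, a3, ?_, ?_, ?_, ?_⟩
  · intro ε hε
    obtain ⟨k, hk⟩ := exists_pow_lt_of_lt_one (show 0 < ε / 20 by positivity)
      (show (1 / 2 : ℝ) < 1 by norm_num)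
    refine ⟨NN m k, NN_pos m k, Vk m (tau m) k, Vk_periodic m (tau m) k, fun n => ?_⟩
    have := Vinf_near h k n
    linarith
  · intro k
    rw [a4, hsing]
  · intro k
    rw [b4, hsing]
  · apply a5 E ψ hψ hψs
    intro h0
    rw [h0] at hψ0
    norm_num at hψ0
  · exact a7 rfl S hS hS0 _ hK

end Pool.Agent.H508R3
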