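import Pool.Agent.H508R3.Cut

set_option autoImplicit false

namespace Pool.Agent.H508R3

open Filter Topology

/-- for every energy in an interval there are finitely supported approximate eigenfunctions -/
theorem limit_exists (W : ℤ → ℝ) (p : ℕ) (hp : 0 < p) (hW : ∀ n : ℤ, W (n + p) = W n) (ε : ℝ)
    (hε : 0 < ε) :
    ∃ (V : ℤ → ℝ) (c d : ℝ), c < d ∧
      (∀ δ : ℝ, 0 < δ → ∃ p : ℕ, 0 < p ∧ ∃ W : ℤ → ℝ,
          (∀ n : ℤ, W (n + (p : ℤ)) = W n) ∧ ∀ n : ℤ, |V n - W n| < δ) ∧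
      ¬ (∃ p : ℕ, 0 < p ∧ ∀ n : ℤ, V (n + (p : ℤ)) = V n) ∧
      (∀ n : ℤ, |W n - V n| < ε) ∧
      ∀ E, c ≤ E → E ≤ d → ∀ δ : ℝ, 0 < δ → ∃ (ψ : ℤ → ℝ) (a b : ℤ),
        (∀ n, n < a ∨ b < n → ψ n = 0) ∧ 0 < ∑ n ∈ Finset.Icc a b, ψ n ^ 2 ∧
        ∑ n ∈ Finset.Icc (a - 1) (b + 1), (HE V E ψ n) ^ 2 ≤
          δ ^ 2 * ∑ n ∈ Finset.Icc a b, ψ n ^ 2 := by
  have : NeZero p := ⟨hp.ne'⟩
  -- a periodic eigenfunction
  obtain ⟨e0, φ0, hφ0, hφ0', hφ0e⟩ : ∃ (e : ℝ) (φ : ℤ → ℝ), (∀ n : ℤ, φ (n + p) = φ n) ∧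
      (∃ n, φ n ≠ 0) ∧ ∀ n, HE W e φ n = 0 := by
    set x : EuclideanSpace ℝ (ZMod p) := EuclideanSpace.single 0 1 with hx
    have hx0 : x ≠ 0 := by
      intro h
      have : x 0 = 0 := by rw [h]; rfl
      rw [hx] at this
      simp at this
    have hxn : 0 < ‖x‖ := norm_pos_iff.mpr hx0
    obtain ⟨e, y, _, hy0, hy⟩ := exists_eigen_near (TR W p) (TR_symm W p) 0
      (‖TR W p x - (0 : ℝ) • x‖ / ‖x‖) x hx0 (by rw [div_mul_cancel₀ _ hxn.ne'])
    refine ⟨e, fun n => y (n : ZMod p), ?_, ?_, ?_⟩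
    · intro n
      simp
    · by_contra hcon
      push Not at hcon
      apply hy0
      ext z
      have := hcon (z.val : ℤ)
      simpa using this
    · intro n
      have h1 : ((n : ZMod p) + 1) = ((n + 1 : ℤ) : ZMod p) := by push_cast; ring
      have h2 : ((n : ZMod p) - 1) = ((n - 1 : ℤ) : ZMod p) := by push_cast; ring
      have h3 : (TR W p y) (n : ZMod p) = (e • y) (n : ZMod p) := by rw [hy]
      rw [TR_apply, h1, h2, periodic_val W p hW, PiLp.smul_apply, smul_eq_mul] at h3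
      simp only [HE]
      linarith
  set η : ℕ → ℝ := fun k => ε / 4 * (1 / 16) ^ k with hη
  have hηpos : ∀ k, 0 < η k := fun k => by simp only [hη]; positivity
  set c := e0 - η 0 with hc
  set d := e0 + η 0 with hd
  let Q : ℕ → (ℤ → ℝ) × ℕ → Prop := fun k s =>
    0 < s.2 ∧ (∀ n : ℤ, s.1 (n + s.2) = s.1 n) ∧ Dense s.1 s.2 c d (η k)
  let R : ℕ → (ℤ → ℝ) × ℕ → (ℤ → ℝ) × ℕ → Prop := fun k s s' =>
    s.2 ∣ s'.2 ∧ (k + 1) ∣ s'.2 ∧ (∀ n, |s'.1 n - s.1 n| ≤ η k) ∧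
      ∃ (n j : ℤ), η k ≤ |s'.1 (n + j * s.2) - s'.1 n|
  have hstep : ∀ k (s : {s // Q k s}), ∃ s' : {s' // Q (k + 1) s'}, R k s.1 s'.1 := by
    intro k s
    obtain ⟨⟨V, N⟩, h1, h2, h3⟩ := s
    obtain ⟨V', N', g1, g2, g3, g4, g5, g6, g7⟩ := stage V N h1 h2 c d (η k) (η (k + 1)) (hηpos k)
      (hηpos (k + 1)) h3 (k + 1) (Nat.succ_pos k)
    exact ⟨⟨(V', N'), g1, g4, g6⟩, g2, g3, g5, g7⟩
  choose f hf using hstep
  have hbase : Q 0 (W, p) := by
    refine ⟨hp, hW, ?_⟩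
    intro E h1 h2
    refine ⟨e0, φ0, ?_, hφ0, hφ0', hφ0e⟩
    rw [abs_le]
    constructor <;> linarith
  let S : (k : ℕ) → {s // Q k s} := fun k => Nat.rec ⟨(W, p), hbase⟩ (fun k s => f k s) k
  have hS0 : (S 0).1 = (W, p) := rfl
  have hSR : ∀ k, R k (S k).1 (S (k + 1)).1 := fun k => hf k (S k)
  set v : ℕ → ℤ → ℝ := fun k => (S k).1.1 with hv
  set N : ℕ → ℕ := fun k => (S k).1.2 with hN
  have hstepv : ∀ k n, |v (k + 1) n - v k n| ≤ η k := fun k n => (hSR k).2.2.1 n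
  have hdist : ∀ n k, dist (v k n) (v (k + 1) n) ≤ ε / 4 * (1 / 16) ^ k := by
    intro n k
    rw [dist_comm, Real.dist_eq]
    exact hstepv k n
  have hlim : ∀ n, ∃ l, Tendsto (fun k => v k n) atTop (𝓝 l) := by
    intro n
    exact cauchySeq_tendsto_of_complete
      (cauchySeq_of_le_geometric (1 / 16) (ε / 4) (by norm_num) (hdist n))
  choose V hVlim using hlim
  have hbound : ∀ k n, |v k n - V n| ≤ 16 / 15 * η k := by
    intro k n
    have h1 := dist_le_of_le_geometric_of_tendsto (1 / 16) (ε / 4) (by norm_num) (hdist n)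
      (hVlim n) k
    rw [Real.dist_eq] at h1
    refine h1.trans (le_of_eq ?_)
    simp only [hη]
    ring
  have hηlim : Tendsto η atTop (𝓝 0) := by
    have h1 : Tendsto (fun k : ℕ => ((1 : ℝ) / 16) ^ k) atTop (𝓝 0) :=
      tendsto_pow_atTop_nhds_zero_of_lt_one (by norm_num) (by norm_num)
    have h2 := h1.const_mul (ε / 4)
    rw [mul_zero] at h2
    exact h2
  refine ⟨V, c, d, ?_, ?_, ?_, ?_, ?_⟩
  · rw [hc, hd]; linarith [hηpos 0]
  · intro δ hδ
    obtain ⟨k, hk⟩ := ((tendsto_order.mp hηlim).2 (δ / 2) (by positivity)).exists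
    refine ⟨N k, (S k).2.1, v k, (S k).2.2.1, fun n => ?_⟩
    rw [abs_sub_comm]
    have := hbound k n
    linarith [hηpos k]
  · rintro ⟨q, hq, hVq⟩
    -- `q` divides `N q`
    obtain ⟨k, rfl⟩ : ∃ k, q = k + 1 := ⟨q - 1, by omega⟩
    have hdiv : (k + 1) ∣ N (k + 1) := (hSR k).2.1
    obtain ⟨n, j, hnj⟩ := (hSR (k + 1)).2.2.2
    obtain ⟨t, ht⟩ := hdiv
    have h1 : V (n + j * (N (k + 1) : ℕ)) = V n := by
      have := periodic_mul V (k + 1) hVq n (j * t)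
      rw [← this]
      congr 1
      rw [ht]
      push_cast
      ring
    have h2 := hbound (k + 2) n
    have h3 := hbound (k + 2) (n + j * (N (k + 1) : ℕ))
    rw [h1] at h3
    have h4 : η (k + 2) = η (k + 1) / 16 := by
      simp only [hη]; ring
    have h5 := hηpos (k + 1)
    change η (k + 1) ≤ |v (k + 2) (n + j * (N (k + 1) : ℕ)) - v (k + 2) n| at hnj
    have h6 : |v (k + 2) (n + j * (N (k + 1) : ℕ)) - v (k + 2) n| ≤
        |v (k + 2) (n + j * (N (k + 1) : ℕ)) - V n| + |v (k + 2) n - V n| := by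
      have := abs_sub_le (v (k + 2) (n + j * (N (k + 1) : ℕ))) (V n) (v (k + 2) n)
      rw [abs_sub_comm (V n)] at this
      exact this
    linarith
  · intro n
    have h1 := hbound 0 n
    have h2 : v 0 n = W n := rfl
    rw [h2] at h1
    have h3 : η 0 = ε / 4 := by simp [hη]
    rw [h3] at h1
    linarith
  · intro E hcE hEd δ hδ
    obtain ⟨k, hk⟩ := ((tendsto_order.mp hηlim).2 (δ / 6) (by positivity)).exists
    obtain ⟨K0, hK0⟩ := exists_nat_gt (16 / δ ^ 2)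
    set K := K0 + 2 with hK
    have hKr : (0 : ℝ) < K := by rw [hK]; positivity
    have hKbig : 8 / (K : ℝ) ≤ δ ^ 2 / 2 := by
      have h1 : (K0 : ℝ) ≤ K := by rw [hK]; push_cast; linarith
      rw [div_le_iff₀ hKr]
      have h2 : 16 / δ ^ 2 < K := lt_of_lt_of_le hK0 h1
      rw [div_lt_iff₀ (by positivity)] at h2
      nlinarith
    obtain ⟨e, φ, he, hφ, hφ0, hφe⟩ := (S k).2.2.2 E hcE hEd
    obtain ⟨ψ, h1, h2, h3⟩ := cutoff (v k) (N k) (S k).2.1 e φ hφ hφ0 hφe 0 K (by omega)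
    refine ⟨ψ, 0, 0 + K * N k - 1, h1, h2, ?_⟩
    set b : ℤ := 0 + K * N k - 1 with hb
    have hpt : ∀ n, (HE V E ψ n) ^ 2 ≤ 2 * (HE (v k) e ψ n) ^ 2 + 2 * (3 * η k) ^ 2 * ψ n ^ 2 := by
      intro n
      have e1 : HE V E ψ n = HE (v k) e ψ n + ((V n - v k n) + (e - E)) * ψ n := by
        simp only [HE]; ring
      have e2 : |(V n - v k n) + (e - E)| ≤ 3 * η k := by
        have g1 := hbound k n
        rw [abs_sub_comm] at g1
        have g2 := abs_add_le (V n - v k n) (e - E)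
        have g3 := hηpos k
        linarith
      have e3 : ((V n - v k n) + (e - E)) ^ 2 ≤ (3 * η k) ^ 2 := by
        rw [← sq_abs ((V n - v k n) + (e - E))]
        exact pow_le_pow_left₀ (abs_nonneg _) e2 2
      rw [e1]
      have e4 : 0 ≤ (HE (v k) e ψ n - ((V n - v k n) + (e - E)) * ψ n) ^ 2 := sq_nonneg _
      have e5 : ((V n - v k n) + (e - E)) ^ 2 * ψ n ^ 2 ≤ (3 * η k) ^ 2 * ψ n ^ 2 :=
        mul_le_mul_of_nonneg_right e3 (sq_nonneg _)
      nlinarith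
    calc ∑ n ∈ Finset.Icc (0 - 1) (b + 1), (HE V E ψ n) ^ 2
        ≤ ∑ n ∈ Finset.Icc (0 - 1) (b + 1),
            (2 * (HE (v k) e ψ n) ^ 2 + 2 * (3 * η k) ^ 2 * ψ n ^ 2) :=
          Finset.sum_le_sum fun n _ => hpt n
      _ = 2 * ∑ n ∈ Finset.Icc (0 - 1) (b + 1), (HE (v k) e ψ n) ^ 2 +
            2 * (3 * η k) ^ 2 * ∑ n ∈ Finset.Icc 0 b, ψ n ^ 2 := by
          rw [Finset.sum_add_distrib, ← Finset.mul_sum, ← Finset.mul_sum]
          congr 2
          symm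
          apply Finset.sum_subset
          · intro n hn
            simp only [Finset.mem_Icc] at hn ⊢
            omega
          · intro n hn hn'
            simp only [Finset.mem_Icc] at hn hn'
            rw [h1 n (by omega)]
            ring
      _ ≤ δ ^ 2 * ∑ n ∈ Finset.Icc 0 b, ψ n ^ 2 := by
          have g1 : 2 * (3 * η k) ^ 2 ≤ δ ^ 2 / 2 := by
            have := hηpos k
            nlinarith
          have g2 : 8 / (K : ℝ) = 2 * (4 / K) := by ring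
          have g3 : 2 * (4 / (K : ℝ)) * ∑ n ∈ Finset.Icc 0 b, ψ n ^ 2 ≤
              δ ^ 2 / 2 * ∑ n ∈ Finset.Icc 0 b, ψ n ^ 2 := by
            rw [← g2]
            exact mul_le_mul_of_nonneg_right hKbig h2.le
          have g4 := mul_le_mul_of_nonneg_right g1 h2.le
          have g5 : 2 * ∑ n ∈ Finset.Icc (0 - 1) (b + 1), (HE (v k) e ψ n) ^ 2 ≤
              2 * (4 / (K : ℝ)) * ∑ n ∈ Finset.Icc 0 b, ψ n ^ 2 := by
            rw [mul_assoc]
            exact mul_le_mul_of_nonneg_left h3 (by norm_num)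
          have g6 := g5.trans g3
          have g7 : δ ^ 2 * ∑ n ∈ Finset.Icc 0 b, ψ n ^ 2 =
              δ ^ 2 / 2 * ∑ n ∈ Finset.Icc 0 b, ψ n ^ 2 +
              δ ^ 2 / 2 * ∑ n ∈ Finset.Icc 0 b, ψ n ^ 2 := by ring
          rw [g7]
          exact add_le_add g6 g4

end Pool.Agent.H508R3
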