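import Pool.Agent.H508R3.Bloch

set_option autoImplicit false

namespace Pool.Agent.H508R3

open Polynomial

lemma pol_eval (U : ℤ → ℝ) (E : ℝ) (N : ℕ) (u : ℤ → ℂ)
    (hu : ∀ n : ℤ, 0 ≤ n → n < N → u (n + 1) + u (n - 1) + ((U n - E : ℝ) : ℂ) * u n = 0) :
    u N = (((pol U 1 0 N).1.eval E : ℝ) : ℂ) * u 0 + (((pol U 0 1 N).1.eval E : ℝ) : ℂ) * u (-1) ∧
    u (N - 1) = (((pol U 1 0 N).2.eval E : ℝ) : ℂ) * u 0 +
      (((pol U 0 1 N).2.eval E : ℝ) : ℂ) * u (-1) := by
  induction N with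
  | zero => simp [pol]
  | succ N ih =>
    obtain ⟨h1, h2⟩ := ih (fun n h0 h => hu n h0 (by push_cast; omega))
    have h3 := hu N (by omega) (by push_cast; omega)
    rw [h1, h2] at h3
    simp only [pol, eval_sub, eval_mul, eval_X, eval_C]
    push_cast at h3 ⊢
    constructor
    · linear_combination h3
    · rw [add_sub_cancel_right]
      exact h1

/-- trace and multiplier -/
lemma trp_eval {U : ℤ → ℝ} {E : ℝ} {N : ℕ} {z : ℂ} {w : ℤ → ℂ} {B : ℝ} (h : Bloch U E N z w B) :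
    (trp U N).eval E = 2 * z.re := by
  obtain ⟨h1, h2⟩ := pol_eval U E N w (fun n _ _ => h.eq n)
  have h3 := h.per 0
  have h4 := h.per (-1)
  rw [zero_add] at h3
  rw [show (-1 : ℤ) + N = N - 1 by ring] at h4
  rw [h3] at h1
  rw [h4] at h2
  have h5 := h.wron (-1)
  rw [show (-1 : ℤ) + 1 = 0 by ring] at h5
  simp only [trp, eval_add]
  set a := (pol U 1 0 N).1.eval E
  set b := (pol U 0 1 N).1.eval E
  set c := (pol U 1 0 N).2.eval E
  set d := (pol U 0 1 N).2.eval E
  have r1 := congrArg Complex.re h1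
  have i1 := congrArg Complex.im h1
  have r2 := congrArg Complex.re h2
  have i2 := congrArg Complex.im h2
  simp at r1 i1 r2 i2 h5
  -- h5 : (w (-1)).re * (w 0).im - (w (-1)).im * (w 0).re = 1
  have e1 : a = z.re + z.im * ((w 0).re * (w (-1)).re + (w 0).im * (w (-1)).im) := by
    linear_combination a * (-h5) - (w (-1)).re * i1 + (w (-1)).im * r1 + z.re * h5
  have e2 : d = z.re - z.im * ((w 0).re * (w (-1)).re + (w 0).im * (w (-1)).im) := by
    linear_combination d * (-h5) + (w 0).re * i2 - (w 0).im * r2 + z.re * h5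
  rw [e1, e2]
  ring

lemma pol_fst (U : ℤ → ℝ) (n : ℕ) : (pol U 1 0 n).1.Monic ∧ (pol U 1 0 n).1.natDegree = n ∧
    (pol U 1 0 n).2.degree < n := by
  induction n with
  | zero => simp [pol]
  | succ n ih =>
    obtain ⟨h1, h2, h3⟩ := ih
    have hm : ((X - C (U n)) * (pol U 1 0 n).1).Monic := (monic_X_sub_C _).mul h1
    have hd : ((X - C (U n)) * (pol U 1 0 n).1).natDegree = n + 1 := by
      rw [(monic_X_sub_C _).natDegree_mul h1, natDegree_X_sub_C, h2, add_comm]
    have hdeg : ((X - C (U n)) * (pol U 1 0 n).1).degree = ((n + 1 : ℕ) : WithBot ℕ) := by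
      rw [degree_eq_natDegree hm.ne_zero, hd]
    have hlt : (pol U 1 0 n).2.degree < ((X - C (U n)) * (pol U 1 0 n).1).degree := by
      rw [hdeg]
      exact h3.trans (by exact_mod_cast Nat.lt_succ_self n)
    refine ⟨?_, ?_, ?_⟩
    · simp only [pol]
      exact hm.sub_of_left hlt
    · simp only [pol]
      rw [natDegree_eq_of_degree_eq (degree_sub_eq_left_of_degree_lt hlt), hd]
    · simp only [pol]
      rw [degree_eq_natDegree h1.ne_zero, h2]
      exact_mod_cast Nat.lt_succ_self n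

lemma pol_snd (U : ℤ → ℝ) (n : ℕ) : (pol U 0 1 (n + 1)).1.degree < ((n + 1 : ℕ) : WithBot ℕ) ∧
    (pol U 0 1 (n + 1)).2.degree < ((n + 1 : ℕ) : WithBot ℕ) := by
  induction n with
  | zero =>
    simp only [pol]
    constructor
    · simp
    · simp
  | succ n ih =>
    obtain ⟨h1, h2⟩ := ih
    have hlt : ((n + 1 : ℕ) : WithBot ℕ) < ((n + 1 + 1 : ℕ) : WithBot ℕ) := by
      exact_mod_cast Nat.lt_succ_self (n + 1)
    constructor
    · show ((X - C (U ((n + 1 : ℕ) : ℤ))) * (pol U 0 1 (n + 1)).1 - (pol U 0 1 (n + 1)).2).degree < _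
      refine lt_of_le_of_lt (degree_sub_le _ _) (max_lt ?_ (h2.trans hlt))
      refine lt_of_le_of_lt (degree_mul_le _ _) ?_
      rw [degree_X_sub_C]
      rcases eq_or_ne (pol U 0 1 (n + 1)).1 0 with h0 | h0
      · rw [h0, degree_zero]
        simp
      · rw [degree_eq_natDegree h0] at h1 ⊢
        have h3 : (pol U 0 1 (n + 1)).1.natDegree < n + 1 := by exact_mod_cast h1
        have h4 : 1 + (pol U 0 1 (n + 1)).1.natDegree < n + 1 + 1 := by omega
        exact_mod_cast h4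
    · show (pol U 0 1 (n + 1)).1.degree < _
      exact h1.trans hlt

lemma trp_natDegree (U : ℤ → ℝ) (N : ℕ) (hN : 0 < N) : 0 < (trp U N).natDegree := by
  obtain ⟨n, rfl⟩ : ∃ n, N = n + 1 := ⟨N - 1, by omega⟩
  obtain ⟨h1, h2, _⟩ := pol_fst U (n + 1)
  obtain ⟨_, h4⟩ := pol_snd U n
  have hd : (pol U 1 0 (n + 1)).1.degree = ((n + 1 : ℕ) : WithBot ℕ) := by
    rw [degree_eq_natDegree h1.ne_zero, h2]
  unfold trp
  rw [natDegree_add_eq_left_of_degree_lt (by rw [hd]; exact h4), h2]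
  omega

end Pool.Agent.H508R3
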