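import Pool.Agent.H508R3.SC9d
import Pool.Agent.H116R3.SC6x508
import Pool.Agent.H116R3.SC8x508
import Pool.Agent.H725R3.SC7x508

set_option autoImplicit false

namespace Pool.Agent.H508R3.SC

open MeasureTheory Filter Topology Set Matrix

/-- transfer matrices -/
noncomputable def pT (b : ℕ → ℝ) (E : ℝ) (n : ℕ) : Matrix (Fin 2) (Fin 2) ℝ :=
  ((List.range n).reverse.map (fun m => ((1 : ℝ))⁻¹ • !![E - b m, -1; (1 : ℝ) ^ 2, 0])).prod

/-- the energy interval -/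
noncomputable def SI : Set ℝ := Icc (2 * Real.cos (3 * Real.pi / 8)) (2 * Real.cos (Real.pi / 8))

lemma SI_pos : 0 < volume SI := by
  unfold SI
  rw [Real.volume_Icc, ENNReal.ofReal_pos]
  have hpi := Real.pi_pos
  have : Real.cos (3 * Real.pi / 8) < Real.cos (Real.pi / 8) :=
    Real.cos_lt_cos_of_nonneg_of_le_pi (by positivity) (by linarith) (by linarith)
  linarith

theorem potential : ∃ (b : ℕ → ℝ) (nj : ℕ → ℕ), (∀ n, |b n| ≤ 11) ∧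
    (∀ᵐ E ∂(volume.restrict SI),
      Tendsto (fun j => (pT b E (nj j)) 0 0 ^ 2 + (pT b E (nj j)) 1 0 ^ 2) atTop atTop ∧
      ∃ C : ℝ, ∀ N : ℕ, ∃ n ≥ N, ∀ i j : Fin 2, |(pT b E n) i j| ≤ C) := by
  obtain ⟨C1, hU⟩ := universal_block
  exact Pool.Agent.H116R3.SC8.assembly C1 (fun M ε hε => hU M ε hε)
    (fun v hv hne Λ ε hε => Pool.Agent.H116R3.SC6.growth v hv hne Λ ε hε)

theorem potential_measure : ∃ (b : ℕ → ℝ) (nj : ℕ → ℕ) (μ : Measure ℝ), (∀ n, |b n| ≤ 11) ∧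
    IsFiniteMeasure μ ∧ (∀ k : ℕ, Integrable (fun x : ℝ => x ^ k) μ) ∧
    (∀ k : ℕ, ∫ x, x ^ k ∂μ = ((Matrix.of fun i j : Fin (k + 1) =>
      if i.val = j.val then b i.val else if j.val = i.val + 1 then (1 : ℝ)
      else if i.val = j.val + 1 then (1 : ℝ) else (0 : ℝ)) ^ k) 0 0) ∧
    (∀ᵐ E ∂(volume.restrict SI), μ.rnDeriv volume E = 0 ∧
      Tendsto (fun j => (pT b E (nj j)) 0 0 ^ 2 + (pT b E (nj j)) 1 0 ^ 2) atTop atTop ∧
      ∃ C : ℝ, ∀ N : ℕ, ∃ n ≥ N, ∀ i j : Fin 2, |(pT b E n) i j| ≤ C) := by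
  obtain ⟨b, nj, hb, hae⟩ := potential
  obtain ⟨μ, h1, h2, h3, h4⟩ := Pool.Agent.H725R3.SC7.spectral_part b ⟨11, hb⟩ SI
    measurableSet_Icc nj (hae.mono fun E hE => hE.1)
  refine ⟨b, nj, μ, hb, h1, h2, h3, ?_⟩
  filter_upwards [hae, h4] with E hE hE4
  exact ⟨hE4, hE.1, hE.2⟩

end Pool.Agent.H508R3.SC
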