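import Pool.Agent.H508R3.SCimp

set_option autoImplicit false

namespace Pool.Agent.H508R3.SC

open MeasureTheory Filter Topology Set Matrix

/-- an invariant positive form -/
def IsFix (X Z : M2) : Prop := Z.IsSymm ∧ Z.det = 1 ∧ 0 < Z 0 0 ∧ X * Z * Xᵀ = Z

lemma exists_Z (X : M2) (hdet : X.det = 1) (htr : |X.trace| < 2) : ∃ Z : M2, IsFix X Z ∧
    Real.sqrt (4 - X.trace ^ 2) * Z 0 0 = 2 * |X 0 1| ∧
    Real.sqrt (4 - X.trace ^ 2) * |Z 0 1| = |X 0 0 - X 1 1| := by
  have ht : 0 < 4 - X.trace ^ 2 := by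
    have := sq_abs X.trace
    have h0 := abs_nonneg X.trace
    nlinarith
  set s := Real.sqrt (4 - X.trace ^ 2) with hs
  have hspos : 0 < s := Real.sqrt_pos.mpr ht
  have hs2 : s ^ 2 = 4 - X.trace ^ 2 := Real.sq_sqrt ht.le
  rw [Matrix.trace_fin_two] at hs2 ht
  rw [Matrix.det_fin_two] at hdet
  set a := X 0 0
  set b := X 0 1
  set c := X 1 0
  set d := X 1 1
  have hb : b ≠ 0 := by
    intro hb
    rw [hb] at hdet
    nlinarith [sq_nonneg (a - d)]
  have hX : X = !![a, b; c, d] := by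
    ext i j; fin_cases i <;> fin_cases j <;> rfl
  obtain ⟨σ, hσ, hσb⟩ : ∃ σ : ℝ, σ ^ 2 = 1 ∧ σ * (-b) = |b| := by
    rcases lt_or_gt_of_ne hb with h | h
    · exact ⟨1, by norm_num, by rw [abs_of_neg h]; ring⟩
    · exact ⟨-1, by norm_num, by rw [abs_of_pos h]; ring⟩
  refine ⟨(σ / s) • !![-2 * b, a - d; a - d, 2 * c], ⟨?_, ?_, ?_, ?_⟩, ?_, ?_⟩
  · ext i j; fin_cases i <;> fin_cases j <;> simp
  · rw [Matrix.det_smul, Matrix.det_fin_two_of]
    simp only [Fintype.card_fin]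
    rw [div_pow, hσ, hs2]
    field_simp
    nlinarith
  · simp only [Matrix.smul_apply, Matrix.of_apply, Matrix.cons_val', Matrix.cons_val_zero,
      smul_eq_mul]
    have : σ / s * (-2 * b) = 2 * |b| / s := by rw [← hσb]; ring
    rw [this]
    have := abs_pos.mpr hb
    positivity
  · rw [hX, Matrix.mul_smul, Matrix.smul_mul]
    congr 1
    ext i j
    fin_cases i <;> fin_cases j <;>
      simp [Matrix.mul_apply, Fin.sum_univ_two, Matrix.transpose_apply]
    · linear_combination (-2 * b) * hdet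
    · linear_combination (a - d) * hdet
    · linear_combination (a - d) * hdet
    · linear_combination (2 * c) * hdet
  · simp only [Matrix.smul_apply, Matrix.of_apply, Matrix.cons_val', Matrix.cons_val_zero,
      smul_eq_mul]
    rw [← hσb]
    field_simp
  · simp only [Matrix.smul_apply, Matrix.of_apply, Matrix.cons_val', Matrix.cons_val_zero,
      Matrix.cons_val_one, smul_eq_mul]
    rw [abs_mul, abs_div, abs_of_pos hspos]
    have : |σ| = 1 := by
      have := sq_abs σ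
      rw [hσ] at this
      nlinarith [abs_nonneg σ]
    rw [this]
    field_simp

lemma rot_add (a b : ℝ) : rot a * rot b = rot (a + b) := by
  ext i j
  fin_cases i <;> fin_cases j <;>
    simp [rot, Matrix.mul_apply, Fin.sum_univ_two, Real.cos_add, Real.sin_add] <;> ring

/-- transfer matrix of the word with coupling constant `s` -/
noncomputable def XX (θ : ℝ) (q : List ℝ) (s : ℝ) : M2 := Th θ (q.map (fun b => s * b))

lemma XX_det (θ : ℝ) (q : List ℝ) (s : ℝ) : (XX θ q s).det = 1 := Th_det θ _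

lemma XX_zero (θ : ℝ) (q : List ℝ) : XX θ q 0 = rot (q.length * θ) := by
  induction q with
  | nil => simp [XX, Th, rot]; ext i j; fin_cases i <;> fin_cases j <;> simp
  | cons b q ih =>
    simp only [XX, List.map_cons, Th, List.length_cons] at ih ⊢
    rw [ih]
    have : st θ (0 * b) = rot θ := by
      ext i j
      fin_cases i <;> fin_cases j <;> simp [st, rot, Matrix.mul_apply, Fin.sum_univ_two]
    rw [this, rot_add]
    congr 1
    push_cast
    ring

lemma XX_one (θ : ℝ) (q : List ℝ) : XX θ q 1 = Th θ q := by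
  simp [XX]

lemma XX_contDiff (θ : ℝ) (q : List ℝ) : ∀ i j, ContDiff ℝ 3 (fun s => XX θ q s i j) := by
  induction q with
  | nil => intro i j; simp only [XX, List.map_nil, Th]; exact contDiff_const
  | cons b q ih =>
    intro i j
    simp only [XX, List.map_cons, Th] at ih ⊢
    simp only [Matrix.mul_apply, Fin.sum_univ_two]
    have hst : ∀ k j, ContDiff ℝ 3 (fun s : ℝ => st θ (s * b) k j) := by
      intro k j
      have h0 : ContDiff ℝ 3 (fun s : ℝ => s * b / Real.sin θ) :=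
        (contDiff_id.mul contDiff_const).div_const _
      fin_cases k <;> fin_cases j <;>
        simp [st, rot, Matrix.mul_apply, Fin.sum_univ_two] <;> fun_prop
    exact ((ih i 0).mul (hst 0 j)).add ((ih i 1).mul (hst 1 j))

/-- switching on -/
noncomputable def up (q : List ℝ) (J : ℕ) : List ℝ :=
  (List.range J).flatMap (fun k => q.map (fun b => ((k + 1 : ℕ) : ℝ) / J * b))

/-- switching off -/
noncomputable def down (q : List ℝ) (J : ℕ) : List ℝ :=
  (List.range J).flatMap (fun k => q.map (fun b => (1 - ((k + 1 : ℕ) : ℝ) / J) * b))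

lemma Th_ramp (θ : ℝ) (q : List ℝ) (f : ℕ → ℝ) (X : ℝ → M2) (J : ℕ)
    (hX : ∀ k : ℕ, Th θ (q.map (fun b => f k * b)) = X (((k + 1 : ℕ) : ℝ) / J)) (n : ℕ) :
    Th θ ((List.range n).flatMap (fun k => q.map (fun b => f k * b))) = PJ X J n := by
  induction n with
  | zero => simp [Th, PJ]
  | succ n ih =>
    rw [List.range_succ, List.flatMap_append, Th_append, ih, PJ]
    simp only [List.flatMap_cons, List.flatMap_nil, List.append_nil]
    rw [hX]

lemma Th_up (θ : ℝ) (q : List ℝ) (J : ℕ) : Th θ (up q J) = PJ (XX θ q) J J :=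
  Th_ramp θ q _ (XX θ q) J (fun _ => rfl) J

lemma Th_down (θ : ℝ) (q : List ℝ) (J : ℕ) : Th θ (down q J) = PJ (fun s => XX θ q (1 - s)) J J :=
  Th_ramp θ q _ (fun s => XX θ q (1 - s)) J (fun _ => rfl) J

/-- all couplings are elliptic -/
def GoodQ (θ : ℝ) (q : List ℝ) : Prop := ∀ s ∈ Set.Icc (0 : ℝ) 1, |(XX θ q s).trace| < 2

lemma fix_one (θ : ℝ) (q : List ℝ) : IsFix (XX θ q 0) 1 := by
  refine ⟨Matrix.isSymm_one, Matrix.det_one, by simp, ?_⟩
  rw [XX_zero, Matrix.mul_one]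
  ext i j
  fin_cases i <;> fin_cases j <;>
    simp [rot, Matrix.mul_apply, Fin.sum_univ_two, Matrix.transpose_apply] <;>
    nlinarith [Real.sin_sq_add_cos_sq (q.length * θ)]

lemma up_tendsto {θ : ℝ} {q : List ℝ} (hq : GoodQ θ q) {Z : M2} (hZ : IsFix (Th θ q) Z)
    (Q : ℕ → M2) (hQ : Tendsto Q atTop (𝓝 1)) :
    Tendsto (fun J : ℕ => Th θ (up q J) * Q J * (Th θ (up q J))ᵀ) atTop (𝓝 Z) := by
  simp only [Th_up]
  exact adiabatic (XX θ q) (XX_contDiff θ q) (XX_det θ q) hq 1 Z (fix_one θ q)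
    (by rw [XX_one]; exact hZ) Q hQ

lemma down_tendsto {θ : ℝ} {q : List ℝ} (hq : GoodQ θ q) {Z : M2} (hZ : IsFix (Th θ q) Z)
    (Q : ℕ → M2) (hQ : Tendsto Q atTop (𝓝 Z)) :
    Tendsto (fun J : ℕ => Th θ (down q J) * Q J * (Th θ (down q J))ᵀ) atTop (𝓝 1) := by
  simp only [Th_down]
  refine adiabatic (fun s => XX θ q (1 - s)) ?_ (fun s => XX_det θ q _) ?_ Z 1 ?_ ?_ Q hQ
  · intro i j
    exact (XX_contDiff θ q i j).comp (contDiff_const.sub contDiff_id)
  · intro s hs
    exact hq (1 - s) ⟨by linarith [hs.2], by linarith [hs.1]⟩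
  · show IsFix (XX θ q (1 - 0)) Z
    rw [sub_zero, XX_one]; exact hZ
  · show IsFix (XX θ q (1 - 1)) 1
    rw [sub_self]; exact fix_one θ q

/-- one event -/
noncomputable def event (J H : ℕ) (q : List ℝ) : List ℝ :=
  up q J ++ (List.replicate H q).flatten ++ down q J

/-- a sequence of events -/
noncomputable def UU (qs : List (List ℝ)) (J H : ℕ) : List ℝ := qs.flatMap (event J H)

lemma Th_hold (θ : ℝ) (q : List ℝ) (H : ℕ) : Th θ (List.replicate H q).flatten = Th θ q ^ H := by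
  induction H with
  | zero => simp [Th]
  | succ H ih => rw [List.replicate_succ, List.flatten_cons, Th_append, ih, pow_succ]

lemma pow_fix {X Z : M2} (h : X * Z * Xᵀ = Z) (H : ℕ) : X ^ H * Z * (X ^ H)ᵀ = Z := by
  induction H with
  | zero => simp
  | succ H ih =>
    rw [pow_succ, Matrix.transpose_mul]
    calc X ^ H * X * Z * (Xᵀ * (X ^ H)ᵀ) = X ^ H * (X * Z * Xᵀ) * (X ^ H)ᵀ := by
          simp only [Matrix.mul_assoc]
      _ = Z := by rw [h, ih]

lemma event_tendsto {θ : ℝ} {q : List ℝ} (hq : GoodQ θ q) (H : ℕ)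
    (Q : ℕ → M2) (hQ : Tendsto Q atTop (𝓝 1)) :
    Tendsto (fun J : ℕ => Th θ (event J H q) * Q J * (Th θ (event J H q))ᵀ) atTop (𝓝 1) := by
  have htr : |(Th θ q).trace| < 2 := by
    have := hq 1 ⟨by norm_num, le_refl _⟩
    rwa [XX_one] at this
  obtain ⟨Z, hZ, -, -⟩ := exists_Z (Th θ q) (Th_det θ q) htr
  have h1 := up_tendsto hq hZ Q hQ
  have h2 : Tendsto (fun J : ℕ => Th θ q ^ H * (Th θ (up q J) * Q J * (Th θ (up q J))ᵀ) *
      (Th θ q ^ H)ᵀ) atTop (𝓝 Z) := by
    have h3 := (h1.const_mul (Th θ q ^ H)).mul_const ((Th θ q ^ H)ᵀ)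
    rw [pow_fix hZ.2.2.2 H] at h3
    exact h3
  have h4 := down_tendsto hq hZ _ h2
  refine h4.congr (fun J => ?_)
  simp only [event, Th_append, Th_hold, Matrix.transpose_mul, Matrix.mul_assoc]

lemma UU_tendsto {θ : ℝ} (qs : List (List ℝ)) (hq : ∀ q ∈ qs, GoodQ θ q) (H : ℕ)
    (Q : ℕ → M2) (hQ : Tendsto Q atTop (𝓝 1)) :
    Tendsto (fun J : ℕ => Th θ (UU qs J H) * Q J * (Th θ (UU qs J H))ᵀ) atTop (𝓝 1) := by
  induction qs generalizing Q with
  | nil => simpa [UU, Th] using hQ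
  | cons q qs ih =>
    have h1 := event_tendsto (hq q (by simp)) H Q hQ
    have h2 := ih (fun q' hq' => hq q' (by simp [hq'])) _ h1
    refine h2.congr (fun J => ?_)
    simp only [UU, List.flatMap_cons, Th_append, Matrix.transpose_mul, Matrix.mul_assoc]

lemma before_tendsto {θ : ℝ} (pre : List (List ℝ)) (hq : ∀ q ∈ pre, GoodQ θ q) (H : ℕ)
    {q : List ℝ} (hq1 : GoodQ θ q) {Z : M2} (hZ : IsFix (Th θ q) Z) :
    Tendsto (fun J : ℕ => (Th θ (up q J) * Th θ (UU pre J H)) *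
      (Th θ (up q J) * Th θ (UU pre J H))ᵀ) atTop (𝓝 Z) := by
  have h1 := UU_tendsto pre hq H (fun _ => 1) tendsto_const_nhds
  have h2 := up_tendsto hq1 hZ _ h1
  refine h2.congr (fun J => ?_)
  simp only [Matrix.transpose_mul, Matrix.mul_assoc, Matrix.one_mul]

/-- the good property at one energy -/
def PG (M C1 : ℝ) (θ : ℝ) (w : List ℝ) : Prop :=
  ∀ g : M2, g.det = 1 → ns g ≤ M → ∃ t ≤ w.length, ns (Th θ (w.take t) * g) ≤ C1

lemma prefix_UU (pre post : List (List ℝ)) (q : List ℝ) (J H h Lc : ℕ) (hh : h < H) :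
    UU pre J H ++ up q J ++ (List.replicate h q).flatten ++ q.take Lc <+:
      UU (pre ++ q :: post) J H := by
  have h1 : UU (pre ++ q :: post) J H = UU pre J H ++ up q J ++ (List.replicate h q).flatten ++
      (q.take Lc ++ (q.drop Lc ++ (List.replicate (H - h - 1) q).flatten ++ down q J ++
        UU post J H)) := by
    have h2 : List.replicate H q = List.replicate h q ++ q :: List.replicate (H - h - 1) q := by
      have : H = h + ((H - h - 1) + 1) := by omega
      conv_lhs => rw [this, List.replicate_add, List.replicate_succ]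
    simp only [UU, List.flatMap_append, List.flatMap_cons, event, h2, List.flatten_append,
      List.flatten_cons, List.append_assoc]
    congr 3
    rw [← List.append_assoc (q.take Lc), List.take_append_drop]
  rw [h1]
  exact ⟨_, List.append_assoc _ _ _⟩

lemma pointwise (κ C1 : ℝ) (hC1 : ∀ (M : ℝ) (X Z F : M2), X.det = 1 → F.det = 1 →
      |X.trace| < 2 → Irrational (Real.arccos (X.trace / 2) / Real.pi) → Z.IsSymm → Z.det = 1 →
      0 < Z 0 0 → X * Z * Xᵀ = Z → ∃ H : ℕ, ∃ δ > 0, ∀ B g : M2, B.det = 1 → g.det = 1 →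
      (∀ i j, |(B * Bᵀ - Z) i j| ≤ δ) → ns g ≤ M → (F * Z * Fᵀ).trace ≤ κ * ns g →
      ns g ≤ κ * (F * Z * Fᵀ).trace → ∃ h < H, ns (F * X ^ h * B * g) ≤ C1)
    (θ : ℝ) (qs : List (List ℝ)) (Lc : ℕ) (M : ℝ) (hgood : ∀ q ∈ qs, GoodQ θ q)
    (hirr : ∀ q ∈ qs, |(Th θ q).trace| < 2 →
      Irrational (Real.arccos ((Th θ q).trace / 2) / Real.pi))
    (Zq : List ℝ → M2) (hZq : ∀ q ∈ qs, IsFix (Th θ q) (Zq q))
    (hcov : ∀ g : M2, g.det = 1 → ns g ≤ M → ∃ q ∈ qs,
      (Th θ (q.take Lc) * Zq q * (Th θ (q.take Lc))ᵀ).trace ≤ κ * ns g ∧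
      ns g ≤ κ * (Th θ (q.take Lc) * Zq q * (Th θ (q.take Lc))ᵀ).trace) :
    ∃ H0, ∀ H ≥ H0, ∀ᶠ J in atTop, PG M C1 θ (UU qs J H) := by
  have htr : ∀ q ∈ qs, |(Th θ q).trace| < 2 := by
    intro q hq
    have := hgood q hq 1 ⟨by norm_num, le_refl _⟩
    rwa [XX_one] at this
  have hex : ∀ q : List ℝ, ∃ (Z : M2) (H : ℕ) (δ : ℝ), q ∈ qs → (Z = Zq q ∧ IsFix (Th θ q) Z ∧ 0 < δ ∧
      ∀ B g : M2, B.det = 1 → g.det = 1 →
      (∀ i j, |(B * Bᵀ - Z) i j| ≤ δ) → ns g ≤ M →
      (Th θ (q.take Lc) * Z * (Th θ (q.take Lc))ᵀ).trace ≤ κ * ns g →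
      ns g ≤ κ * (Th θ (q.take Lc) * Z * (Th θ (q.take Lc))ᵀ).trace →
      ∃ h < H, ns (Th θ (q.take Lc) * Th θ q ^ h * B * g) ≤ C1) := by
    intro q
    by_cases hq : q ∈ qs
    · have hZ := hZq q hq
      obtain ⟨H, δ, hδ, h⟩ := hC1 M (Th θ q) (Zq q) (Th θ (q.take Lc)) (Th_det θ q) (Th_det θ _)
        (htr q hq) (hirr q hq (htr q hq)) hZ.1 hZ.2.1 hZ.2.2.1 hZ.2.2.2
      exact ⟨Zq q, H, δ, fun _ => ⟨rfl, hZ, hδ, h⟩⟩
    · exact ⟨1, 0, 0, fun h => absurd h hq⟩
  choose Zf Hf δf hf using hex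
  refine ⟨(qs.map Hf).sum, fun H hH => ?_⟩
  have hHf : ∀ q ∈ qs, Hf q ≤ H := fun q hq =>
    (List.single_le_sum (by simp) _ (List.mem_map_of_mem hq)).trans hH
  -- eventually all forms are close
  have hev : ∀ᶠ J in atTop, ∀ p ∈ (qs.toFinset ×ˢ (List.range qs.length).toFinset),
      ∀ (pre post : List (List ℝ)), qs = pre ++ p.1 :: post → pre.length = p.2 →
      ∀ i j, |((Th θ (up p.1 J) * Th θ (UU pre J H)) * (Th θ (up p.1 J) * Th θ (UU pre J H))ᵀ -
        Zf p.1) i j| ≤ δf p.1 := by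
    rw [Filter.eventually_all_finset]
    intro p hp
    have hpq : p.1 ∈ qs := by
      have := (Finset.mem_product.mp hp).1
      simpa using this
    have h1 := hf p.1 hpq
    by_cases hsplit : ∃ pre post : List (List ℝ), qs = pre ++ p.1 :: post ∧ pre.length = p.2
    · obtain ⟨pre, post, hs, hl⟩ := hsplit
      have h2 := before_tendsto (θ := θ) pre (fun q hq => hgood q (by rw [hs]; simp [hq])) H
        (hgood p.1 hpq) h1.2.1
      have h3 : ∀ i j, ∀ᶠ J in atTop, |((Th θ (up p.1 J) * Th θ (UU pre J H)) *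
          (Th θ (up p.1 J) * Th θ (UU pre J H))ᵀ - Zf p.1) i j| ≤ δf p.1 := by
        intro i j
        have h4 : Tendsto (fun J => |((Th θ (up p.1 J) * Th θ (UU pre J H)) *
          (Th θ (up p.1 J) * Th θ (UU pre J H))ᵀ - Zf p.1) i j|) atTop (𝓝 |(Zf p.1 - Zf p.1) i j|) := by
          have h5 := h2.sub_const (Zf p.1)
          exact ((continuous_apply_apply i j).tendsto _ |>.comp h5).abs
        rw [sub_self, Matrix.zero_apply, abs_zero] at h4
        exact (h4.eventually (gt_mem_nhds h1.2.2.1)).mono (fun J hJ => hJ.le)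
      have h6 : ∀ᶠ J in atTop, ∀ i j, |((Th θ (up p.1 J) * Th θ (UU pre J H)) *
          (Th θ (up p.1 J) * Th θ (UU pre J H))ᵀ - Zf p.1) i j| ≤ δf p.1 := by
        rw [Filter.eventually_all]
        intro i
        rw [Filter.eventually_all]
        exact h3 i
      filter_upwards [h6] with J hJ pre' post' hs' hl'
      have : pre' = pre := by
        have h7 : pre' ++ p.1 :: post' = pre ++ p.1 :: post := by rw [← hs', ← hs]
        exact (List.append_inj h7 (by rw [hl', hl])).1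
      rw [this]
      exact hJ
    · filter_upwards with J pre' post' hs' hl'
      exact absurd ⟨pre', post', hs', hl'⟩ hsplit
  filter_upwards [hev] with J hJ g hg hM
  obtain ⟨q, hq, hcz⟩ := hcov g hg hM
  obtain ⟨pre, post, hs⟩ := List.append_of_mem hq
  have h1 := hf q hq
  obtain ⟨h, hh, hn⟩ := h1.2.2.2 (Th θ (up q J) * Th θ (UU pre J H)) g
    (by rw [Matrix.det_mul, Th_det, Th_det, one_mul]) hg
    (hJ (q, pre.length) (by
      simp only [Finset.mem_product, List.mem_toFinset, List.mem_range]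
      refine ⟨hq, ?_⟩
      rw [hs]
      simp) pre post hs rfl) hM (by rw [h1.1]; exact hcz.1) (by rw [h1.1]; exact hcz.2)
  have hpre := prefix_UU pre post q J H h Lc (lt_of_lt_of_le hh (hHf q hq))
  rw [← hs] at hpre
  refine ⟨_, hpre.length_le, ?_⟩
  rw [← List.prefix_iff_eq_take.mp hpre]
  rw [Th_append, Th_append, Th_append, Th_hold]
  simpa only [Matrix.mul_assoc] using hn

end Pool.Agent.H508R3.SC
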