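import Pool.Agent.H508R3.SC9a

set_option autoImplicit false

namespace Pool.Agent.H508R3.SC

open MeasureTheory Filter Topology Set Matrix

lemma st_cont (b : ℝ) (i j : Fin 2) : ContinuousOn (fun θ => st θ b i j) (Ioo 0 Real.pi) := by
  have hs : ∀ θ ∈ Ioo (0 : ℝ) Real.pi, Real.sin θ ≠ 0 := fun θ hθ =>
    (Real.sin_pos_of_pos_of_lt_pi hθ.1 hθ.2).ne'
  have h1 : ContinuousOn (fun θ => b / Real.sin θ) (Ioo 0 Real.pi) :=
    continuousOn_const.div Real.continuous_sin.continuousOn hs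
  have hc := Real.continuous_cos.continuousOn (s := Ioo (0 : ℝ) Real.pi)
  have hsn := Real.continuous_sin.continuousOn (s := Ioo (0 : ℝ) Real.pi)
  fin_cases i <;> fin_cases j <;> simp [st, rot, Matrix.mul_apply, Fin.sum_univ_two]
  · exact hc.add (h1.mul hsn).neg
  · exact hsn.neg.add (h1.mul hc).neg
  · exact hsn
  · exact hc

lemma Th_cont (w : List ℝ) (i j : Fin 2) : ContinuousOn (fun θ => Th θ w i j) (Ioo 0 Real.pi) := by
  induction w generalizing i j with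
  | nil => simp only [Th]; exact continuousOn_const
  | cons b w ih =>
    simp only [Th, Matrix.mul_apply, Fin.sum_univ_two]
    exact ((ih i 0).mul (st_cont b 0 j)).add ((ih i 1).mul (st_cont b 1 j))

/-- the bad energies of a word -/
def BadW (M C1 : ℝ) (w : List ℝ) : Set ℝ := {θ ∈ Ioo (0 : ℝ) Real.pi | ¬ PG M C1 θ w}

lemma BadW_open (M C1 : ℝ) (w : List ℝ) : IsOpen (BadW M C1 w) := by
  have h1 : BadW M C1 w = ⋃ g ∈ {g : M2 | g.det = 1 ∧ ns g ≤ M},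
      ⋂ t ∈ Finset.range (w.length + 1), {θ ∈ Ioo (0 : ℝ) Real.pi | C1 < ns (Th θ (w.take t) * g)} := by
    ext θ
    simp only [BadW, PG, mem_setOf_eq, mem_iUnion, mem_iInter, Finset.mem_range]
    constructor
    · rintro ⟨h0, h2⟩
      push Not at h2
      obtain ⟨g, hg, hM, h3⟩ := h2
      exact ⟨g, ⟨hg, hM⟩, fun t ht => ⟨h0, h3 t (by omega)⟩⟩
    · rintro ⟨g, ⟨hg, hM⟩, h2⟩
      refine ⟨(h2 0 (by omega)).1, ?_⟩
      push Not
      exact ⟨g, hg, hM, fun t ht => (h2 t (by omega)).2⟩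
  rw [h1]
  apply isOpen_biUnion
  intro g _
  apply isOpen_biInter_finset
  intro t _
  have hc : ContinuousOn (fun θ => ns (Th θ (w.take t) * g)) (Ioo 0 Real.pi) := by
    simp only [ns, Matrix.mul_apply, Fin.sum_univ_two]
    have h := Th_cont (w.take t)
    have hk : ∀ i j, ContinuousOn (fun θ => Th θ (w.take t) i 0 * g 0 j + Th θ (w.take t) i 1 * g 1 j)
        (Ioo 0 Real.pi) := fun i j =>
      ((h i 0).mul continuousOn_const).add ((h i 1).mul continuousOn_const)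
    exact (((hk 0 0).pow 2).add ((hk 0 1).pow 2)).add ((hk 1 0).pow 2) |>.add ((hk 1 1).pow 2)
  exact hc.isOpen_inter_preimage isOpen_Ioo isOpen_Ioi

lemma egorov1 (G : Set ℝ) (hfin : volume G ≠ ⊤) (B : ℕ → Set ℝ)
    (hB : ∀ n, MeasurableSet (B n)) (h : ∀ᵐ θ ∂(volume.restrict G), ∀ᶠ n in atTop, θ ∉ B n)
    (ε : ENNReal) (hε : 0 < ε) (N : ℕ) : ∃ n ≥ N, volume.restrict G (B n) ≤ ε := by
  set C : ℕ → Set ℝ := fun n => ⋃ k ≥ n, B k with hC
  have hCm : ∀ n, MeasurableSet (C n) := fun n =>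
    MeasurableSet.iUnion fun k => MeasurableSet.iUnion fun _ => hB k
  have hanti : Antitone C := by
    intro a b hab x hx
    simp only [hC, mem_iUnion] at hx ⊢
    obtain ⟨k, hk, hx⟩ := hx
    exact ⟨k, hab.trans hk, hx⟩
  have hfin' : (volume.restrict G) (C 0) ≠ ⊤ := by
    refine ne_top_of_le_ne_top ?_ (measure_mono (subset_univ _))
    rw [Measure.restrict_apply_univ]
    exact hfin
  have hlim := tendsto_measure_iInter_atTop (μ := volume.restrict G) (s := C)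
    (fun n => (hCm n).nullMeasurableSet) hanti ⟨0, hfin'⟩
  have h0 : (volume.restrict G) (⋂ n, C n) = 0 := by
    refine measure_mono_null ?_ (ae_iff.mp h)
    intro θ hθ
    simp only [mem_iInter, hC, mem_iUnion] at hθ
    show ¬ ∀ᶠ n in atTop, θ ∉ B n
    rw [eventually_atTop]
    push Not
    intro n
    obtain ⟨k, hk, hx⟩ := hθ n
    exact ⟨k, hk, hx⟩
  rw [h0] at hlim
  have h1 := (hlim.eventually (gt_mem_nhds hε)).and (eventually_ge_atTop N)
  obtain ⟨n, hn, hnN⟩ := h1.exists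
  refine ⟨n, hnN, (measure_mono ?_).trans hn.le⟩
  intro x hx
  simp only [hC, mem_iUnion]
  exact ⟨n, le_refl n, hx⟩

theorem block_exists (M C1 : ℝ) (qs : List (List ℝ)) (G : Set ℝ)
    (hGsub : G ⊆ Ioo 0 Real.pi) (hfin : volume G ≠ ⊤)
    (hGm : MeasurableSet G)
    (hpt : ∀ᵐ θ ∂(volume.restrict G), ∃ H0, ∀ H ≥ H0, ∀ᶠ J in atTop, PG M C1 θ (UU qs J H))
    (ε : ENNReal) (hε : 0 < ε) :
    ∃ J H, volume {θ ∈ G | ¬ PG M C1 θ (UU qs J H)} ≤ ε := by
  have hε2 : 0 < ε / 2 := ENNReal.half_pos hε.ne'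
  have hDm : ∀ J H, MeasurableSet (BadW M C1 (UU qs J H)) := fun J H =>
    (BadW_open M C1 _).measurableSet
  set BH : ℕ → Set ℝ := fun H => ⋂ n : ℕ, ⋃ J ≥ n, BadW M C1 (UU qs J H) with hBH
  have hBHm : ∀ H, MeasurableSet (BH H) := fun H =>
    MeasurableSet.iInter fun n => MeasurableSet.iUnion fun J => MeasurableSet.iUnion fun _ => hDm J H
  have h1 : ∀ᵐ θ ∂(volume.restrict G), ∀ᶠ H in atTop, θ ∉ BH H := by
    filter_upwards [hpt] with θ hθ
    obtain ⟨H0, h⟩ := hθ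
    rw [eventually_atTop]
    refine ⟨H0, fun H hH hmem => ?_⟩
    obtain ⟨n, hn⟩ := eventually_atTop.mp (h H hH)
    simp only [hBH, mem_iInter, mem_iUnion] at hmem
    obtain ⟨J, hJ, hx⟩ := hmem n
    exact hx.2 (hn J hJ)
  obtain ⟨H, -, hH⟩ := egorov1 G hfin BH hBHm h1 (ε / 2) hε2 0
  have h2 : ∀ᵐ θ ∂(volume.restrict (G \ BH H)), ∀ᶠ J in atTop, θ ∉ BadW M C1 (UU qs J H) := by
    filter_upwards [ae_restrict_mem (hGm.diff (hBHm H))] with θ hθ
    have h3 := hθ.2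
    simp only [hBH, mem_iInter, mem_iUnion] at h3
    push Not at h3
    obtain ⟨n, hn⟩ := h3
    rw [eventually_atTop]
    exact ⟨n, fun J hJ => hn J hJ⟩
  obtain ⟨J, -, hJ⟩ := egorov1 (G \ BH H) (ne_top_of_le_ne_top hfin (measure_mono sdiff_subset))
    (fun J => BadW M C1 (UU qs J H)) (fun J => hDm J H) h2 (ε / 2) hε2 0
  refine ⟨J, H, ?_⟩
  have hsub : {θ ∈ G | ¬ PG M C1 θ (UU qs J H)} ⊆
      (BH H ∩ G) ∪ (BadW M C1 (UU qs J H) ∩ (G \ BH H)) := by
    intro θ hθ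
    by_cases hb : θ ∈ BH H
    · exact Or.inl ⟨hb, hθ.1⟩
    · exact Or.inr ⟨⟨hGsub hθ.1, hθ.2⟩, hθ.1, hb⟩
  rw [Measure.restrict_apply (hBHm H)] at hH
  rw [Measure.restrict_apply (hDm J H)] at hJ
  calc volume {θ ∈ G | ¬ PG M C1 θ (UU qs J H)}
      ≤ volume ((BH H ∩ G) ∪ (BadW M C1 (UU qs J H) ∩ (G \ BH H))) := measure_mono hsub
    _ ≤ volume (BH H ∩ G) + volume (BadW M C1 (UU qs J H) ∩ (G \ BH H)) := measure_union_le _ _
    _ ≤ ε / 2 + ε / 2 := add_le_add hH hJ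
    _ = ε := ENNReal.add_halves ε

end Pool.Agent.H508R3.SC
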