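import Pool.Agent.H508R3.SC9b

set_option autoImplicit false

namespace Pool.Agent.H508R3.SC

open MeasureTheory Filter Topology Set Matrix

lemma quad_bound (z0 z1 z3 x y : ℝ) (h1 : 0.94 ≤ z0) (h2 : z0 ≤ 1.06) (h3 : |z1| ≤ 0.02)
    (h4 : 0.94 ≤ z3) (h5 : z3 ≤ 1.07) :
    0.9 * (x ^ 2 + y ^ 2) ≤ z0 * x ^ 2 + 2 * z1 * (x * y) + z3 * y ^ 2 ∧
      z0 * x ^ 2 + 2 * z1 * (x * y) + z3 * y ^ 2 ≤ 1.2 * (x ^ 2 + y ^ 2) := by
  have hxy : |x * y| ≤ (x ^ 2 + y ^ 2) / 2 := by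
    rw [abs_le]
    constructor
    · linarith [sq_nonneg (x + y), show (x + y) ^ 2 = x ^ 2 + y ^ 2 + 2 * (x * y) by ring]
    · linarith [sq_nonneg (x - y), show (x - y) ^ 2 = x ^ 2 + y ^ 2 - 2 * (x * y) by ring]
  have hm : |z1 * (x * y)| ≤ 0.02 * ((x ^ 2 + y ^ 2) / 2) := by
    rw [abs_mul]
    exact mul_le_mul h3 hxy (abs_nonneg _) (by norm_num)
  have hm' := abs_le.mp hm
  have e1 := mul_le_mul_of_nonneg_right h1 (sq_nonneg x)
  have e2 := mul_le_mul_of_nonneg_right h2 (sq_nonneg x)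
  have e3 := mul_le_mul_of_nonneg_right h4 (sq_nonneg y)
  have e4 := mul_le_mul_of_nonneg_right h5 (sq_nonneg y)
  have f1 := sq_nonneg x
  have f2 := sq_nonneg y
  norm_num at hm' e1 e2 e3 e4 ⊢
  constructor
  · linarith [hm'.1]
  · linarith [hm'.2]

lemma fin_bound (a b c d P Q : ℝ) (ha : 0 ≤ a) (hb : 0 ≤ b) (hc : 0 ≤ c) (hd : 0 ≤ d)
    (h1 : 0.9 * (a + b) ≤ P ∧ P ≤ 1.2 * (a + b)) (h2 : 0.9 * (c + d) ≤ Q ∧ Q ≤ 1.2 * (c + d)) :
    P + Q ≤ 2 * (a + b + c + d) ∧ a + b + c + d ≤ 2 * (P + Q) := by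
  norm_num at h1 h2
  constructor <;> linarith [h1.1, h1.2, h2.1, h2.2]

lemma form_bound (X Z : M2) (ψ ρ δ : ℝ) (hfix : IsFix X Z)
    (h0 : Real.sqrt (4 - X.trace ^ 2) * Z 0 0 = 2 * |X 0 1|)
    (h1 : Real.sqrt (4 - X.trace ^ 2) * |Z 0 1| = |X 0 0 - X 1 1|)
    (hX : ∀ i j, |X i j - rot ψ i j| ≤ δ) (hρ : ρ ≤ |Real.sin ψ|) (hρ0 : 0 < ρ)
    (hδ : δ ≤ ρ ^ 2 / 100) (F : M2) :
    (F * Z * Fᵀ).trace ≤ 2 * ns F ∧ ns F ≤ 2 * (F * Z * Fᵀ).trace := by
  set u := |Real.sin ψ| with hu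
  have hu1 : u ≤ 1 := Real.abs_sin_le_one ψ
  have hupos : 0 < u := lt_of_lt_of_le hρ0 hρ
  have hδ0 : 0 ≤ δ := (abs_nonneg _).trans (hX 0 0)
  have hδu2 : δ ≤ u ^ 2 / 100 := by nlinarith
  have hδu : δ ≤ u / 100 := by nlinarith
  have x00 := abs_le.mp (hX 0 0)
  have x01 := abs_le.mp (hX 0 1)
  have x11 := abs_le.mp (hX 1 1)
  simp only [rot, Matrix.of_apply, Matrix.cons_val', Matrix.cons_val_zero, Matrix.cons_val_one,
    Matrix.cons_val_fin_one] at x00 x01 x11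
  rw [Matrix.trace_fin_two] at h0 h1
  set t := X 0 0 + X 1 1 with ht
  set s := Real.sqrt (4 - t ^ 2) with hs
  have hcos := Real.cos_le_one ψ
  have hcos' := Real.neg_one_le_cos ψ
  have hsc := Real.sin_sq_add_cos_sq ψ
  have hu2 : u ^ 2 = Real.sin ψ ^ 2 := sq_abs _
  have ht1 : |2 * Real.cos ψ - t| ≤ 2 * δ := by rw [abs_le]; constructor <;> linarith
  have ht2 : |2 * Real.cos ψ + t| ≤ 4 + 2 * δ := by rw [abs_le]; constructor <;> linarith
  have hd : |(4 - t ^ 2) - 4 * u ^ 2| ≤ 9 * u ^ 2 / 100 := by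
    have e : (4 - t ^ 2) - 4 * u ^ 2 = (2 * Real.cos ψ - t) * (2 * Real.cos ψ + t) := by
      rw [hu2]; nlinarith
    rw [e, abs_mul]
    calc |2 * Real.cos ψ - t| * |2 * Real.cos ψ + t| ≤ (2 * δ) * (4 + 2 * δ) :=
          mul_le_mul ht1 ht2 (abs_nonneg _) (by linarith)
      _ ≤ 9 * u ^ 2 / 100 := by nlinarith
  rw [abs_le] at hd
  have hpos : 0 < 4 - t ^ 2 := by nlinarith
  have hspos : 0 < s := Real.sqrt_pos.mpr hpos
  have hs2 : s ^ 2 = 4 - t ^ 2 := Real.sq_sqrt hpos.le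
  have hs_lo : 1.95 * u ≤ s := by
    apply Real.le_sqrt_of_sq_le
    nlinarith
  have hs_hi : s ≤ 2.05 * u := by
    apply Real.sqrt_le_iff.mpr
    constructor
    · positivity
    · nlinarith
  have hb : |(|X 0 1| - u)| ≤ δ := by
    have h2 := abs_abs_sub_abs_le_abs_sub (X 0 1) (-Real.sin ψ)
    rw [abs_neg] at h2
    refine h2.trans ?_
    rw [abs_le]
    constructor <;> linarith
  rw [abs_le] at hb
  have hz0lo : 0.94 ≤ Z 0 0 := by
    by_contra hcon
    push Not at hcon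
    have : s * Z 0 0 < s * 0.94 := mul_lt_mul_of_pos_left hcon hspos
    norm_num at this hs_hi ⊢
    linarith
  have hz0hi : Z 0 0 ≤ 1.06 := by
    by_contra hcon
    push Not at hcon
    have : s * 1.06 < s * Z 0 0 := mul_lt_mul_of_pos_left hcon hspos
    norm_num at this hs_lo ⊢
    linarith
  have hz1 : |Z 0 1| ≤ 0.02 := by
    by_contra hcon
    push Not at hcon
    have : s * 0.02 < s * |Z 0 1| := mul_lt_mul_of_pos_left hcon hspos
    have h2 : |X 0 0 - X 1 1| ≤ 2 * δ := by rw [abs_le]; constructor <;> linarith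
    norm_num at this hs_lo ⊢
    linarith
  have hdet := hfix.2.1
  rw [Matrix.det_fin_two] at hdet
  have hsym : Z 1 0 = Z 0 1 := by
    have := congrFun (congrFun hfix.1 0) 1
    simpa [Matrix.transpose_apply] using this
  rw [hsym] at hdet
  have hz1' := abs_le.mp hz1
  have hz1sq : Z 0 1 ^ 2 ≤ 0.0004 := by
    rw [← sq_abs]
    have h5 := pow_le_pow_left₀ (abs_nonneg (Z 0 1)) hz1 2
    refine h5.trans (by norm_num)
  have hz0pos : 0 < Z 0 0 := hfix.2.2.1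
  have hz1nn : 0 ≤ Z 0 1 ^ 2 := sq_nonneg _
  have hz3lo : 0.94 ≤ Z 1 1 := by
    by_contra hcon
    push Not at hcon
    have h5 := mul_lt_mul_of_pos_left hcon hz0pos
    norm_num at h5 hz0hi
    linarith
  have hz3hi : Z 1 1 ≤ 1.07 := by
    by_contra hcon
    push Not at hcon
    have h5 := mul_lt_mul_of_pos_left hcon hz0pos
    norm_num at h5 hz0lo hz1sq
    linarith
  have htr : (F * Z * Fᵀ).trace = (Z 0 0 * F 0 0 ^ 2 + 2 * Z 0 1 * (F 0 0 * F 0 1) +
      Z 1 1 * F 0 1 ^ 2) + (Z 0 0 * F 1 0 ^ 2 + 2 * Z 0 1 * (F 1 0 * F 1 1) +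
      Z 1 1 * F 1 1 ^ 2) := by
    simp only [Matrix.trace_fin_two, Matrix.mul_apply, Fin.sum_univ_two, Matrix.transpose_apply,
      hsym]
    ring
  have q1 := quad_bound (Z 0 0) (Z 0 1) (Z 1 1) (F 0 0) (F 0 1) hz0lo hz0hi hz1 hz3lo hz3hi
  have q2 := quad_bound (Z 0 0) (Z 0 1) (Z 1 1) (F 1 0) (F 1 1) hz0lo hz0hi hz1 hz3lo hz3hi
  rw [htr]
  simp only [ns]
  exact fin_bound _ _ _ _ _ _ (sq_nonneg _) (sq_nonneg _) (sq_nonneg _) (sq_nonneg _) q1 q2

lemma abs_wv (φ : ℝ) (m : ℕ) : |wv φ m| ≤ 1 := by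
  unfold wv
  rcases Nat.eq_zero_or_pos m with h | h
  · subst h; simp
  · rw [abs_div]
    have h1 := Real.abs_sin_le_one (2 * φ * m)
    have h2 : (1 : ℝ) ≤ |(m : ℝ)| := by
      rw [abs_of_nonneg (by positivity)]
      exact_mod_cast h
    rw [div_le_one (by linarith)]
    linarith

lemma abs_qf (φ η : ℝ) (h0 : 0 ≤ η) (h1 : η ≤ 1) (L : ℕ) : ∀ b ∈ qf φ η L, |b| ≤ 1 := by
  intro b hb
  simp only [qf, List.mem_map] at hb
  obtain ⟨i, -, rfl⟩ := hb
  rw [abs_mul, abs_of_nonneg h0]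
  have := abs_wv φ ((i : ℤ) - L).natAbs
  have h2 := abs_nonneg (wv φ ((i : ℤ) - L).natAbs)
  nlinarith

lemma abs_UU (qs : List (List ℝ)) (hq : ∀ q ∈ qs, ∀ b ∈ q, |b| ≤ 1) (J H : ℕ) :
    ∀ b ∈ UU qs J H, |b| ≤ 1 := by
  intro b hb
  simp only [UU, List.mem_flatMap] at hb
  obtain ⟨q, hq', hb⟩ := hb
  have key : ∀ (c x : ℝ), 0 ≤ c → c ≤ 1 → |x| ≤ 1 → |c * x| ≤ 1 := by
    intro c x h0 h1 h2
    rw [abs_mul, abs_of_nonneg h0]
    nlinarith [abs_nonneg x]
  simp only [event, List.mem_append] at hb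
  rcases hb with (hb | hb) | hb
  · simp only [up, List.mem_flatMap, List.mem_range, List.mem_map] at hb
    obtain ⟨k, hk, x, hx, rfl⟩ := hb
    have hJ : (0 : ℝ) < J := by exact_mod_cast (Nat.zero_le k).trans_lt hk
    refine key _ _ (by positivity) ?_ (hq q hq' x hx)
    rw [div_le_one hJ]
    exact_mod_cast hk
  · rw [List.mem_flatten] at hb
    obtain ⟨l, hl, hb⟩ := hb
    rw [List.eq_of_mem_replicate hl] at hb
    exact hq q hq' b hb
  · simp only [down, List.mem_flatMap, List.mem_range, List.mem_map] at hb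
    obtain ⟨k, hk, x, hx, rfl⟩ := hb
    have hJ : (0 : ℝ) < J := by exact_mod_cast (Nat.zero_le k).trans_lt hk
    have h1 : ((k + 1 : ℕ) : ℝ) / J ≤ 1 := by
      rw [div_le_one hJ]
      exact_mod_cast hk
    have h2 : 0 ≤ ((k + 1 : ℕ) : ℝ) / J := by positivity
    exact key _ _ (by linarith) (by linarith) (hq q hq' x hx)

lemma qf_map (φ η s : ℝ) (L : ℕ) : (qf φ η L).map (fun b => s * b) = qf φ (s * η) L := by
  simp only [qf, List.map_map]
  apply List.map_congr_left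
  intro i _
  simp only [Function.comp]
  ring

lemma lost_vol (N : ℕ) (hN : 1 ≤ N) (ρ : ℝ) (hρ : 0 < ρ) :
    volume {θ ∈ Icc (Real.pi / 8) (3 * Real.pi / 8) | |Real.sin (N * θ)| < ρ} ≤
      ENNReal.ofReal (7 * ρ) := by
  have hpi := Real.pi_pos
  have hNr : (1 : ℝ) ≤ N := by exact_mod_cast hN
  have hsub : {θ ∈ Icc (Real.pi / 8) (3 * Real.pi / 8) | |Real.sin (N * θ)| < ρ} ⊆
      ⋃ k ∈ Finset.range (N + 1), Ioo ((k * Real.pi - Real.pi * ρ / 2) / N)
        ((k * Real.pi + Real.pi * ρ / 2) / N) := by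
    rintro θ ⟨⟨h1, h2⟩, h3⟩
    set x := N * θ / Real.pi with hx
    have hθ0 : 0 ≤ θ := by linarith
    have hx0 : 0 ≤ x := by positivity
    have hxN : x ≤ N / 2 := by
      rw [hx, div_le_iff₀ hpi]
      nlinarith
    set k := round x with hk
    have hk1 := abs_sub_round x
    have hk1' := abs_le.mp hk1
    have hk0 : 0 ≤ k := by
      by_contra hcon
      push Not at hcon
      have h6 : k ≤ -1 := by omega
      have : (k : ℝ) ≤ -1 := by exact_mod_cast h6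
      linarith [hk1'.2]
    have hkN : k ≤ N := by
      by_contra hcon
      push Not at hcon
      have : (N : ℝ) + 1 ≤ k := by exact_mod_cast hcon
      linarith [hk1'.1]
    obtain ⟨n, hn⟩ := Int.eq_ofNat_of_zero_le hk0
    have hkn : (k : ℝ) = n := by rw [hn]; simp
    set y := N * θ - n * Real.pi with hy
    have hyx : y = Real.pi * (x - k) := by
      rw [hy, hx, hkn]; field_simp
    have hyabs : |y| ≤ Real.pi / 2 := by
      rw [hyx, abs_mul, abs_of_pos hpi]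
      nlinarith
    have hsin : |Real.sin (N * θ)| = |Real.sin y| := by
      rw [hy, Real.sin_sub_nat_mul_pi, abs_mul, abs_pow, abs_neg, abs_one, one_pow, one_mul]
    have hlow : 2 / Real.pi * |y| ≤ |Real.sin y| := by
      rcases le_total 0 y with h | h
      · have h4 : y ≤ Real.pi / 2 := (le_abs_self y).trans hyabs
        rw [abs_of_nonneg h]
        exact (Real.mul_le_sin h h4).trans (le_abs_self _)
      · have h4 : -y ≤ Real.pi / 2 := (neg_le_abs y).trans hyabs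
        rw [abs_of_nonpos h]
        have := Real.mul_le_sin (neg_nonneg.mpr h) h4
        rw [Real.sin_neg] at this
        exact this.trans (neg_le_abs _)
    have hylt : |y| < Real.pi * ρ / 2 := by
      rw [hsin] at h3
      have h5 : 2 / Real.pi * |y| < ρ := lt_of_le_of_lt hlow h3
      rw [div_mul_eq_mul_div, div_lt_iff₀ hpi] at h5
      linarith
    have hylt' := abs_lt.mp hylt
    simp only [mem_iUnion, Finset.mem_range]
    refine ⟨n, by omega, ?_, ?_⟩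
    · rw [div_lt_iff₀ (by linarith)]
      rw [hy] at hylt'
      linarith [hylt'.1]
    · rw [lt_div_iff₀ (by linarith)]
      rw [hy] at hylt'
      linarith [hylt'.2]
  refine (measure_mono hsub).trans ((measure_biUnion_finset_le _ _).trans ?_)
  have h1 : ∀ k ∈ Finset.range (N + 1), volume (Ioo ((k * Real.pi - Real.pi * ρ / 2) / (N : ℝ))
      ((k * Real.pi + Real.pi * ρ / 2) / N)) = ENNReal.ofReal (Real.pi * ρ / N) := by
    intro k _
    rw [Real.volume_Ioo]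
    congr 1
    ring
  rw [Finset.sum_congr rfl h1, Finset.sum_const, Finset.card_range, nsmul_eq_mul,
    ← ENNReal.ofReal_natCast, ← ENNReal.ofReal_mul (by positivity)]
  apply ENNReal.ofReal_le_ofReal
  have hpi2 := Real.pi_lt_d2
  push_cast
  rw [← mul_div_assoc, div_le_iff₀ (by linarith)]
  have h2 : ((N : ℝ) + 1) ≤ 2 * N := by linarith
  calc ((N : ℝ) + 1) * (Real.pi * ρ) ≤ (2 * N) * (Real.pi * ρ) :=
        mul_le_mul_of_nonneg_right h2 (by positivity)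
    _ ≤ (2 * N) * (3.15 * ρ) := by
        apply mul_le_mul_of_nonneg_left _ (by positivity)
        exact mul_le_mul_of_nonneg_right hpi2.le hρ.le
    _ ≤ 7 * ρ * N := by nlinarith [mul_pos hρ (show (0:ℝ) < N by linarith)]

end Pool.Agent.H508R3.SC
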