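import Pool.Agent.H508R3.SC9c

set_option autoImplicit false

namespace Pool.Agent.H508R3.SC

open MeasureTheory Filter Topology Set Matrix

lemma ns_ge_two (g : M2) (hg : g.det = 1) : 2 ≤ ns g := by
  rw [Matrix.det_fin_two] at hg
  unfold ns
  nlinarith [sq_nonneg (g 0 0 - g 1 1), sq_nonneg (g 0 1 + g 1 0)]

lemma four_sin (θ : ℝ) (hθ : θ ∈ Icc (Real.pi / 8) (3 * Real.pi / 8)) : 1 ≤ 4 * Real.sin θ := by
  have hpi := Real.pi_pos
  have h := Real.mul_le_sin (x := θ) (by linarith [hθ.1]) (by linarith [hθ.2])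
  have h2 : 2 / Real.pi * (Real.pi / 8) ≤ 2 / Real.pi * θ :=
    mul_le_mul_of_nonneg_left hθ.1 (by positivity)
  have h3 : 2 / Real.pi * (Real.pi / 8) = 1 / 4 := by field_simp; norm_num
  linarith

/-- the centres of the energy windows -/
noncomputable def ctr (K j : ℕ) : ℝ := Real.pi / 8 + Real.pi / 4 * (j / K)

lemma ctr_mem (K j : ℕ) (hj : j ≤ K) : ctr K j ∈ Icc (Real.pi / 8) (3 * Real.pi / 8) := by
  have hpi := Real.pi_pos
  have h1 : (j : ℝ) / K ≤ 1 := by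
    rcases Nat.eq_zero_or_pos K with h | h
    · subst h; simp
    · rw [div_le_one (by exact_mod_cast h)]
      exact_mod_cast hj
  have h0 : (0 : ℝ) ≤ (j : ℝ) / K := by positivity
  unfold ctr
  constructor
  · nlinarith
  · nlinarith

lemma exists_ctr (K : ℕ) (hK : 1 ≤ K) (θ : ℝ) (hθ : θ ∈ Icc (Real.pi / 8) (3 * Real.pi / 8)) :
    ∃ j ≤ K, |θ - ctr K j| ≤ 1 / K := by
  have hpi := Real.pi_pos
  have hpi4 := Real.pi_le_four
  have hKr : (0 : ℝ) < K := by exact_mod_cast hK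
  set x := (θ - Real.pi / 8) / (Real.pi / 4) * K with hx
  have hx0 : 0 ≤ x := by
    have : 0 ≤ θ - Real.pi / 8 := by linarith [hθ.1]
    positivity
  have hxK : x ≤ K := by
    have : (θ - Real.pi / 8) / (Real.pi / 4) ≤ 1 := by
      rw [div_le_one (by positivity)]
      linarith [hθ.2]
    calc x ≤ 1 * K := mul_le_mul_of_nonneg_right this hKr.le
      _ = K := one_mul _
  refine ⟨⌊x⌋₊, Nat.floor_le_of_le hxK, ?_⟩
  have h1 := Nat.floor_le hx0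
  have h2 := Nat.lt_floor_add_one x
  have h3 : θ - ctr K ⌊x⌋₊ = Real.pi / 4 / K * (x - ⌊x⌋₊) := by
    unfold ctr
    rw [hx]
    field_simp
    ring
  rw [h3, abs_mul, abs_of_pos (by positivity), abs_of_nonneg (by linarith)]
  have h4 : Real.pi / 4 / K ≤ 1 / K := by
    apply div_le_div_of_nonneg_right _ hKr.le
    linarith
  calc Real.pi / 4 / K * (x - ⌊x⌋₊) ≤ 1 / K * 1 :=
        mul_le_mul h4 (by linarith) (by linarith) (by positivity)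
    _ = 1 / K := mul_one _

/-- the list of words -/
noncomputable def qlist (K n : ℕ) (η : ℝ) : List (List ℝ) :=
  (List.range (K + 1)).flatMap (fun j =>
    (List.range (n + 1)).map (fun l : ℕ => qf (ctr K j) (((l : ℕ) : ℝ) / n * η) K))

lemma mem_qlist (K n : ℕ) (η : ℝ) (q : List ℝ) : q ∈ qlist K n η ↔
    ∃ j : ℕ, j ≤ K ∧ ∃ l : ℕ, l ≤ n ∧ q = qf (ctr K j) (((l : ℕ) : ℝ) / n * η) K := by
  simp only [qlist, List.mem_flatMap, List.mem_range, List.mem_map]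
  constructor
  · rintro ⟨j, hj, l, hl, rfl⟩
    exact ⟨j, by omega, l, by omega, rfl⟩
  · rintro ⟨j, hj, l, hl, rfl⟩
    exact ⟨j, by omega, l, by omega, rfl⟩

lemma trace_lt (X : M2) (ψ ρ δ : ℝ) (hX : ∀ i j, |X i j - rot ψ i j| ≤ δ)
    (hρ : ρ ≤ |Real.sin ψ|) (hρ0 : 0 < ρ) (hδ : δ ≤ ρ ^ 2 / 100) : |X.trace| < 2 := by
  have x00 := abs_le.mp (hX 0 0)
  have x11 := abs_le.mp (hX 1 1)
  simp only [rot, Matrix.of_apply, Matrix.cons_val', Matrix.cons_val_zero, Matrix.cons_val_one,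
    Matrix.cons_val_fin_one] at x00 x11
  rw [Matrix.trace_fin_two]
  have hc := Real.abs_cos_le_one ψ
  have hsc := Real.sin_sq_add_cos_sq ψ
  have h1 : ρ ^ 2 ≤ Real.sin ψ ^ 2 := by
    rw [← sq_abs (Real.sin ψ)]
    exact pow_le_pow_left₀ hρ0.le hρ 2
  have h2 : |Real.cos ψ| ^ 2 = Real.cos ψ ^ 2 := sq_abs _
  have h3 : 2 * |Real.cos ψ| ≤ 2 - ρ ^ 2 := by nlinarith [abs_nonneg (Real.cos ψ)]
  have h4 := neg_abs_le (Real.cos ψ)
  have h5 := le_abs_self (Real.cos ψ)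
  have h6 : 0 < ρ ^ 2 := by positivity
  rw [abs_lt]
  constructor <;> linarith

lemma params (C C2 M ε : ℝ) (hC : 0 < C) (hε : 0 < ε) : ∃ (R0 V0 ρ δ η : ℝ) (K n : ℕ),
    1 ≤ R0 ∧ M ≤ R0 ∧ 0 < ρ ∧ 7 * ρ ≤ ε / 2 ∧ δ = ρ ^ 2 / 100 ∧ δ ≤ 1 / 4 ∧ 0 < η ∧ η ≤ 1 ∧
    C * Real.exp (C * V0) * η ≤ δ ∧ 1 ≤ K ∧ η * (1 + Real.log K) ≤ V0 ∧
    4 * R0 / η + |C2| ≤ (1 / 2) * Real.log K ∧ V0 ≤ n ∧ 0 < (n : ℝ) := by
  set R0 : ℝ := max M 1 with hR0
  have hR1 : 1 ≤ R0 := le_max_right _ _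
  have hRM : M ≤ R0 := le_max_left _ _
  set V0 : ℝ := 2 + 8 * R0 + 2 * |C2| with hV0
  have hV0pos : 0 < V0 := by positivity
  set ρ : ℝ := min (ε / 14) 1 with hρ
  have hρ0 : 0 < ρ := lt_min (by positivity) one_pos
  have hρ1 : ρ ≤ 1 := min_le_right _ _
  set δ : ℝ := ρ ^ 2 / 100 with hδ
  have hδ0 : 0 < δ := by positivity
  have hδ4 : δ ≤ 1 / 4 := by
    have : ρ ^ 2 ≤ 1 := by nlinarith
    linarith
  set η : ℝ := min (δ / (C * Real.exp (C * V0))) 1 with hη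
  have hη0 : 0 < η := lt_min (by positivity) one_pos
  have hη1 : η ≤ 1 := min_le_right _ _
  have hηδ : C * Real.exp (C * V0) * η ≤ δ := by
    have h1 : η ≤ δ / (C * Real.exp (C * V0)) := min_le_left _ _
    rw [le_div_iff₀ (by positivity)] at h1
    linarith
  set x : ℝ := 2 * (4 * R0 / η + |C2|) with hx
  have hx0 : 0 ≤ x := by positivity
  set K : ℕ := ⌈Real.exp x⌉₊ with hK
  have hKexp : Real.exp x ≤ K := Nat.le_ceil _
  have hK1 : 1 ≤ K := by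
    have : (0 : ℝ) < K := (Real.exp_pos x).trans_le hKexp
    exact_mod_cast this
  have hKr : (1 : ℝ) ≤ K := by exact_mod_cast hK1
  have hlogK : x ≤ Real.log K := by
    rw [← Real.log_exp x]
    exact Real.log_le_log (Real.exp_pos x) hKexp
  have hlogK2 : Real.log K ≤ x + 1 := by
    have h1 : (K : ℝ) ≤ Real.exp x * 2 := by
      have := (Nat.ceil_lt_add_one (Real.exp_pos x).le).le
      have h2 := Real.one_le_exp hx0
      linarith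
    calc Real.log K ≤ Real.log (Real.exp x * 2) := Real.log_le_log (by linarith) h1
      _ = x + Real.log 2 := by rw [Real.log_mul (Real.exp_pos x).ne' (by norm_num), Real.log_exp]
      _ ≤ x + 1 := by linarith [Real.log_two_lt_d9]
  have hV : η * (1 + Real.log K) ≤ V0 := by
    have h1 : η * (1 + Real.log K) ≤ η * (2 + x) := mul_le_mul_of_nonneg_left (by linarith) hη0.le
    have h2 : η * (2 + x) = 2 * η + 8 * R0 + 2 * (η * |C2|) := by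
      rw [hx]; field_simp; ring
    have h3 : η * |C2| ≤ 1 * |C2| := mul_le_mul_of_nonneg_right hη1 (abs_nonneg _)
    linarith
  refine ⟨R0, V0, ρ, δ, η, K, ⌈V0⌉₊ + 1, hR1, hRM, hρ0, ?_, rfl, hδ4, hη0, hη1, hηδ, hK1, hV,
    ?_, ?_, ?_⟩
  · have : ρ ≤ ε / 14 := min_le_left _ _
    linarith
  · rw [hx] at hlogK; linarith
  · exact (Nat.le_ceil V0).trans (by push_cast; linarith)
  · positivity

lemma choose_l (R0 V0 η C2 s S G : ℝ) (K n : ℕ) (hR1 : 1 ≤ R0) (hη0 : 0 < η)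
    (hV : η * (1 + Real.log K) ≤ V0) (hK : 4 * R0 / η + |C2| ≤ (1 / 2) * Real.log K)
    (hnV : V0 ≤ n) (hnpos : 0 < (n : ℝ)) (hs1 : 1 ≤ 4 * s) (hs2 : s ≤ 1)
    (hSlow : (1 / 2) * Real.log K - C2 ≤ S) (hSup : S ≤ 1 + Real.log K)
    (hG2 : 2 ≤ G) (hGR : G ≤ R0) :
    ∃ l : ℕ, l ≤ n ∧ Real.exp (2 * ((l : ℝ) / n * η / (4 * s) * S)) ≤ G ∧
      G / 8 ≤ Real.exp (2 * ((l : ℝ) / n * η / (4 * s) * S)) ∧
      0 ≤ (l : ℝ) / n * η / (4 * s) * S := by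
  have hS1 : 4 * R0 / η ≤ S := by
    have h1 := le_abs_self C2
    linarith
  have hsin4 : 4 * s ≤ 4 := by linarith
  have hsinpos : 0 < 4 * s := by linarith
  set r1 := η / (4 * s) * S with hr1
  have hS0 : 0 < S := lt_of_lt_of_le (by positivity) hS1
  have hr1lo : R0 ≤ r1 := by
    have h1 : η / 4 ≤ η / (4 * s) := div_le_div_of_nonneg_left hη0.le hsinpos hsin4
    calc R0 = η / 4 * (4 * R0 / η) := by field_simp
      _ ≤ η / 4 * S := mul_le_mul_of_nonneg_left hS1 (by positivity)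
      _ ≤ r1 := mul_le_mul_of_nonneg_right h1 hS0.le
  have hr1hi : r1 ≤ V0 := by
    have h1 : η / (4 * s) ≤ η := div_le_self hη0.le hs1
    calc r1 ≤ η * S := mul_le_mul_of_nonneg_right h1 hS0.le
      _ ≤ η * (1 + Real.log K) := mul_le_mul_of_nonneg_left hSup hη0.le
      _ ≤ V0 := hV
  have hr1pos : 0 < r1 := by linarith
  set y := (1 / 2) * Real.log G with hy
  have hy0 : 0 ≤ y := by
    have := Real.log_nonneg (show 1 ≤ G by linarith)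
    rw [hy]; linarith
  have hyR : y ≤ R0 := by
    have h1 : Real.log G ≤ G - 1 := Real.log_le_sub_one_of_pos (by linarith)
    rw [hy]
    linarith
  have hexpy : Real.exp (2 * y) = G := by
    rw [hy, show 2 * (1 / 2 * Real.log G) = Real.log G by ring, Real.exp_log (by linarith)]
  have hyr : y / r1 ≤ 1 := by rw [div_le_one hr1pos]; linarith
  have hyr0 : 0 ≤ y / r1 := by positivity
  have hl1 : ((⌊y / r1 * n⌋₊ : ℕ) : ℝ) ≤ y / r1 * n := Nat.floor_le (by positivity)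
  have hl2 : y / r1 * n < ((⌊y / r1 * n⌋₊ : ℕ) : ℝ) + 1 := Nat.lt_floor_add_one _
  generalize ⌊y / r1 * n⌋₊ = l at hl1 hl2
  have hln : l ≤ n := by
    have : (l : ℝ) ≤ n := hl1.trans (by
      calc y / r1 * n ≤ 1 * n := mul_le_mul_of_nonneg_right hyr hnpos.le
        _ = n := one_mul _)
    exact_mod_cast this
  have hup : (l : ℝ) / n * r1 ≤ y := by
    have : (l : ℝ) / n ≤ y / r1 := by rw [div_le_iff₀ hnpos]; exact hl1
    calc (l : ℝ) / n * r1 ≤ y / r1 * r1 := mul_le_mul_of_nonneg_right this hr1pos.le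
      _ = y := by field_simp
  have hlo : y - 1 ≤ (l : ℝ) / n * r1 := by
    have h1 : y / r1 ≤ ((l : ℝ) + 1) / n := by rw [le_div_iff₀ hnpos]; exact hl2.le
    have h2 : y ≤ ((l : ℝ) + 1) / n * r1 := by
      calc y = y / r1 * r1 := by field_simp
        _ ≤ _ := mul_le_mul_of_nonneg_right h1 hr1pos.le
    have h3 : ((l : ℝ) + 1) / n * r1 = (l : ℝ) / n * r1 + r1 / n := by field_simp
    have h4 : r1 / n ≤ 1 := by rw [div_le_one hnpos]; linarith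
    linarith
  have hr : (l : ℝ) / n * η / (4 * s) * S = (l : ℝ) / n * r1 := by rw [hr1]; ring
  refine ⟨l, hln, ?_, ?_, ?_⟩
  · rw [hr, ← hexpy]
    exact Real.exp_le_exp.mpr (by linarith)
  · rw [hr]
    have h1 : Real.exp (2 * y - 2) ≤ Real.exp (2 * ((l : ℝ) / n * r1)) :=
      Real.exp_le_exp.mpr (by linarith)
    rw [Real.exp_sub, hexpy] at h1
    have h2 : Real.exp 2 ≤ 8 := by
      have := Real.exp_one_lt_d9
      have h3 : Real.exp 2 = Real.exp 1 * Real.exp 1 := by rw [← Real.exp_add]; norm_num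
      rw [h3]
      nlinarith [Real.exp_pos 1]
    have h4 : G / 8 ≤ G / Real.exp 2 :=
      div_le_div_of_nonneg_left (by linarith) (Real.exp_pos 2) h2
    linarith
  · rw [hr]
    have : 0 ≤ (l : ℝ) / n := by positivity
    exact mul_nonneg this hr1pos.le

lemma numeric (T nsF G e e' δ : ℝ) (b1 : T ≤ 2 * nsF) (b2 : nsF ≤ 2 * T) (hG : 2 ≤ G)
    (hδ : δ ≤ 1 / 4) (h1 : |nsF - (e + e')| ≤ δ) (he : e ≤ G) (he8 : G / 8 ≤ e) (he0 : 0 < e')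
    (he1 : e' ≤ 1) (hee : 2 ≤ e + e') : T ≤ 20 * G ∧ G ≤ 20 * T := by
  have h := abs_le.mp h1
  constructor <;> linarith [h.1, h.2]

/-- closeness of the words to a rotation, and the size of their left halves -/
def Close (θ η δ : ℝ) (K : ℕ) : Prop := ∀ j : ℕ, j ≤ K → ∀ η' : ℝ, 0 ≤ η' → η' ≤ η →
  (∀ i k, |Th θ (qf (ctr K j) η' K) i k - rot (((2 * K + 1 : ℕ) : ℝ) * θ) i k| ≤ δ) ∧
  |ns (Th θ ((qf (ctr K j) η' K).take K)) - (Real.exp (2 * (η' / (4 * Real.sin θ) *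
    ∑ m ∈ Finset.Icc 1 K, Real.cos (2 * (θ - ctr K j) * m) / m)) + Real.exp (-(2 * (η' /
    (4 * Real.sin θ) * ∑ m ∈ Finset.Icc 1 K, Real.cos (2 * (θ - ctr K j) * m) / m))))| ≤ δ

lemma close_of (C V0 η δ : ℝ) (hC : 0 < C) (K : ℕ) (hK1 : 1 ≤ K)
    (hwvn : ∀ θ φ η : ℝ, θ ∈ Set.Icc (Real.pi/8) (3*Real.pi/8) → φ ∈ Set.Icc (Real.pi/8) (3*Real.pi/8) → 0 ≤ η → η ≤ 1 → ∀ L : ℕ, 1 ≤ L → (∀ i j, |Th θ (qf φ η L) i j - rot ((2 * L + 1) * θ) i j| ≤ C * Real.exp (C * (η * (1 + Real.log L))) * η) ∧ |ns (Th θ ((qf φ η L).take L)) - (Real.exp (2 * (η / (4 * Real.sin θ) * ∑ m ∈ Finset.Icc 1 L, Real.cos (2 * (θ - φ) * m) / m)) + Real.exp (-(2 * (η / (4 * Real.sin θ) * ∑ m ∈ Finset.Icc 1 L, Real.cos (2 * (θ - φ) * m) / m))))| ≤ C * Real.exp (C * (η * (1 + Real.log L))) * η)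
    (hη0 : 0 < η) (hη1 : η ≤ 1) (hηδ : C * Real.exp (C * V0) * η ≤ δ)
    (hV : η * (1 + Real.log K) ≤ V0) (θ : ℝ) (hθ : θ ∈ Set.Icc (Real.pi/8) (3*Real.pi/8)) :
    Close θ η δ K := by
  intro j hj η' h0 h1
  have hlog : 0 ≤ Real.log K := Real.log_natCast_nonneg K
  obtain ⟨h2, h3⟩ := hwvn θ (ctr K j) η' hθ (ctr_mem K j hj) h0 (h1.trans hη1) K hK1
  have h4 : C * Real.exp (C * (η' * (1 + Real.log K))) * η' ≤ δ := by
    refine le_trans ?_ hηδ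
    have h5 : η' * (1 + Real.log K) ≤ V0 :=
      (mul_le_mul_of_nonneg_right h1 (by linarith)).trans hV
    have h6 : Real.exp (C * (η' * (1 + Real.log K))) ≤ Real.exp (C * V0) :=
      Real.exp_le_exp.mpr (mul_le_mul_of_nonneg_left h5 hC.le)
    exact mul_le_mul (mul_le_mul_of_nonneg_left h6 hC.le) h1 h0 (by positivity)
  refine ⟨fun i k => ?_, h3.trans h4⟩
  have := h2 i k
  rw [show ((2 * K + 1 : ℕ) : ℝ) = 2 * K + 1 by push_cast; ring]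
  exact this.trans h4

lemma div_mem (l n : ℕ) (hn : 0 < (n : ℝ)) (hl : l ≤ n) :
    0 ≤ (l : ℝ) / n ∧ (l : ℝ) / n ≤ 1 := by
  refine ⟨by positivity, ?_⟩
  rw [div_le_one hn]
  exact_mod_cast hl

lemma eta_mem (l n : ℕ) (hn : 0 < (n : ℝ)) (hl : l ≤ n) (η : ℝ) (hη : 0 ≤ η) :
    0 ≤ (l : ℝ) / n * η ∧ (l : ℝ) / n * η ≤ η := by
  obtain ⟨h0, h1⟩ := div_mem l n hn hl
  refine ⟨mul_nonneg h0 hη, ?_⟩
  calc (l : ℝ) / n * η ≤ 1 * η := mul_le_mul_of_nonneg_right h1 hη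
    _ = η := one_mul η

lemma good_qlist (K n : ℕ) (η δ ρ θ : ℝ) (hnpos : 0 < (n : ℝ)) (hη0 : 0 ≤ η)
    (hclose : Close θ η δ K) (hδ : δ = ρ ^ 2 / 100) (hρ0 : 0 < ρ)
    (hρs : ρ ≤ |Real.sin (((2 * K + 1 : ℕ) : ℝ) * θ)|) : ∀ q ∈ qlist K n η, GoodQ θ q := by
  intro q hq s hs
  rw [mem_qlist] at hq
  obtain ⟨j, hj, l, hl, rfl⟩ := hq
  unfold XX
  rw [qf_map]
  obtain ⟨h3, h2⟩ := eta_mem l n hnpos hl η hη0
  have h4 := (hclose j hj (s * ((l : ℝ) / n * η)) (mul_nonneg hs.1 h3) (by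
    calc s * ((l : ℝ) / n * η) ≤ 1 * ((l : ℝ) / n * η) := mul_le_mul_of_nonneg_right hs.2 h3
      _ ≤ η := by linarith)).1
  exact trace_lt _ _ ρ δ h4 hρs hρ0 hδ.le

lemma cover (C2 R0 V0 η δ ρ θ : ℝ) (K n : ℕ)
    (hC2 : ∀ (K L : ℕ) (d : ℝ), 1 ≤ K → K ≤ L → |d| ≤ 1 / K → (1 / 2) * Real.log K - C2 ≤ ∑ m ∈ Finset.Icc 1 L, Real.cos (2 * d * m) / m)
    (hR1 : 1 ≤ R0) (hρ0 : 0 < ρ) (hδ : δ = ρ ^ 2 / 100) (hδ4 : δ ≤ 1 / 4) (hη0 : 0 < η)
    (hK1 : 1 ≤ K) (hV : η * (1 + Real.log K) ≤ V0)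
    (hK : 4 * R0 / η + |C2| ≤ (1 / 2) * Real.log K) (hnV : V0 ≤ n) (hnpos : 0 < (n : ℝ))
    (hθ : θ ∈ Set.Icc (Real.pi/8) (3*Real.pi/8)) (hclose : Close θ η δ K)
    (hρs : ρ ≤ |Real.sin (((2 * K + 1 : ℕ) : ℝ) * θ)|) (Zq : List ℝ → M2)
    (hZq : ∀ q ∈ qlist K n η, IsFix (Th θ q) (Zq q) ∧
        Real.sqrt (4 - (Th θ q).trace ^ 2) * Zq q 0 0 = 2 * |(Th θ q) 0 1| ∧
        Real.sqrt (4 - (Th θ q).trace ^ 2) * |Zq q 0 1| = |(Th θ q) 0 0 - (Th θ q) 1 1|)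
    (g : M2) (hg : g.det = 1) (hgM : ns g ≤ R0) : ∃ q ∈ qlist K n η,
      (Th θ (q.take K) * Zq q * (Th θ (q.take K))ᵀ).trace ≤ 20 * ns g ∧
      ns g ≤ 20 * (Th θ (q.take K) * Zq q * (Th θ (q.take K))ᵀ).trace := by
  have hg2 := ns_ge_two g hg
  obtain ⟨j, hj, hjθ⟩ := exists_ctr K hK1 θ hθ
  obtain ⟨l, hl, e1, e3, hr0⟩ := choose_l R0 V0 η C2 (Real.sin θ)
    (∑ m ∈ Finset.Icc 1 K, Real.cos (2 * (θ - ctr K j) * m) / m) (ns g) K n hR1 hη0 hV hK hnV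
    hnpos (four_sin θ hθ) (Real.sin_le_one θ) (hC2 K K (θ - ctr K j) hK1 le_rfl hjθ)
    ((le_abs_self _).trans (sum_abs_le K hK1 (θ - ctr K j))) hg2 hgM
  obtain ⟨h01, h02⟩ := eta_mem l n hnpos hl η hη0.le
  obtain ⟨hcl, hns⟩ := hclose j hj ((l : ℝ) / n * η) h01 h02
  have hq : qf (ctr K j) ((l : ℝ) / n * η) K ∈ qlist K n η := by
    rw [mem_qlist]
    exact ⟨j, hj, l, hl, rfl⟩
  refine ⟨qf (ctr K j) ((l : ℝ) / n * η) K, hq, ?_⟩
  obtain ⟨z1, z2, z3⟩ := hZq _ hq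
  obtain ⟨b1, b2⟩ := form_bound (Th θ (qf (ctr K j) ((l : ℝ) / n * η) K))
    (Zq (qf (ctr K j) ((l : ℝ) / n * η) K)) (((2 * K + 1 : ℕ) : ℝ) * θ) ρ δ
    z1 z2 z3 hcl hρs hρ0 hδ.le (Th θ ((qf (ctr K j) ((l : ℝ) / n * η) K).take K))
  generalize (l : ℝ) / n * η / (4 * Real.sin θ) *
    ∑ m ∈ Finset.Icc 1 K, Real.cos (2 * (θ - ctr K j) * m) / m = r at e1 e3 hr0 hns
  have e2 : Real.exp (-(2 * r)) ≤ 1 := by
    rw [← Real.exp_zero]; exact Real.exp_le_exp.mpr (by linarith)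
  have e4 : 2 ≤ Real.exp (2 * r) + Real.exp (-(2 * r)) := by
    have h1 := Real.add_one_le_exp (2 * r)
    have h2 := Real.add_one_le_exp (-(2 * r))
    linarith
  exact numeric _ _ _ _ _ δ b1 b2 hg2 hδ4 hns e1 e3 (Real.exp_pos _) e2 e4

lemma exists_Zq (θ : ℝ) (qs : List (List ℝ)) (hgood : ∀ q ∈ qs, GoodQ θ q) :
    ∃ Zq : List ℝ → M2, ∀ q ∈ qs, IsFix (Th θ q) (Zq q) ∧
        Real.sqrt (4 - (Th θ q).trace ^ 2) * Zq q 0 0 = 2 * |(Th θ q) 0 1| ∧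
        Real.sqrt (4 - (Th θ q).trace ^ 2) * |Zq q 0 1| = |(Th θ q) 0 0 - (Th θ q) 1 1| := by
  have hZ : ∀ q : List ℝ, ∃ Z : M2, q ∈ qs → (IsFix (Th θ q) Z ∧
      Real.sqrt (4 - (Th θ q).trace ^ 2) * Z 0 0 = 2 * |(Th θ q) 0 1| ∧
      Real.sqrt (4 - (Th θ q).trace ^ 2) * |Z 0 1| = |(Th θ q) 0 0 - (Th θ q) 1 1|) := by
    intro q
    by_cases hq : q ∈ qs
    · have htr : |(Th θ q).trace| < 2 := by
        have := hgood q hq 1 ⟨by norm_num, le_refl _⟩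
        rwa [XX_one] at this
      obtain ⟨Z, h1, h2, h3⟩ := exists_Z (Th θ q) (Th_det θ q) htr
      exact ⟨Z, fun _ => ⟨h1, h2, h3⟩⟩
    · exact ⟨1, fun h => absurd h hq⟩
  choose Zq hZq using hZ
  exact ⟨Zq, hZq⟩

lemma irr_qlist (K n : ℕ) (η : ℝ) (G : Set ℝ) (hG : G ⊆ Icc (Real.pi / 8) (3 * Real.pi / 8)) :
    ∀ᵐ θ ∂(volume.restrict G), ∀ q ∈ qlist K n η, |(Th θ q).trace| < 2 →
      Irrational (Real.arccos ((Th θ q).trace / 2) / Real.pi) := by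
  have h1 : ∀ q ∈ (qlist K n η).toFinset, ∀ᵐ θ ∂(volume.restrict G), |(Th θ q).trace| < 2 →
      Irrational (Real.arccos ((Th θ q).trace / 2) / Real.pi) := by
    intro q hq
    have hq' : q ∈ qlist K n η := by simpa using hq
    rw [mem_qlist] at hq'
    obtain ⟨j, hj, l, hl, rfl⟩ := hq'
    have h2 := irr_ae (qf (ctr K j) ((l : ℝ) / n * η) K) (by
      intro h
      have := congrArg List.length h
      simp [qf] at this)
    exact ae_restrict_of_ae_restrict_of_subset hG h2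
  have h2 := (Filter.eventually_all_finset (qlist K n η).toFinset).mpr h1
  filter_upwards [h2] with θ hθ q hq
  exact hθ q (by simpa using hq)

theorem universal_block : ∃ C1 : ℝ, ∀ (M ε : ℝ), 0 < ε → ∃ w : List ℝ, (∀ b ∈ w, |b| ≤ 1) ∧
    volume {θ ∈ Icc (Real.pi / 8) (3 * Real.pi / 8) | ¬ PG M C1 θ w} ≤ ENNReal.ofReal ε := by
  obtain ⟨C1, hC1⟩ := align 20 (by norm_num)
  obtain ⟨C, hC, hwvn⟩ := wvn
  obtain ⟨C2, hC2⟩ := cos_sum_lower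
  refine ⟨C1, fun M ε hε => ?_⟩
  obtain ⟨R0, V0, ρ, δ, η, K, n, hR1, hRM, hρ0, h7, hδ, hδ4, hη0, hη1, hηδ, hK1, hV, hK, hnV,
    hnpos⟩ := params C C2 M ε hC hε
  have hpi := Real.pi_pos
  have hclose : ∀ θ ∈ Icc (Real.pi / 8) (3 * Real.pi / 8), Close θ η δ K := fun θ hθ =>
    close_of C V0 η δ hC K hK1 hwvn hη0 hη1 hηδ hV θ hθ
  -- the good set
  set G : Set ℝ := {θ ∈ Icc (Real.pi / 8) (3 * Real.pi / 8) |
    ¬ |Real.sin (((2 * K + 1 : ℕ) : ℝ) * θ)| < ρ} with hG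
  have hGI : G ⊆ Icc (Real.pi / 8) (3 * Real.pi / 8) := fun θ hθ => hθ.1
  have hGm : MeasurableSet G := by
    have h1 : MeasurableSet {θ : ℝ | |Real.sin (((2 * K + 1 : ℕ) : ℝ) * θ)| < ρ} :=
      measurableSet_lt (Real.continuous_sin.comp (continuous_const.mul continuous_id)).abs.measurable
        measurable_const
    exact measurableSet_Icc.inter h1.compl
  have hGfin : volume G ≠ ⊤ := by
    refine ne_top_of_le_ne_top ?_ (measure_mono hGI)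
    rw [Real.volume_Icc]
    exact ENNReal.ofReal_ne_top
  have hGsub : G ⊆ Ioo 0 Real.pi := by
    intro θ hθ
    exact ⟨by linarith [hθ.1.1], by linarith [hθ.1.2]⟩
  have hpt : ∀ᵐ θ ∂(volume.restrict G), ∃ H0, ∀ H ≥ H0, ∀ᶠ J in atTop,
      PG M C1 θ (UU (qlist K n η) J H) := by
    filter_upwards [irr_qlist K n η G hGI, ae_restrict_mem hGm] with θ hθirr hθG
    have hρs : ρ ≤ |Real.sin (((2 * K + 1 : ℕ) : ℝ) * θ)| := not_lt.mp hθG.2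
    have hgood := good_qlist K n η δ ρ θ hnpos hη0.le (hclose θ hθG.1) hδ hρ0 hρs
    obtain ⟨Zq, hZq⟩ := exists_Zq θ (qlist K n η) hgood
    exact pointwise 20 C1 hC1 θ (qlist K n η) K M hgood hθirr Zq (fun q hq => (hZq q hq).1)
      (fun g hg hgM => cover C2 R0 V0 η δ ρ θ K n hC2 hR1 hρ0 hδ hδ4 hη0 hK1 hV hK hnV hnpos
        hθG.1 (hclose θ hθG.1) hρs Zq hZq g hg (hgM.trans hRM))
  obtain ⟨J, H, hJH⟩ := block_exists M C1 (qlist K n η) G hGsub hGfin hGm hpt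
    (ENNReal.ofReal (ε / 2)) (by rw [ENNReal.ofReal_pos]; linarith)
  refine ⟨UU (qlist K n η) J H, ?_, ?_⟩
  · apply abs_UU
    intro q hq
    rw [mem_qlist] at hq
    obtain ⟨j, hj, l, hl, rfl⟩ := hq
    obtain ⟨h01, h02⟩ := eta_mem l n hnpos hl η hη0.le
    exact abs_qf _ _ h01 (h02.trans hη1) _
  · have hsub : {θ ∈ Icc (Real.pi / 8) (3 * Real.pi / 8) | ¬ PG M C1 θ (UU (qlist K n η) J H)} ⊆
        {θ ∈ Icc (Real.pi / 8) (3 * Real.pi / 8) |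
          |Real.sin (((2 * K + 1 : ℕ) : ℝ) * θ)| < ρ} ∪
        {θ ∈ G | ¬ PG M C1 θ (UU (qlist K n η) J H)} := by
      intro θ hθ
      by_cases h : |Real.sin (((2 * K + 1 : ℕ) : ℝ) * θ)| < ρ
      · exact Or.inl ⟨hθ.1, h⟩
      · exact Or.inr ⟨⟨hθ.1, h⟩, hθ.2⟩
    refine (measure_mono hsub).trans ((measure_union_le _ _).trans ?_)
    calc volume {θ ∈ Icc (Real.pi / 8) (3 * Real.pi / 8) |
          |Real.sin (((2 * K + 1 : ℕ) : ℝ) * θ)| < ρ} +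
          volume {θ ∈ G | ¬ PG M C1 θ (UU (qlist K n η) J H)}
        ≤ ENNReal.ofReal (ε / 2) + ENNReal.ofReal (ε / 2) :=
          add_le_add ((lost_vol (2 * K + 1) (by omega) ρ hρ0).trans
            (ENNReal.ofReal_le_ofReal h7)) hJH
      _ = ENNReal.ofReal ε := by
          rw [← ENNReal.ofReal_add (by positivity) (by positivity), add_halves]

end Pool.Agent.H508R3.SC
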