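import Pool.Agent.H508R3.SC
import Pool.Agent.H725R3.SC2x508
import Pool.Agent.H5R3.SC1x508
import Pool.Agent.H252R3.SC3x508
import Pool.Agent.H483R3.SC4508

set_option autoImplicit false

namespace Pool.Agent.H508R3.SC

open MeasureTheory Filter Topology Set Matrix

/-- products of the matrices `X (k/J)` -/
noncomputable def PJ (X : ℝ → M2) (J : ℕ) : ℕ → M2
  | 0 => 1
  | (k + 1) => X (((k + 1 : ℕ) : ℝ) / J) * PJ X J k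

lemma PJ_eq (X : ℝ → M2) (J k : ℕ) : PJ X J k = Pool.Agent.H252R3.SC3.PJ X J k := by
  induction k with
  | zero => rfl
  | succ k ih => simp only [PJ, Pool.Agent.H252R3.SC3.PJ, ih]

theorem adiabatic (X : ℝ → M2) (hX : ∀ i j, ContDiff ℝ 3 (fun s => X s i j))
    (hdet : ∀ s, (X s).det = 1) (htr : ∀ s ∈ Set.Icc (0:ℝ) 1, |(X s).trace| < 2) (Z0 Z1 : M2)
    (h0 : Z0.IsSymm ∧ Z0.det = 1 ∧ 0 < Z0 0 0 ∧ X 0 * Z0 * (X 0)ᵀ = Z0)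
    (h1 : Z1.IsSymm ∧ Z1.det = 1 ∧ 0 < Z1 0 0 ∧ X 1 * Z1 * (X 1)ᵀ = Z1) (Q : ℕ → M2)
    (hQ : Tendsto Q atTop (𝓝 Z0)) :
    Tendsto (fun J : ℕ => PJ X J J * Q J * (PJ X J J)ᵀ) atTop (𝓝 Z1) := by
  have h := Pool.Agent.H252R3.SC3.adiabatic X hX hdet htr Z0 Z1 h0 h1 Q hQ
  simpa only [PJ_eq] using h

theorem align (κ : ℝ) (hκ : 1 ≤ κ) : ∃ C1 : ℝ, ∀ (M : ℝ) (X Z F : M2), X.det = 1 → F.det = 1 →
    |X.trace| < 2 → Irrational (Real.arccos (X.trace / 2) / Real.pi) → Z.IsSymm → Z.det = 1 →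
    0 < Z 0 0 → X * Z * Xᵀ = Z → ∃ H : ℕ, ∃ δ > 0, ∀ B g : M2, B.det = 1 → g.det = 1 →
    (∀ i j, |(B * Bᵀ - Z) i j| ≤ δ) → ns g ≤ M → (F * Z * Fᵀ).trace ≤ κ * ns g →
    ns g ≤ κ * (F * Z * Fᵀ).trace → ∃ h < H, ns (F * X ^ h * B * g) ≤ C1 :=
  Pool.Agent.H483R3.SC4508.align κ hκ

theorem wvn : ∃ C : ℝ, 0 < C ∧ ∀ θ φ η : ℝ, θ ∈ Set.Icc (Real.pi/8) (3*Real.pi/8) →
    φ ∈ Set.Icc (Real.pi/8) (3*Real.pi/8) → 0 ≤ η → η ≤ 1 → ∀ L : ℕ, 1 ≤ L →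
    (∀ i j, |Th θ (qf φ η L) i j - rot ((2 * L + 1) * θ) i j| ≤
      C * Real.exp (C * (η * (1 + Real.log L))) * η) ∧
    |ns (Th θ ((qf φ η L).take L)) -
      (Real.exp (2 * (η / (4 * Real.sin θ) * ∑ m ∈ Finset.Icc 1 L, Real.cos (2 * (θ - φ) * m) / m))
      + Real.exp (-(2 * (η / (4 * Real.sin θ) *
        ∑ m ∈ Finset.Icc 1 L, Real.cos (2 * (θ - φ) * m) / m))))| ≤
      C * Real.exp (C * (η * (1 + Real.log L))) * η :=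
  Pool.Agent.H5R3.SC1.wvn

theorem cos_sum_lower : ∃ C : ℝ, ∀ (K L : ℕ) (d : ℝ), 1 ≤ K → K ≤ L → |d| ≤ 1 / K →
    (1 / 2) * Real.log K - C ≤ ∑ m ∈ Finset.Icc 1 L, Real.cos (2 * d * m) / m :=
  Pool.Agent.H725R3.SC2.cos_sum_lower

theorem sum_abs_le (L : ℕ) (hL : 1 ≤ L) (d : ℝ) :
    |∑ m ∈ Finset.Icc 1 L, Real.cos (2 * d * m) / m| ≤ 1 + Real.log L :=
  Pool.Agent.H725R3.SC2.sum_abs_le L d hL

theorem irr_ae (w : List ℝ) (hw : w ≠ []) :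
    ∀ᵐ θ ∂(volume.restrict (Set.Icc (Real.pi/8) (3*Real.pi/8))), |(Th θ w).trace| < 2 →
      Irrational (Real.arccos ((Th θ w).trace / 2) / Real.pi) :=
  Pool.Agent.H725R3.SC2.irr_ae w hw

end Pool.Agent.H508R3.SC
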