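import Pool.Agent.H508R3.Sets2

set_option autoImplicit false

namespace Pool.Agent.H508R3

open MeasureTheory Filter Topology

/-- dependent choice for sequences of parameters -/
theorem exists_seq (Q : ℕ → (ℕ → ℕ) → Prop)
    (hcongr : ∀ k m m', (∀ j ≤ k, m j = m' j) → Q k m → Q k m')
    (hstep : ∀ k m, ∃ v, Q k (Function.update m k v)) : ∃ m, ∀ k, Q k m := by
  choose v hv using hstep
  set f : ℕ → (ℕ → ℕ) := fun k => Nat.rec (fun _ => 0) (fun k g => Function.update g k (v k g)) k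
    with hf
  have hf1 : ∀ k, f (k + 1) = Function.update (f k) k (v k (f k)) := fun k => rfl
  have hagree : ∀ k l, k < l → f l k = f (k + 1) k := by
    intro k l hkl
    induction l, hkl using Nat.le_induction with
    | base => rfl
    | succ l hl ih =>
      rw [hf1 l, Function.update_of_ne (by omega : k ≠ l), ih]
  refine ⟨fun k => f (k + 1) k, fun k => ?_⟩
  have h1 := hv k (f k)
  rw [← hf1 k] at h1
  refine hcongr k _ _ ?_ h1
  intro j hj
  exact hagree j (k + 1) (by omega)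

section congr

variable {m m' : ℕ → ℕ}

lemma hh_congr {k : ℕ} (h : ∀ j < k, m j = m' j) : hh m k = hh m' k := by
  induction k with
  | zero => rfl
  | succ k ih =>
    simp only [hh]
    rw [ih (fun j hj => h j (by omega)), h k (by omega)]

lemma NN_congr {k : ℕ} (h : ∀ j < k, m j = m' j) : NN m k = NN m' k := by
  unfold NN
  rw [hh_congr h]

lemma ind_congr {j : ℕ} (h : ∀ i ≤ j, m i = m' i) (n : ℤ) : ind m j n = ind m' j n := by
  unfold ind
  rw [hh_congr (k := j) (fun i hi => h i hi.le), NN_congr (k := j) (fun i hi => h i hi.le),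
    NN_congr (k := j + 1) (fun i hi => h i (by omega))]

lemma tau_congr {k : ℕ} (h : ∀ j < k, m j = m' j) : tau m k = tau m' k := by
  unfold tau
  rw [NN_congr h]

lemma Vk_congr {k : ℕ} (h : ∀ j < k, m j = m' j) : Vk m (tau m) k = Vk m' (tau m') k := by
  funext n
  unfold Vk
  congr 1
  apply Finset.sum_congr rfl
  intro j hj
  have hj' := Finset.mem_range.mp hj
  rw [tau_congr (fun i hi => h i (by omega)), ind_congr (fun i hi => h i (by omega))]

lemma tr_congr {k : ℕ} (h : ∀ j < k, m j = m' j) : tr m k = tr m' k := by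
  unfold tr
  rw [Vk_congr h, NN_congr h]

lemma ph_congr {k : ℕ} (h : ∀ j < k, m j = m' j) : ph m k = ph m' k := by
  funext e
  unfold ph
  rw [tr_congr h]

lemma Sg_congr {k : ℕ} (h : ∀ j ≤ k, m j = m' j) : Sg m k = Sg m' k := by
  induction k with
  | zero =>
    simp only [Sg]
    rw [tr_congr (k := 1) (fun i hi => h i (by omega))]
  | succ k ih =>
    simp only [Sg]
    rw [ih (fun j hj => h j (by omega)), tau_congr (k := k + 1) (fun i hi => h i (by omega)),
      h (k + 1) le_rfl, ph_congr (k := k + 1) (fun i hi => h i (by omega))]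

end congr

/-- growth threshold -/
lemma growth (K c : ℝ) (hc : 0 < c) : ∃ M : ℕ, ∀ v : ℕ, M ≤ v →
    K * (2 * v + 1) ≤ (1 + c) ^ ((v - 1) / 2) := by
  have h1 : Tendsto (fun j : ℕ => |K| * (4 * (j : ℝ) + 5) * ((1 + c)⁻¹) ^ j) atTop (𝓝 0) := by
    have hr0 : (0 : ℝ) ≤ (1 + c)⁻¹ := by positivity
    have hr1 : (1 + c)⁻¹ < 1 := inv_lt_one_of_one_lt₀ (by linarith)
    have h2 := (tendsto_self_mul_const_pow_of_lt_one hr0 hr1).const_mul (|K| * 4)
    have h3 := (tendsto_pow_atTop_nhds_zero_of_lt_one hr0 hr1).const_mul (|K| * 5)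
    have h4 := h2.add h3
    simp only [mul_zero, add_zero] at h4
    refine h4.congr (fun j => ?_)
    ring
  have h2 := (h1.eventually (gt_mem_nhds (show (0 : ℝ) < 1 by norm_num)))
  obtain ⟨j0, hj0⟩ := eventually_atTop.mp h2
  refine ⟨2 * j0 + 2, fun v hv => ?_⟩
  set j := (v - 1) / 2 with hj
  have h3 : j0 ≤ j := by omega
  have h4 := hj0 j h3
  have hpos : (0 : ℝ) < (1 + c) ^ j := by positivity
  rw [inv_pow, ← div_eq_mul_inv, div_lt_one hpos] at h4
  have h5 : v ≤ 2 * j + 2 := by omega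
  have h6 : (v : ℝ) ≤ 2 * j + 2 := by exact_mod_cast h5
  calc K * (2 * v + 1) ≤ |K| * (2 * v + 1) :=
        mul_le_mul_of_nonneg_right (le_abs_self K) (by positivity)
    _ ≤ |K| * (4 * j + 5) := mul_le_mul_of_nonneg_left (by linarith) (abs_nonneg K)
    _ ≤ _ := h4.le

/-- the conditions at level `k` -/
def QQ (k : ℕ) (m : ℕ → ℕ) : Prop :=
  3 ≤ m k ∧ (2 : ℝ) ^ (3 * k + 33) * NN m (k + 1) ≤ (1 + tau m k) ^ ((m k - 1) / 2) ∧
  ∀ k', k = k' + 1 → volume (Bad m k') ≤
    ENNReal.ofReal (8 / ((2 ^ (k' + 5) : ℕ) : ℝ)) * volume (Sg m k')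

lemma QQ_congr (k : ℕ) (m m' : ℕ → ℕ) (h : ∀ j ≤ k, m j = m' j) (hQ : QQ k m) : QQ k m' := by
  obtain ⟨h1, h2, h3⟩ := hQ
  refine ⟨by rw [← h k le_rfl]; exact h1, ?_, ?_⟩
  · rw [← h k le_rfl, ← NN_congr (k := k + 1) (fun i hi => h i (by omega)),
      ← tau_congr (k := k) (fun i hi => h i (by omega))]
    exact h2
  · intro k' hk'
    subst hk'
    have h4 := h3 k' rfl
    unfold Bad at h4 ⊢
    rw [← Sg_congr (k := k') (fun i hi => h i (by omega)), ← h (k' + 1) le_rfl,
      ← ph_congr (k := k' + 1) (fun i hi => h i (by omega))]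
    exact h4

lemma tr_bound (m : ℕ → ℕ) (k : ℕ) (e : ℝ) (he : e ∈ Sg m k) : |(tr m (k + 1)).eval e| ≤ 2 := by
  obtain ⟨z, w, h⟩ := bloch_Sg m k e he
  rw [tr, trp_eval h, abs_mul]
  have := Complex.abs_re_le_norm z
  rw [h.unit] at this
  rw [abs_of_pos (show (0 : ℝ) < 2 by norm_num)]
  linarith

lemma QQ_step (k : ℕ) (m : ℕ → ℕ) : ∃ v, QQ k (Function.update m k v) := by
  have hag : ∀ v, ∀ i < k, Function.update m k v i = m i := fun v i hi =>
    Function.update_of_ne (by omega) _ _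
  obtain ⟨M, hM⟩ := growth ((2 : ℝ) ^ (3 * k + 33) * NN m k) (tau m k) (tau_pos m k)
  have main : ∀ v, max M 3 ≤ v → 3 ≤ Function.update m k v k ∧
      (2 : ℝ) ^ (3 * k + 33) * NN (Function.update m k v) (k + 1) ≤
        (1 + tau (Function.update m k v) k) ^ ((Function.update m k v k - 1) / 2) := by
    intro v hv
    rw [Function.update_self]
    refine ⟨(le_max_right _ _).trans hv, ?_⟩
    rw [NN_succ, NN_congr (hag v), tau_congr (hag v), Function.update_self]
    have := hM v ((le_max_left _ _).trans hv)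
    push_cast
    linarith
  rcases Nat.eq_zero_or_pos k with hk | hk
  · refine ⟨max M 3, (main _ le_rfl).1, (main _ le_rfl).2, fun k' hk' => absurd hk' (by omega)⟩
  · obtain ⟨k', rfl⟩ : ∃ k', k = k' + 1 := ⟨k - 1, by omega⟩
    obtain ⟨v, hv1, hv2⟩ := Pool.Agent.H54R3.Meas508.good_m (ph m (k' + 1)) (ph_meas m (k' + 1))
      (Sg m k') (Sg_meas m k') (vol_fin m k') (by
        intro r hr
        refine measure_mono_null ?_ (Pool.Agent.H54R3.Meas508.null_of_poly (tr m (k' + 1))
          (trp_natDegree _ _ (NN_pos m (k' + 1))) r hr)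
        intro e he
        exact ⟨tr_bound m k' e he.1, he.2⟩) (2 ^ (k' + 5)) Nat.one_le_two_pow (max M 3)
    refine ⟨v, (main v hv1).1, (main v hv1).2, ?_⟩
    intro l hl
    obtain rfl : k' = l := by omega
    unfold Bad
    rw [Sg_congr (m := Function.update m (k' + 1) v) (m' := m) (k := k')
      (fun i hi => hag v i (by omega)), ph_congr (m := Function.update m (k' + 1) v) (m' := m)
      (k := k' + 1) (fun i hi => hag v i hi), Function.update_self]
    exact hv2

/-- the parameters of the potential -/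
theorem exists_params : ∃ (m : ℕ → ℕ) (J : ℕ → ℕ), Hyp m (tau m) J ∧ ∃ S : Set ℝ, MeasurableSet S ∧
    volume S ≠ 0 ∧ ∀ E ∈ S, ∀ u : ℤ → ℝ, (∀ n, HE (Vinf m (tau m)) E u n = 0) →
      ∀ n, u n ^ 2 + u (n + 1) ^ 2 ≤ 4 * 4096 ^ 2 * (u 0 ^ 2 + u 1 ^ 2) := by
  obtain ⟨m, hm⟩ := exists_seq QQ QQ_congr QQ_step
  have hyp : Hyp m (tau m) (fun k => (m k - 1) / 2) := by
    refine ⟨tau_zero m, ?_, tau_pos m, ?_, fun k => by have := (hm k).1; omega, ?_, ?_⟩
    · rw [tau_succ]
      have hN : (1 : ℝ) ≤ NN m 1 := by exact_mod_cast NN_pos m 1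
      rw [div_le_one (by positivity)]
      exact one_le_mul_of_one_le_of_one_le (by norm_num) hN
    · intro k
      rw [tau_succ]
      have hN : (1 : ℝ) ≤ NN m (k + 1) := by exact_mod_cast NN_pos m (k + 1)
      rcases Nat.eq_zero_or_pos k with hk | hk
      · subst hk
        rw [tau_zero, div_le_iff₀ (by positivity)]
        nlinarith
      · obtain ⟨l, rfl⟩ : ∃ l, k = l + 1 := ⟨k - 1, by omega⟩
        rw [tau_succ]
        have hN0 : (0 : ℝ) < NN m (l + 1) := by exact_mod_cast NN_pos m (l + 1)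
        have hNN : (NN m (l + 1) : ℝ) ≤ NN m (l + 1 + 1) := by
          exact_mod_cast NN_le m (Nat.le_succ (l + 1))
        rw [div_div]
        apply one_div_le_one_div_of_le (by positivity)
        have hp : (2 : ℝ) ^ (2 * (l + 1) + 27) = 4 * 2 ^ (2 * l + 27) := by
          rw [show 2 * (l + 1) + 27 = (2 * l + 27) + 2 by ring, pow_add]; ring
        rw [hp]
        have hq : (0 : ℝ) < 2 ^ (2 * l + 27) := by positivity
        nlinarith [mul_le_mul_of_nonneg_left hNN hq.le, mul_pos hq hN0]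
    · intro k
      have h1 := (hm k).1
      have h2 := NN_pos m k
      show 2 * ((m k - 1) / 2) + 1 ≤ m k * NN m k
      calc 2 * ((m k - 1) / 2) + 1 ≤ m k * 1 := by omega
        _ ≤ m k * NN m k := Nat.mul_le_mul_left _ h2
    · intro k
      have h1 := (hm k).2.1
      have hN : (0 : ℝ) < NN m (k + 1) := by exact_mod_cast NN_pos m (k + 1)
      show (2 : ℝ) ^ (k + 6) ≤ tau m (k + 1) * (1 + tau m k) ^ ((m k - 1) / 2)
      rw [tau_succ, one_div, ← div_eq_inv_mul, le_div_iff₀ (by positivity)]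
      refine le_trans (le_of_eq ?_) h1
      rw [show 3 * k + 33 = (k + 6) + (2 * k + 27) by ring, pow_add]
      ring
  exact ⟨m, _, hyp, exists_bounded_set hyp (hm 0).1 (fun k => (hm (k + 1)).2.2 k rfl)⟩

end Pool.Agent.H508R3
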