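import Pool.Agent.H285R3.Step508
import Pool.Agent.H5R3.Base508
import Pool.Agent.H508R3.Pol
import Pool.Agent.H508R3.Lim
import Pool.Agent.H508R3.Gordon

set_option autoImplicit false

namespace Pool.Agent.H508R3

open MeasureTheory Filter Topology

/-- the kicks -/
noncomputable def tau (m : ℕ → ℕ) (k : ℕ) : ℝ :=
  if k = 0 then 10 else 1 / (2 ^ (2 * k + 25) * NN m k)

/-- the trace polynomial at level `k` -/
noncomputable def tr (m : ℕ → ℕ) (k : ℕ) : Polynomial ℝ := trp (Vk m (tau m) k) (NN m k)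

/-- the phase at level `k` -/
noncomputable def ph (m : ℕ → ℕ) (k : ℕ) (e : ℝ) : ℝ := Real.arccos ((tr m k).eval e / 2)

/-- good energies of level `k + 1` -/
def Sg (m : ℕ → ℕ) : ℕ → Set ℝ
  | 0 => {e | -11 < e ∧ e < -9 ∧ |(tr m 1).eval e| < 1}
  | (k + 1) => {e | e + tau m (k + 1) ∈ Sg m k ∧
      ¬ |Real.sin ((2 * m (k + 1) + 1) * ph m (k + 1) (e + tau m (k + 1)))| <
        1 / (4 * ((2 ^ (k + 5) : ℕ) : ℝ))}

/-- excluded energies -/
def Bad (m : ℕ → ℕ) (k : ℕ) : Set ℝ := {e ∈ Sg m k | |Real.sin ((2 * m (k + 1) + 1) *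
  ph m (k + 1) e)| < 1 / (4 * ((2 ^ (k + 5) : ℕ) : ℝ))}

lemma tau_pos (m : ℕ → ℕ) (k : ℕ) : 0 < tau m k := by
  have : (0 : ℝ) < NN m k := by exact_mod_cast NN_pos m k
  unfold tau
  split_ifs
  · norm_num
  · positivity

lemma tau_zero (m : ℕ → ℕ) : tau m 0 = 10 := if_pos rfl

lemma tau_succ (m : ℕ → ℕ) (k : ℕ) : tau m (k + 1) = 1 / (2 ^ (2 * k + 27) * NN m (k + 1)) := by
  unfold tau
  rw [if_neg (Nat.succ_ne_zero k), show 2 * (k + 1) + 25 = 2 * k + 27 by ring]

lemma NN_one (m : ℕ → ℕ) : NN m 1 = 2 * m 0 + 1 := by simp [NN, hh]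

lemma Vk_one_zero (m : ℕ → ℕ) : Vk m (tau m) 1 0 = 0 := by
  rw [Vk_eq m (tau m) 0 0 (by simp [hh]) (by simp [hh])]
  simp [Vk]

lemma Vk_one (m : ℕ → ℕ) (n : ℤ) (h0 : 0 < n) (h1 : n < (2 * m 0 + 1 : ℕ)) :
    Vk m (tau m) 1 n = -10 := by
  have hN := NN_one m
  rw [Vk_succ, ind_eq_one m 0 n 0 (by simp [NN, hh]; omega) (by
    rw [zero_add, hN]; simp [hh]; push_cast at h1; omega), tau_zero]
  simp [Vk]

lemma Vk_one_per (m : ℕ → ℕ) (n : ℤ) : Vk m (tau m) 1 (n + (2 * m 0 + 1 : ℕ)) = Vk m (tau m) 1 n := by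
  have := Vk_periodic m (tau m) 1 n
  rwa [NN_one] at this

lemma Bloch.mono {U : ℤ → ℝ} {E : ℝ} {N : ℕ} {z : ℂ} {w : ℤ → ℂ} {B B' : ℝ}
    (h : Bloch U E N z w B) (hB : B ≤ B') : Bloch U E N z w B' :=
  ⟨h.eq, h.per, h.unit, h.wron, fun n => (h.bd n).trans hB⟩

lemma im_pow (z : ℂ) (hz : ‖z‖ = 1) (n : ℕ) :
    |(z ^ n).im| = |Real.sin (n * Real.arccos z.re)| := by
  have h1 : z.re ^ 2 + z.im ^ 2 = 1 := by
    have := Complex.sq_norm z
    rw [hz, Complex.normSq_apply] at this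
    linarith
  have hle : z.re ≤ 1 := by nlinarith [sq_nonneg z.im]
  have hge : -1 ≤ z.re := by nlinarith [sq_nonneg z.im]
  set θ := Real.arccos z.re with hθ
  have hc : Real.cos θ = z.re := Real.cos_arccos hge hle
  have hs : Real.sin θ ^ 2 = z.im ^ 2 := by
    have := Real.sin_sq_add_cos_sq θ
    rw [hc] at this
    linarith
  rcases sq_eq_sq_iff_eq_or_eq_neg.mp hs with h | h
  · have hzz : z = Complex.exp (θ * Complex.I) := by
      apply Complex.ext
      · rw [Complex.exp_ofReal_mul_I_re, hc]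
      · rw [Complex.exp_ofReal_mul_I_im, h]
    rw [hzz, ← Complex.exp_nat_mul]
    rw [show (n : ℂ) * (θ * Complex.I) = ((n * θ : ℝ) : ℂ) * Complex.I by push_cast; ring,
      Complex.exp_ofReal_mul_I_im]
  · have hzz : z = Complex.exp ((-θ : ℝ) * Complex.I) := by
      apply Complex.ext
      · rw [Complex.exp_ofReal_mul_I_re, Real.cos_neg, hc]
      · rw [Complex.exp_ofReal_mul_I_im, Real.sin_neg, h]; ring
    rw [hzz, ← Complex.exp_nat_mul]
    rw [show (n : ℂ) * ((-θ : ℝ) * Complex.I) = ((-(n * θ) : ℝ) : ℂ) * Complex.I by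
      push_cast; ring, Complex.exp_ofReal_mul_I_im, Real.sin_neg, abs_neg]

/-- energies in the good sets have bounded Bloch solutions -/
theorem bloch_Sg (m : ℕ → ℕ) (k : ℕ) : ∀ e ∈ Sg m k, ∃ (z : ℂ) (w : ℤ → ℂ),
    Bloch (Vk m (tau m) (k + 1)) e (NN m (k + 1)) z w (2048 * (2 - 1 / 2 ^ k)) := by
  induction k with
  | zero =>
    intro e he
    obtain ⟨h1, h2, h3⟩ := he
    rw [zero_add, NN_one]
    obtain ⟨z, w, h⟩ := Pool.Agent.H5R3.Base508.bloch_base (m 0) (Vk m (tau m) 1) (Vk_one_per m) (Vk_one_zero m)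
      (Vk_one m) e h1 h2 (by rw [tr, NN_one] at h3; exact h3)
    exact ⟨z, w, h.mono (by norm_num)⟩
  | succ k ih =>
    intro e he
    obtain ⟨he1, he2⟩ := he
    obtain ⟨z, w, hw⟩ := ih _ he1
    set t := tau m (k + 1) with ht
    have htp : 0 < t := tau_pos m (k + 1)
    have hNp : (0 : ℝ) < NN m (k + 1) := by exact_mod_cast NN_pos m (k + 1)
    have htN : ((2 : ℝ) * (hh m (k + 1) : ℕ) + 1) * t = 1 / 2 ^ (2 * k + 27) := by
      have e1 : ((2 : ℝ) * (hh m (k + 1) : ℕ) + 1) = NN m (k + 1) := by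
        unfold NN; push_cast; ring
      rw [e1, ht, tau_succ]
      field_simp
    have hw' : Bloch (fun n => Vk m (tau m) (k + 1) n - t) e (2 * hh m (k + 1) + 1) z w
        (2048 * (2 - 1 / 2 ^ k)) := by
      refine ⟨fun n => ?_, hw.per, hw.unit, hw.wron, hw.bd⟩
      have := hw.eq n
      rw [show Vk m (tau m) (k + 1) n - t - e = Vk m (tau m) (k + 1) n - (e + t) by ring]
      exact this
    have hρ : (1 : ℝ) / (4 * ((2 ^ (k + 5) : ℕ) : ℝ)) = 1 / 2 ^ (k + 7) := by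
      push_cast
      rw [show k + 7 = (k + 5) + 2 by ring, pow_add]
      norm_num
      ring
    rw [hρ] at he2
    have hB0 : (0 : ℝ) ≤ 2048 * (2 - 1 / 2 ^ k) := by
      have : (1 : ℝ) / 2 ^ k ≤ 1 := by
        rw [div_le_one (by positivity)]
        exact one_le_pow₀ (by norm_num)
      linarith
    have hB1 : 2048 * (2 - 1 / 2 ^ k) ≤ (4096 : ℝ) := by
      have : (0 : ℝ) ≤ 1 / 2 ^ k := by positivity
      linarith
    have hpow : (1 : ℝ) / 2 ^ (2 * k + 27) = 1 / 2 ^ k * (1 / 2 ^ k) / 134217728 := by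
      rw [pow_add, two_mul, pow_add]
      norm_num
      ring
    have hpow7 : (1 : ℝ) / 2 ^ (k + 7) = 1 / 2 ^ k / 128 := by
      rw [pow_add]
      norm_num
      ring
    have hq : (0 : ℝ) < 1 / 2 ^ k := by positivity
    have hq1 : (1 : ℝ) / 2 ^ k ≤ 1 := by
      rw [div_le_one (by positivity)]
      exact one_le_pow₀ (by norm_num)
    obtain ⟨z', w', h'⟩ := Pool.Agent.H285R3.Step508.bloch_step (fun n => Vk m (tau m) (k + 1) n - t)
      (Vk m (tau m) (k + 2)) e (hh m (k + 1)) (m (k + 1)) t (1 / 2 ^ (k + 7))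
      (2048 * (2 - 1 / 2 ^ k)) z w hw' (by
        intro n
        have := Vk_periodic m (tau m) (k + 2) n
        rw [show NN m (k + 2) = (2 * m (k + 1) + 1) * (2 * hh m (k + 1) + 1) from
          NN_succ m (k + 1)] at this
        exact this) (by
        intro n h1 h2
        rw [Vk_eq m (tau m) (k + 1) n h1 h2]
        ring) (by
        intro n h1 h2
        have hN1 : NN m (k + 2) = (2 * m (k + 1) + 1) * (2 * hh m (k + 1) + 1) :=
          NN_succ m (k + 1)
        rw [← hN1] at h2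
        rw [show k + 2 = (k + 1) + 1 from rfl, Vk_succ, ind_eq_one m (k + 1) n 0 (by
          unfold NN; push_cast; omega) (by
          rw [show k + 1 + 1 = k + 2 from rfl]; omega), mul_one]) htp.le (by positivity) (by
        rw [im_pow z hw.unit]
        have h1 : z.re = (tr m (k + 1)).eval (e + t) / 2 := by
          rw [tr, trp_eval hw]; ring
        rw [h1]
        unfold ph at he2
        push_cast
        exact not_lt.mp he2) (by
        rw [show (16 : ℝ) * (2 * (hh m (k + 1) : ℕ) + 1) * t * (2048 * (2 - 1 / 2 ^ k)) =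
          16 * ((2 * (hh m (k + 1) : ℕ) + 1) * t) * (2048 * (2 - 1 / 2 ^ k)) by ring, htN, hpow,
          hpow7]
        set q : ℝ := 1 / 2 ^ k
        have h1 : q * q * (2048 * (2 - q)) ≤ q * q * 4096 :=
          mul_le_mul_of_nonneg_left hB1 (by positivity)
        nlinarith)
    refine ⟨z', w', ?_⟩
    rw [show NN m (k + 1 + 1) = (2 * m (k + 1) + 1) * (2 * hh m (k + 1) + 1) from
      NN_succ m (k + 1)]
    refine h'.mono ?_
    rw [show (32 : ℝ) * (2 * (hh m (k + 1) : ℕ) + 1) * t * (2048 * (2 - 1 / 2 ^ k)) =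
      32 * ((2 * (hh m (k + 1) : ℕ) + 1) * t) * (2048 * (2 - 1 / 2 ^ k)) by ring, htN, hpow, hpow7,
      pow_succ, show (1 : ℝ) / (2 ^ k * 2) = 1 / 2 ^ k / 2 by field_simp]
    set q : ℝ := 1 / 2 ^ k
    have h1 : 32 * (q * q / 134217728) * (2048 * (2 - q)) / (q / 128) =
        q * (2 - q) * (32 * 2048 * 128 / 134217728) := by
      field_simp
    rw [h1]
    have h2 : (32 * 2048 * 128 / 134217728 : ℝ) = 1 / 16 := by norm_num
    rw [h2]
    have h3 : (0 : ℝ) ≤ q ^ 2 := sq_nonneg q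
    nlinarith [mul_nonneg hq.le (sub_nonneg.mpr hq1), mul_nonneg h3 (sub_nonneg.mpr hq1)]

end Pool.Agent.H508R3
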