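import Pool.Agent.H508R3.Sets
import Pool.Agent.H54R3.Meas508

set_option autoImplicit false

namespace Pool.Agent.H508R3

open MeasureTheory Filter Topology

lemma ph_meas (m : ℕ → ℕ) (k : ℕ) : Measurable (ph m k) :=
  Real.measurable_arccos.comp ((tr m k).continuous.measurable.div_const 2)

lemma Bad_meas' (m : ℕ → ℕ) (k : ℕ) : MeasurableSet {e : ℝ | |Real.sin ((2 * m (k + 1) + 1) *
    ph m (k + 1) e)| < 1 / (4 * ((2 ^ (k + 5) : ℕ) : ℝ))} := by
  apply measurableSet_lt _ measurable_const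
  exact ((Real.measurable_sin.comp ((ph_meas m (k + 1)).const_mul _))).abs

lemma Sg_succ_eq (m : ℕ → ℕ) (k : ℕ) : Sg m (k + 1) =
    (fun e => e + tau m (k + 1)) ⁻¹' (Sg m k \ Bad m k) := by
  ext e
  simp only [Sg, Bad, Set.mem_preimage, Set.mem_sdiff, Set.mem_ofPred_eq]
  tauto

lemma Sg_meas (m : ℕ → ℕ) (k : ℕ) : MeasurableSet (Sg m k) := by
  induction k with
  | zero =>
    have h1 : MeasurableSet {e : ℝ | -11 < e} := measurableSet_lt measurable_const measurable_id
    have h2 : MeasurableSet {e : ℝ | e < -9} := measurableSet_lt measurable_id measurable_const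
    have h3 : MeasurableSet {e : ℝ | |(tr m 1).eval e| < 1} :=
      measurableSet_lt (tr m 1).continuous.abs.measurable measurable_const
    exact h1.inter (h2.inter h3)
  | succ k ih =>
    rw [Sg_succ_eq]
    apply measurable_add_const
    exact ih.diff (ih.inter (Bad_meas' m k))

lemma Bad_meas (m : ℕ → ℕ) (k : ℕ) : MeasurableSet (Bad m k) := (Sg_meas m k).inter (Bad_meas' m k)

lemma vol_succ (m : ℕ → ℕ) (k : ℕ) : volume (Sg m (k + 1)) = volume (Sg m k \ Bad m k) := by
  rw [Sg_succ_eq]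
  exact measure_preimage_add_right volume _ _

lemma vol_fin (m : ℕ → ℕ) (k : ℕ) : volume (Sg m k) ≠ ⊤ := by
  induction k with
  | zero =>
    have : Sg m 0 ⊆ Set.Ioo (-11) (-9) := fun e he => ⟨he.1, he.2.1⟩
    refine ne_top_of_le_ne_top ?_ (measure_mono this)
    rw [Real.volume_Ioo]
    exact ENNReal.ofReal_ne_top
  | succ k ih =>
    rw [vol_succ]
    exact ne_top_of_le_ne_top ih (measure_mono Set.sdiff_subset)

lemma vol_zero (m : ℕ → ℕ) (hm : 3 ≤ m 0) : volume (Sg m 0) ≠ 0 := by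
  obtain ⟨e, h1, h2, h3⟩ := Pool.Agent.H5R3.Base508.base_exists (m 0) hm (Vk m (tau m) 1) (Vk_one_zero m)
    (Vk_one m)
  have ho : IsOpen (Sg m 0) := by
    have h1 : IsOpen {e : ℝ | -11 < e} := isOpen_lt continuous_const continuous_id
    have h2 : IsOpen {e : ℝ | e < -9} := isOpen_lt continuous_id continuous_const
    have h3 : IsOpen {e : ℝ | |(tr m 1).eval e| < 1} :=
      isOpen_lt (tr m 1).continuous.abs continuous_const
    exact h1.inter (h2.inter h3)
  refine (ho.measure_pos volume ⟨e, h1, h2, ?_⟩).ne'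
  rw [tr, NN_one]
  exact h3

lemma vol_low (m : ℕ → ℕ)
    (hbad : ∀ k, volume (Bad m k) ≤ ENNReal.ofReal (8 / ((2 ^ (k + 5) : ℕ) : ℝ)) * volume (Sg m k))
    (k : ℕ) : (1 / 2 + 1 / 2 ^ (k + 1)) * volume.real (Sg m 0) ≤ volume.real (Sg m k) ∧
      volume.real (Sg m k) ≤ volume.real (Sg m 0) := by
  induction k with
  | zero => norm_num
  | succ k ih =>
    have h1 : volume.real (Sg m (k + 1)) = volume.real (Sg m k) - volume.real (Bad m k) := by
      have : volume.real (Sg m (k + 1)) = volume.real (Sg m k \ Bad m k) := by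
        simp only [Measure.real, vol_succ]
      rw [this, measureReal_sdiff (fun e he => he.1) (Bad_meas m k) (vol_fin m k)]
    have h2 : volume.real (Bad m k) ≤ 8 / 2 ^ (k + 5) * volume.real (Sg m k) := by
      have h3 := ENNReal.toReal_mono (ENNReal.mul_ne_top ENNReal.ofReal_ne_top (vol_fin m k))
        (hbad k)
      rw [ENNReal.toReal_mul, ENNReal.toReal_ofReal (by positivity)] at h3
      push_cast at h3
      exact h3
    have h4 : (8 : ℝ) / 2 ^ (k + 5) = 1 / 2 ^ (k + 2) := by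
      rw [show k + 5 = (k + 2) + 3 by ring, pow_add _ (k + 2) 3]
      field_simp
      norm_num
    rw [h4] at h2
    have h5 : (1 : ℝ) / 2 ^ (k + 1 + 1) = 1 / 2 ^ (k + 1) / 2 := by
      rw [pow_succ _ (k + 1)]; field_simp
    have h6 : (1 : ℝ) / 2 ^ (k + 2) = 1 / 2 ^ (k + 1) / 2 := h5
    have h7 : (0 : ℝ) < 1 / 2 ^ (k + 1) := by positivity
    have h8 := @measureReal_nonneg _ _ volume (Bad m k)
    have h9 := @measureReal_nonneg _ _ volume (Sg m 0)
    rw [h1, h5]
    rw [h6] at h2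
    constructor
    · nlinarith [ih.1, ih.2]
    · linarith [ih.2]

/-- tails of the kicks -/
noncomputable def sig (m : ℕ → ℕ) (k : ℕ) : ℝ := ∑' j, tau m (j + k)

lemma sig_succ {m : ℕ → ℕ} {J : ℕ → ℕ} (h : Hyp m (tau m) J) (k : ℕ) :
    sig m k = tau m k + sig m (k + 1) := by
  unfold sig
  have hs : Summable (fun j => tau m (j + k)) := (summable_nat_add_iff k).mpr (tau_summable h)
  rw [hs.tsum_eq_zero_add]
  congr 1
  · simp
  · apply tsum_congr
    intro j
    congr 1
    ring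

lemma sig_tendsto {m : ℕ → ℕ} {J : ℕ → ℕ} (h : Hyp m (tau m) J) :
    Tendsto (fun k => sig m (k + 1)) atTop (𝓝 0) :=
  (tendsto_sum_nat_add (tau m)).comp (tendsto_add_atTop_nat 1)

theorem exists_bounded_set {m : ℕ → ℕ} {J : ℕ → ℕ} (h : Hyp m (tau m) J) (hm : 3 ≤ m 0)
    (hbad : ∀ k, volume (Bad m k) ≤ ENNReal.ofReal (8 / ((2 ^ (k + 5) : ℕ) : ℝ)) * volume (Sg m k)) :
    ∃ S : Set ℝ, MeasurableSet S ∧ volume S ≠ 0 ∧ ∀ E ∈ S, ∀ u : ℤ → ℝ,
      (∀ n, HE (Vinf m (tau m)) E u n = 0) →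
      ∀ n, u n ^ 2 + u (n + 1) ^ 2 ≤ 4 * 4096 ^ 2 * (u 0 ^ 2 + u 1 ^ 2) := by
  set T : ℕ → Set ℝ := fun k => (fun e => e + sig m (k + 1)) ⁻¹' (Sg m k) with hT
  have hTm : ∀ k, MeasurableSet (T k) := fun k => measurable_add_const _ (Sg_meas m k)
  have hanti : Antitone T := by
    apply antitone_nat_of_succ_le
    intro k e he
    simp only [hT, Set.mem_preimage] at he ⊢
    have h1 := he.1
    rw [sig_succ h (k + 1)]
    rw [show e + (tau m (k + 1) + sig m (k + 1 + 1)) = e + sig m (k + 1 + 1) + tau m (k + 1) by ring]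
    exact h1
  have hvol : ∀ k, volume (T k) = volume (Sg m k) := fun k => measure_preimage_add_right volume _ _
  have hlim := tendsto_measure_iInter_atTop (μ := volume) (s := T)
    (fun k => (hTm k).nullMeasurableSet) hanti ⟨0, by rw [hvol]; exact vol_fin m 0⟩
  refine ⟨⋂ k, T k, MeasurableSet.iInter hTm, ?_, ?_⟩
  · have hv0 := vol_zero m hm
    have hge : ∀ k, ENNReal.ofReal (volume.real (Sg m 0) / 2) ≤ (volume ∘ T) k := by
      intro k
      simp only [Function.comp, hvol]
      rw [← ENNReal.ofReal_toReal (vol_fin m k)]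
      apply ENNReal.ofReal_le_ofReal
      have h1 := (vol_low m hbad k).1
      have h2 := @measureReal_nonneg _ _ volume (Sg m 0)
      have h3 : (0 : ℝ) ≤ 1 / 2 ^ (k + 1) := by positivity
      have h4 : (volume (Sg m k)).toReal = volume.real (Sg m k) := rfl
      rw [h4]
      nlinarith
    have h5 := ge_of_tendsto' hlim hge
    have h6 : 0 < ENNReal.ofReal (volume.real (Sg m 0) / 2) := by
      rw [ENNReal.ofReal_pos]
      have : 0 < volume.real (Sg m 0) := by
        rw [Measure.real, ENNReal.toReal_pos_iff]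
        exact ⟨pos_iff_ne_zero.mpr hv0, lt_top_iff_ne_top.mpr (vol_fin m 0)⟩
      linarith
    exact (lt_of_lt_of_le h6 h5).ne'
  · intro E hE u hu n
    have hE' : ∀ k, E + sig m (k + 1) ∈ Sg m k := fun k => Set.mem_iInter.mp hE k
    apply bounded_of_approx (Vinf m (tau m)) E (fun k => Vk m (tau m) (k + 1))
      (fun k => E + sig m (k + 1)) (fun n => (Vk_tendsto h n).comp (tendsto_add_atTop_nat 1)) _ 4096
      _ u hu n
    · have := (sig_tendsto h).const_add E
      simpa using this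
    · intro k
      obtain ⟨z, w, hw⟩ := bloch_Sg m k _ (hE' k)
      refine ⟨NN m (k + 1), z, w, hw.mono ?_⟩
      have : (0 : ℝ) ≤ 1 / 2 ^ k := by positivity
      linarith

end Pool.Agent.H508R3
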