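import Pool.Agent.H508R3.Ring

set_option autoImplicit false

namespace Pool.Agent.H508R3

/-- the quadratic form of the operator with potential `V` is bounded above by `t` -/
def TopB (V : ℤ → ℝ) (t : ℝ) : Prop :=
  ∀ (u : ℤ → ℝ) (a b : ℤ), (∀ n, n < a ∨ b ≤ n → u n = 0) →
    ∑ n ∈ Finset.Ico a b, u n * (u (n + 1) + u (n - 1) + V n * u n) ≤
      t * ∑ n ∈ Finset.Ico a b, u n ^ 2

/-- componentwise absolute value -/
noncomputable def absV {N : ℕ} [NeZero N] (x : EuclideanSpace ℝ (ZMod N)) :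
    EuclideanSpace ℝ (ZMod N) := WithLp.toLp 2 (fun y => |x y|)

lemma absV_apply {N : ℕ} [NeZero N] (x : EuclideanSpace ℝ (ZMod N)) (y : ZMod N) :
    absV x y = |x y| := rfl

lemma absV_norm {N : ℕ} [NeZero N] (x : EuclideanSpace ℝ (ZMod N)) : ‖absV x‖ = ‖x‖ := by
  rw [EuclideanSpace.norm_eq, EuclideanSpace.norm_eq]
  congr 1
  apply Finset.sum_congr rfl
  intro y _
  rw [absV_apply, norm_abs_eq_norm]

/-- Perron-Frobenius on the ring -/
theorem ring_top (V : ℤ → ℝ) (N : ℕ) (hN : 0 < N) (hV : ∀ n : ℤ, V (n + N) = V n) :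
    ∃ (E : ℝ) (φ : ℤ → ℝ), (∀ n : ℤ, φ (n + N) = φ n) ∧ (∀ n, 0 < φ n) ∧
      ∀ n, HE V E φ n = 0 := by
  have : NeZero N := ⟨hN.ne'⟩
  set T : EuclideanSpace ℝ (ZMod N) →L[ℝ] EuclideanSpace ℝ (ZMod N) :=
    LinearMap.toContinuousLinearMap (TR V N) with hT
  have hTa : ∀ x, T x = TR V N x := fun x => rfl
  have hsa : IsSelfAdjoint T := by
    rw [ContinuousLinearMap.isSelfAdjoint_iff_isSymmetric]
    exact TR_symm V N
  obtain ⟨x1, hx1, hmax⟩ := (isCompact_sphere (0 : EuclideanSpace ℝ (ZMod N)) 1).exists_isMaxOn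
    ⟨EuclideanSpace.single 0 1, by simp⟩ T.reApplyInnerSelf_continuous.continuousOn
  have hx1n : ‖x1‖ = 1 := by simpa using hx1
  set x0 := absV x1 with hx0
  have hx0n : ‖x0‖ = 1 := by rw [hx0, absV_norm, hx1n]
  have hx0ne : x0 ≠ 0 := by
    intro h
    rw [h, norm_zero] at hx0n
    norm_num at hx0n
  have hform : ∀ x, T.reApplyInnerSelf x =
      ∑ i : ZMod N, (x (i + 1) * x i + x (i - 1) * x i + V (i.val : ℤ) * (x i * x i)) := by
    intro x
    rw [ContinuousLinearMap.reApplyInnerSelf_apply, hTa, PiLp.inner_apply]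
    simp only [RCLike.inner_apply, conj_trivial, TR_apply]
    rw [show RCLike.re (∑ i : ZMod N, x i * (x (i + 1) + x (i - 1) + V (i.val : ℤ) * x i)) =
      ∑ i : ZMod N, x i * (x (i + 1) + x (i - 1) + V (i.val : ℤ) * x i) from rfl]
    apply Finset.sum_congr rfl
    intro i _
    ring
  have hge : T.reApplyInnerSelf x1 ≤ T.reApplyInnerSelf x0 := by
    rw [hform, hform]
    apply Finset.sum_le_sum
    intro i _
    simp only [hx0, absV_apply]
    have h1 := le_abs_self (x1 (i + 1) * x1 i)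
    have h2 := le_abs_self (x1 (i - 1) * x1 i)
    rw [abs_mul] at h1 h2
    have h3 : |x1 i| * |x1 i| = x1 i * x1 i := abs_mul_abs_self _
    rw [h3]
    linarith
  have hmax0 : IsMaxOn T.reApplyInnerSelf (Metric.sphere 0 ‖x0‖) x0 := by
    rw [hx0n]
    intro y hy
    exact (hmax hy).trans hge
  have heig := hsa.hasEigenvector_of_isMaxOn hx0ne hmax0
  have heq := heig.apply_eq_smul
  set E : ℝ := ((⨆ x : { x : EuclideanSpace ℝ (ZMod N) // x ≠ 0 }, T.rayleighQuotient x : ℝ)) with hE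
  have heq' : TR V N x0 = E • x0 := heq
  have hpt : ∀ i : ZMod N, x0 (i + 1) + x0 (i - 1) + V (i.val : ℤ) * x0 i = E * x0 i := by
    intro i
    have : (TR V N x0) i = (E • x0) i := by rw [heq']
    rw [TR_apply, PiLp.smul_apply, smul_eq_mul] at this
    exact this
  have hnn : ∀ i, 0 ≤ x0 i := fun i => abs_nonneg _
  have hpos : ∀ i, 0 < x0 i := by
    intro i
    by_contra hcon
    have hz : x0 i = 0 := le_antisymm (not_lt.mp hcon) (hnn i)
    have hall : ∀ k : ℕ, x0 (i + k) = 0 := by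
      intro k
      induction k with
      | zero => simpa using hz
      | succ k ih =>
        have h1 := hpt (i + k)
        rw [ih] at h1
        have h2 := hnn (i + k + 1)
        have h3 := hnn (i + k - 1)
        have h4 : x0 (i + k + 1) = 0 := by linarith
        rw [show i + ((k + 1 : ℕ) : ZMod N) = i + k + 1 by push_cast; ring]
        exact h4
    apply hx0ne
    ext j
    have h1 := hall ((j - i).val)
    rw [ZMod.natCast_zmod_val, add_sub_cancel] at h1
    simpa using h1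
  refine ⟨E, fun n => x0 (n : ZMod N), ?_, fun n => hpos _, ?_⟩
  · intro n; simp
  · intro n
    have h1 : ((n : ZMod N) + 1) = ((n + 1 : ℤ) : ZMod N) := by push_cast; ring
    have h2 : ((n : ZMod N) - 1) = ((n - 1 : ℤ) : ZMod N) := by push_cast; ring
    have h3 := hpt (n : ZMod N)
    rw [h1, h2, periodic_val V N hV] at h3
    simp only [HE]
    linarith

/-- a positive solution gives a bound for the quadratic form -/
theorem top_of_pos (V : ℤ → ℝ) (E : ℝ) (φ : ℤ → ℝ) (hφ : ∀ n, 0 < φ n)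
    (he : ∀ n, HE V E φ n = 0) : TopB V E := by
  intro u a b hu
  set A : ℤ → ℝ := fun n => u n ^ 2 * (φ (n + 1) / φ n) with hA
  set C : ℤ → ℝ := fun n => u n ^ 2 * (φ (n - 1) / φ n) with hC
  have hA0 : ∀ n, 0 ≤ A n := fun n => by
    have := hφ n; have := hφ (n + 1); simp only [hA]; positivity
  have hC0 : ∀ n, 0 ≤ C n := fun n => by
    have := hφ n; have := hφ (n - 1); simp only [hC]; positivity
  have key : ∀ n, 2 * (u n * u (n + 1)) ≤ A n + C (n + 1) := by
    intro n
    have p0 := hφ n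
    have p1 := hφ (n + 1)
    simp only [hA, hC]
    rw [add_sub_cancel_right]
    have e1 : u n ^ 2 * (φ (n + 1) / φ n) + u (n + 1) ^ 2 * (φ n / φ (n + 1)) -
        2 * (u n * u (n + 1)) =
        (u n * φ (n + 1) - u (n + 1) * φ n) ^ 2 / (φ n * φ (n + 1)) := by
      field_simp
      ring
    have e2 : 0 ≤ (u n * φ (n + 1) - u (n + 1) * φ n) ^ 2 / (φ n * φ (n + 1)) := by positivity
    linarith
  have hAC : ∀ n, A n + C n = (E - V n) * u n ^ 2 := by
    intro n
    have p0 := hφ n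
    have h := he n
    simp only [HE] at h
    simp only [hA, hC]
    rw [← mul_add, ← add_div]
    have h' : φ (n + 1) + φ (n - 1) = (E - V n) * φ n := by linarith
    rw [h']
    field_simp
  -- shifted sums
  have hshift : ∀ F : ℤ → ℝ, (∀ n, 0 ≤ F n) → (∀ n, n < a ∨ b ≤ n → F n = 0) →
      ∑ n ∈ Finset.Ico a b, F (n + 1) ≤ ∑ n ∈ Finset.Ico a b, F n := by
    intro F hF0 hF
    rw [← Finset.sum_image (s := Finset.Ico a b) (g := fun n : ℤ => n + 1) (f := F)
      (by intro x _ y _ h; simpa using h)]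
    have h1 : ∑ n ∈ (Finset.Ico a b).image (fun n : ℤ => n + 1), F n ≤
        ∑ n ∈ Finset.Ico a (b + 1), F n := by
      apply Finset.sum_le_sum_of_subset_of_nonneg
      · intro n hn
        simp only [Finset.mem_image, Finset.mem_Ico] at hn ⊢
        obtain ⟨m, hm, rfl⟩ := hn
        omega
      · intro n _ _; exact hF0 n
    refine h1.trans (le_of_eq ?_)
    symm
    apply Finset.sum_subset
    · intro n hn
      simp only [Finset.mem_Ico] at hn ⊢
      omega
    · intro n hn hn'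
      simp only [Finset.mem_Ico] at hn hn'
      exact hF n (by omega)
  have hshift' : ∀ F : ℤ → ℝ, (∀ n, 0 ≤ F n) → (∀ n, n < a ∨ b ≤ n → F n = 0) →
      ∑ n ∈ Finset.Ico a b, F (n - 1) ≤ ∑ n ∈ Finset.Ico a b, F n := by
    intro F hF0 hF
    rw [← Finset.sum_image (s := Finset.Ico a b) (g := fun n : ℤ => n - 1) (f := F)
      (by intro x _ y _ h; simpa using h)]
    have h1 : ∑ n ∈ (Finset.Ico a b).image (fun n : ℤ => n - 1), F n ≤
        ∑ n ∈ Finset.Ico (a - 1) b, F n := by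
      apply Finset.sum_le_sum_of_subset_of_nonneg
      · intro n hn
        simp only [Finset.mem_image, Finset.mem_Ico] at hn ⊢
        obtain ⟨m, hm, rfl⟩ := hn
        omega
      · intro n _ _; exact hF0 n
    refine h1.trans (le_of_eq ?_)
    symm
    apply Finset.sum_subset
    · intro n hn
      simp only [Finset.mem_Ico] at hn ⊢
      omega
    · intro n hn hn'
      simp only [Finset.mem_Ico] at hn hn'
      exact hF n (by omega)
  have hCs := hshift C hC0 (fun n hn => by simp only [hC]; rw [hu n hn]; ring)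
  have hAs := hshift' A hA0 (fun n hn => by simp only [hA]; rw [hu n hn]; ring)
  calc ∑ n ∈ Finset.Ico a b, u n * (u (n + 1) + u (n - 1) + V n * u n)
      ≤ ∑ n ∈ Finset.Ico a b, ((A n + C (n + 1) + (A (n - 1) + C n)) / 2 + V n * u n ^ 2) := by
        apply Finset.sum_le_sum
        intro n _
        have k1 := key n
        have k2 := key (n - 1)
        rw [sub_add_cancel] at k2
        nlinarith
    _ = (∑ n ∈ Finset.Ico a b, C (n + 1) + ∑ n ∈ Finset.Ico a b, A (n - 1) +
          ∑ n ∈ Finset.Ico a b, (A n + C n)) / 2 + ∑ n ∈ Finset.Ico a b, V n * u n ^ 2 := by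
        rw [← Finset.sum_add_distrib, ← Finset.sum_add_distrib, Finset.sum_div,
          ← Finset.sum_add_distrib]
        apply Finset.sum_congr rfl
        intro n _
        ring
    _ ≤ ∑ n ∈ Finset.Ico a b, (A n + C n) + ∑ n ∈ Finset.Ico a b, V n * u n ^ 2 := by
        have : ∑ n ∈ Finset.Ico a b, (A n + C n) =
            ∑ n ∈ Finset.Ico a b, A n + ∑ n ∈ Finset.Ico a b, C n := Finset.sum_add_distrib
        linarith
    _ = E * ∑ n ∈ Finset.Ico a b, u n ^ 2 := by
        rw [← Finset.sum_add_distrib, Finset.mul_sum]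
        apply Finset.sum_congr rfl
        intro n _
        rw [hAC]
        ring

/-- the local energy inequality on an interval -/
theorem cell_le (V V' : ℤ → ℝ) (E t τ : ℝ) (φ : ℤ → ℝ) (hT : TopB V' t) (a b : ℤ) (hab : a < b)
    (hsol : ∀ n, a ≤ n → n < b → HE V E φ n = 0) (hV : ∀ n, a ≤ n → n < b → V n ≤ V' n - τ) :
    (E - t + τ) * ∑ n ∈ Finset.Ico a b, φ n ^ 2 ≤ φ (b - 1) * φ b + φ a * φ (a - 1) := by
  set u : ℤ → ℝ := fun n => if a ≤ n ∧ n < b then φ n else 0 with hu
  have hin : ∀ n, a ≤ n → n < b → u n = φ n := fun n h1 h2 => if_pos ⟨h1, h2⟩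
  have hout : ∀ n, n < a ∨ b ≤ n → u n = 0 := fun n h => if_neg (by omega)
  have h1 := hT u a b hout
  have hsq : ∑ n ∈ Finset.Ico a b, u n ^ 2 = ∑ n ∈ Finset.Ico a b, φ n ^ 2 := by
    apply Finset.sum_congr rfl
    intro n hn
    simp only [Finset.mem_Ico] at hn
    rw [hin n hn.1 hn.2]
  -- the corrections
  set cor : ℤ → ℝ := fun n => (if n = b - 1 then φ (b - 1) * φ b else 0) +
    (if n = a then φ a * φ (a - 1) else 0) with hcor
  have hcorsum : ∑ n ∈ Finset.Ico a b, cor n = φ (b - 1) * φ b + φ a * φ (a - 1) := by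
    simp only [hcor]
    rw [Finset.sum_add_distrib, Finset.sum_ite_eq', Finset.sum_ite_eq', if_pos, if_pos]
    · simp only [Finset.mem_Ico]; omega
    · simp only [Finset.mem_Ico]; omega
  have hpt : ∀ n ∈ Finset.Ico a b, (E + τ) * φ n ^ 2 - cor n ≤
      u n * (u (n + 1) + u (n - 1) + V' n * u n) := by
    intro n hn
    simp only [Finset.mem_Ico] at hn
    have hs := hsol n hn.1 hn.2
    have hv := hV n hn.1 hn.2
    simp only [HE] at hs
    rw [hin n hn.1 hn.2]
    have e1 : φ n * u (n + 1) = φ n * φ (n + 1) - (if n = b - 1 then φ (b - 1) * φ b else 0) := by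
      by_cases h : n = b - 1
      · rw [if_pos h, hout (n + 1) (by omega), h, sub_add_cancel]
        ring
      · rw [if_neg h, hin (n + 1) (by omega) (by omega)]
        ring
    have e2 : φ n * u (n - 1) = φ n * φ (n - 1) - (if n = a then φ a * φ (a - 1) else 0) := by
      by_cases h : n = a
      · rw [if_pos h, hout (n - 1) (by omega), h]
        ring
      · rw [if_neg h, hin (n - 1) (by omega) (by omega)]
        ring
    have e3 : φ n * (u (n + 1) + u (n - 1) + V' n * φ n) =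
        φ n * φ (n + 1) + φ n * φ (n - 1) + V' n * φ n ^ 2 - cor n := by
      simp only [hcor]
      rw [mul_add, mul_add, e1, e2]
      ring
    rw [e3]
    have e4 : φ n * φ (n + 1) + φ n * φ (n - 1) = (E - V n) * φ n ^ 2 := by
      have : φ (n + 1) + φ (n - 1) = (E - V n) * φ n := by linarith
      calc φ n * φ (n + 1) + φ n * φ (n - 1) = φ n * (φ (n + 1) + φ (n - 1)) := by ring
        _ = (E - V n) * φ n ^ 2 := by rw [this]; ring
    rw [e4]
    nlinarith [sq_nonneg (φ n)]
  have h2 := Finset.sum_le_sum hpt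
  rw [Finset.sum_sub_distrib, ← Finset.mul_sum, hcorsum] at h2
  rw [hsq] at h1
  nlinarith

/-- exponential growth of the mass away from a cell edge -/
theorem zone (V V' : ℤ → ℝ) (E t τ : ℝ) (φ : ℤ → ℝ) (hT : TopB V' t) (e : ℤ) (ℓ : ℤ)
    (hsol : ∀ n, HE V E φ n = 0) (hV : ∀ n, e + 1 - ℓ ≤ n → n ≤ e + ℓ → V n ≤ V' n - τ)
    (hE : t - τ / 2 ≤ E) (hτ : 0 < τ) (j : ℕ) (hj : 2 * (j : ℤ) + 1 ≤ ℓ) :
    (1 + τ) ^ j * (φ e ^ 2 + φ (e + 1) ^ 2) ≤
      ∑ n ∈ Finset.Ico (e + 1 - (2 * j + 1)) (e + 1 + (2 * j + 1)), φ n ^ 2 := by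
  induction j with
  | zero =>
    have h1 : Finset.Ico (e + 1 - (2 * ((0 : ℕ) : ℤ) + 1)) (e + 1 + (2 * ((0 : ℕ) : ℤ) + 1)) =
        {e, e + 1} := by
      ext n
      simp only [Finset.mem_Ico, Finset.mem_insert, Finset.mem_singleton]
      push_cast
      omega
    rw [h1, Finset.sum_pair (by omega)]
    simp
  | succ j ih =>
    have ih' := ih (by push_cast at hj; omega)
    set r : ℤ := 2 * j + 2 with hr
    have hb1 : ∑ n ∈ Finset.Ico (e + 1 - (2 * ((j + 1 : ℕ) : ℤ) + 1)) (e + 1 + (2 * ((j + 1 : ℕ) : ℤ) + 1)), φ n ^ 2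
        = ∑ n ∈ Finset.Ico (e + 1 - r) (e + 1 + r), φ n ^ 2 + φ (e - r) ^ 2 + φ (e + r + 1) ^ 2 := by
      have : Finset.Ico (e + 1 - (2 * ((j + 1 : ℕ) : ℤ) + 1)) (e + 1 + (2 * ((j + 1 : ℕ) : ℤ) + 1)) =
          insert (e - r) (insert (e + r + 1) (Finset.Ico (e + 1 - r) (e + 1 + r))) := by
        ext n
        simp only [Finset.mem_Ico, Finset.mem_insert]
        push_cast
        omega
      rw [this, Finset.sum_insert, Finset.sum_insert]
      · ring
      · simp only [Finset.mem_Ico]; omega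
      · simp only [Finset.mem_Ico, Finset.mem_insert]; omega
    have hb2 : ∑ n ∈ Finset.Ico (e + 1 - r) (e + 1 + r), φ n ^ 2 =
        ∑ n ∈ Finset.Ico (e + 1 - (2 * j + 1)) (e + 1 + (2 * j + 1)), φ n ^ 2 +
          φ (e + 1 - r) ^ 2 + φ (e + r) ^ 2 := by
      have : Finset.Ico (e + 1 - r) (e + 1 + r) =
          insert (e + 1 - r) (insert (e + r) (Finset.Ico (e + 1 - (2 * (j : ℤ) + 1)) (e + 1 + (2 * j + 1)))) := by
        ext n
        simp only [Finset.mem_Ico, Finset.mem_insert]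
        omega
      rw [this, Finset.sum_insert, Finset.sum_insert]
      · ring
      · simp only [Finset.mem_Ico]; omega
      · simp only [Finset.mem_Ico, Finset.mem_insert]; omega
    have hc := cell_le V V' E t τ φ hT (e + 1 - r) (e + 1 + r) (by omega) (fun n _ _ => hsol n)
      (fun n h1 h2 => hV n (by push_cast at hj; omega) (by push_cast at hj; omega))
    rw [show e + 1 + r - 1 = e + r by ring, show e + 1 - r - 1 = e - r by ring,
      show e + 1 + r = e + r + 1 by ring] at hc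
    rw [show e + 1 + r = e + r + 1 by ring] at hb1 hb2
    set B := ∑ n ∈ Finset.Ico (e + 1 - r) (e + r + 1), φ n ^ 2 with hB
    set B0 := ∑ n ∈ Finset.Ico (e + 1 - (2 * j + 1)) (e + 1 + (2 * j + 1)), φ n ^ 2 with hB0
    have hB0n : 0 ≤ B0 := Finset.sum_nonneg fun _ _ => sq_nonneg _
    have hBn : B0 ≤ B := by
      rw [hb2]
      nlinarith [sq_nonneg (φ (e + 1 - r)), sq_nonneg (φ (e + r))]
    have hκ : τ / 2 * B ≤ (E - t + τ) * B := by
      apply mul_le_mul_of_nonneg_right _ (hB0n.trans hBn)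
      linarith
    have hp1 : φ (e + r) * φ (e + r + 1) ≤ (φ (e + r) ^ 2 + φ (e + r + 1) ^ 2) / 2 := by
      nlinarith [sq_nonneg (φ (e + r) - φ (e + r + 1))]
    have hp2 : φ (e + 1 - r) * φ (e - r) ≤ (φ (e + 1 - r) ^ 2 + φ (e - r) ^ 2) / 2 := by
      nlinarith [sq_nonneg (φ (e + 1 - r) - φ (e - r))]
    rw [hb1]
    have h6 : (1 + τ) ^ (j + 1) * (φ e ^ 2 + φ (e + 1) ^ 2) ≤ (1 + τ) * B0 := by
      rw [pow_succ, mul_comm ((1 + τ) ^ j), mul_assoc]
      exact mul_le_mul_of_nonneg_left ih' (by linarith)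
    have h7 : τ * B0 ≤ τ * B := mul_le_mul_of_nonneg_left hBn hτ.le
    linarith

end Pool.Agent.H508R3
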